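import Mathlib

/-!
# AKW, module Cnt: counting (helper19)

PROOF of `card_le`.  Choose a section `s : Γ ⧸ H → Γ` (`Quotient.out`).  Map `S ∈ G` to
`(par S % 2, fun q => v S (s q))`: first component in `Finset.range 2`, second in the functions `Γ ⧸ H → R`,
`R` the set of the roots of `X ^ E - 1` in `F`, at most `E` elements (`Polynomial.card_roots'`,
`Polynomial.nthRoots`, `card_nthRoots`).  The number of such pairs is at most `2 * E ^ (number of cosets)`
(`Fintype.card_pi`, `Fintype.piFinset`).  The map is injective on `G`: if `S`, `S'` have the same image and `a : Γ`, then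
`a = s q * h`, `q` the class of `a`, `h ∈ H`, and `h2` with `a := s q` gives `v S a = v S' a`; so `S = S'` by `h3`.
(`Subgroup.index = Nat.card (Γ ⧸ H)`.)
-/

namespace AKW

theorem card_le {Γ : Type} [CommGroup Γ] [Finite Γ] {ι F : Type} [Field F] (H : Subgroup Γ)
    (G : Finset ι) (par : ι → ℕ) (v : ι → Γ → F) {E : ℕ} (hE : 0 < E)
    (h1 : ∀ S ∈ G, ∀ a, v S a ^ E = 1)
    (h2 : ∀ h ∈ H, ∀ S ∈ G, ∀ S' ∈ G, par S % 2 = par S' % 2 → ∀ a, v S a = v S' a →
      v S (a * h) = v S' (a * h))
    (h3 : ∀ S ∈ G, ∀ S' ∈ G, (∀ a, v S a = v S' a) → S = S') :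
    G.card ≤ 2 * E ^ H.index := by
  classical
  let _ : Fintype (Γ ⧸ H) := Fintype.ofFinite _
  obtain ⟨R, hR, hRc⟩ : ∃ R : Finset F, (∀ x : F, x ^ E = 1 → x ∈ R) ∧ R.card ≤ E := by
    refine ⟨(Polynomial.nthRoots E (1 : F)).toFinset, ?_, ?_⟩
    · intro x hx
      rw [Multiset.mem_toFinset, Polynomial.mem_nthRoots hE]
      exact hx
    · exact (Multiset.toFinset_card_le _).trans (Polynomial.card_nthRoots E 1)
  have key : G.card ≤ (Finset.range 2 ×ˢ Fintype.piFinset (fun _ : Γ ⧸ H => R)).card := by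
    apply Finset.card_le_card_of_injOn
      (fun S => (par S % 2, fun q : Γ ⧸ H => v S (Quotient.out q)))
    · intro S hS
      rw [Finset.mem_coe] at hS
      rw [Finset.mem_coe, Finset.mem_product, Fintype.mem_piFinset]
      exact ⟨Finset.mem_range.2 (Nat.mod_lt _ two_pos), fun q => hR _ (h1 S hS _)⟩
    · intro S hS S' hS' he
      rw [Finset.mem_coe] at hS hS'
      rw [Prod.mk.injEq] at he
      apply h3 S hS S' hS'
      intro a
      obtain ⟨h, hh⟩ := QuotientGroup.mk_out_eq_mul H a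
      have h4 := congrFun he.2 (a : Γ ⧸ H)
      have h5 := h2 (h : Γ)⁻¹ (H.inv_mem h.2) S hS S' hS' he.1 _ h4
      have h6 : Quotient.out (a : Γ ⧸ H) * (h : Γ)⁻¹ = a := by
        have h7 : Quotient.out (a : Γ ⧸ H) = a * h := hh
        rw [h7, mul_inv_cancel_right]
      rwa [h6] at h5
  refine key.trans ?_
  rw [Finset.card_product, Finset.card_range, Fintype.card_piFinset, Finset.prod_const,
    Finset.card_univ]
  have h7 : H.index = Fintype.card (Γ ⧸ H) := by
    rw [Subgroup.index, Nat.card_eq_fintype_card]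
  rw [h7]
  exact Nat.mul_le_mul_left 2 (Nat.pow_le_pow_left hRc _)

end AKW
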