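import Pool.Agent.AKW.Lgz

/-!
# AKW, module Fou: multiplicative independence (helper19)

PROOF of `indep`.  `d = (r - 1) / 2`, `Γ = (ZMod r)ˣ`.  Let `E : Γ → ℂ`, `E x = ∑_{j ∈ Icc 1 d} e j ([x = j] + [x = -j])`.
As `hz` is even, `∑_x E x * hz (a x) = 2 ∑_j e j hz (a j) = 0` for all `a`.  For a character `χ`:
`0 = ∑_a χ(a) ∑_x E x hz (a x) = (∑_x E x χ(x)⁻¹) (∑_b χ(b) hz b)` (substitute `b = a x`).  `χ` even: the second factor is not
`0` (`sum_char_ne_zero'`), so `∑_x E x χ(x)⁻¹ = 0`; `χ` odd: the same because `E` is even.  So for `y : Γ`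
`0 = ∑_χ χ(y) ∑_x E x χ(x)⁻¹ = φ(r) E y` (orthogonality: `DirichletCharacter.sum_characters_eq`, `…_eq_zero`).  For
`y = j₀ ∈ Icc 1 d`: `E y = e j₀`, because `j ≡ j₀` or `j ≡ -j₀` modulo `r` with `1 ≤ j, j₀ ≤ d` only for `j = j₀` (`r` odd).

`CS_ne` : if `aeval (zt r) (CS r S) = aeval (zt r) (CS r S')` then by `aeval_conj` the same for all the powers `a`, so
`xs r S a = xs r S' a` for all `a` (`log_norm_CS`), and `indep` with `e = 1_S - 1_{S'}` gives `S = S'`.
-/

open Polynomial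

namespace AKW

/-- the symmetric function on the units with the values `e j` -/
noncomputable def EE (r : ℕ) (e : ℕ → ℝ) (x : ZMod r) : ℂ :=
  ∑ j ∈ Finset.Icc 1 ((r - 1) / 2), (e j : ℂ) * ((if x = (j : ZMod r) then 1 else 0)
    + (if x = -(j : ZMod r) then 1 else 0))

theorem EE_neg (r : ℕ) (e : ℕ → ℝ) (x : ZMod r) : EE r e (-x) = EE r e x := by
  unfold EE
  apply Finset.sum_congr rfl
  intro j _
  have h1 : (-x = (j : ZMod r)) ↔ x = -(j : ZMod r) := by
    constructor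
    · intro h; rw [← h, neg_neg]
    · intro h; rw [h, neg_neg]
  have h2 : (-x = -(j : ZMod r)) ↔ x = (j : ZMod r) := neg_inj
  simp only [h1, h2]
  ring

theorem unit_of_mem {r : ℕ} [Fact r.Prime] {j : ℕ} (hj : j ∈ Finset.Icc 1 ((r - 1) / 2)) :
    ∃ u : (ZMod r)ˣ, (u : ZMod r) = (j : ZMod r) := by
  have hr : r.Prime := Fact.out
  rw [Finset.mem_Icc] at hj
  have h2 : j < r := by have := hr.two_le; omega
  have hc : j.Coprime r := (Nat.coprime_comm.1 ((Nat.Prime.coprime_iff_not_dvd hr).2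
    (Nat.not_dvd_of_pos_of_lt (by omega) h2)))
  exact ⟨ZMod.unitOfCoprime j hc, ZMod.coe_unitOfCoprime j hc⟩

theorem sum_EE {r : ℕ} [Fact r.Prime] (e : ℕ → ℝ) (f : ZMod r → ℂ)
    (hf : ∀ x, f (-x) = f x) :
    ∑ x : (ZMod r)ˣ, EE r e (x : ZMod r) * f (x : ZMod r)
      = 2 * ∑ j ∈ Finset.Icc 1 ((r - 1) / 2), (e j : ℂ) * f (j : ZMod r) := by
  unfold EE
  simp only [Finset.sum_mul]
  rw [Finset.sum_comm, Finset.mul_sum]
  apply Finset.sum_congr rfl
  intro j hj
  obtain ⟨u, hu⟩ := unit_of_mem hj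
  have h1 : ∀ x : (ZMod r)ˣ, ((x : ZMod r) = (j : ZMod r)) ↔ x = u := by
    intro x
    rw [← hu]
    exact Units.val_inj
  have h2 : ∀ x : (ZMod r)ˣ, ((x : ZMod r) = -(j : ZMod r)) ↔ x = -u := by
    intro x
    rw [← hu, ← Units.val_neg]
    exact Units.val_inj
  simp only [h1, h2, mul_add, add_mul, Finset.sum_add_distrib, mul_ite, mul_one, mul_zero, ite_mul,
    zero_mul, Finset.sum_ite_eq', Finset.mem_univ, if_true]
  rw [Units.val_neg, hf, hu]
  ring

theorem indep {r : ℕ} [Fact r.Prime] (hr2 : r ≠ 2) (e : ℕ → ℝ)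
    (h : ∀ a : (ZMod r)ˣ, ∑ j ∈ Finset.Icc 1 ((r - 1) / 2), e j * hz r ((a : ZMod r) * (j : ZMod r)) = 0) :
    ∀ j ∈ Finset.Icc 1 ((r - 1) / 2), e j = 0 := by
  have hr : r.Prime := Fact.out
  -- the sums over the units
  have hA : ∀ a : (ZMod r)ˣ, ∑ x : (ZMod r)ˣ, EE r e (x : ZMod r)
      * ((hz r ((a : ZMod r) * (x : ZMod r)) : ℝ) : ℂ) = 0 := by
    intro a
    rw [sum_EE e (fun x => ((hz r ((a : ZMod r) * x) : ℝ) : ℂ)) (by
      intro x
      show ((hz r ((a : ZMod r) * (-x)) : ℝ) : ℂ) = _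
      rw [mul_neg, hz_neg])]
    have := h a
    have h2 : ∑ j ∈ Finset.Icc 1 ((r - 1) / 2), (e j : ℂ)
        * ((hz r ((a : ZMod r) * (j : ZMod r)) : ℝ) : ℂ) = 0 := by
      have := congrArg (fun t : ℝ => (t : ℂ)) this
      push_cast at this
      exact this
    rw [h2, mul_zero]
  -- the transform of `EE` vanishes
  have hT : ∀ χ : DirichletCharacter ℂ r,
      ∑ x : (ZMod r)ˣ, EE r e (x : ZMod r) * χ ((x : ZMod r)⁻¹) = 0 := by
    intro χ
    rcases χ.even_or_odd with hχ | hχ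
    · have h1 : ∑ a : (ZMod r)ˣ, χ (a : ZMod r) * ∑ x : (ZMod r)ˣ, EE r e (x : ZMod r)
          * ((hz r ((a : ZMod r) * (x : ZMod r)) : ℝ) : ℂ) = 0 := by
        simp only [hA, mul_zero, Finset.sum_const_zero]
      have h2 : ∑ a : (ZMod r)ˣ, χ (a : ZMod r) * ∑ x : (ZMod r)ˣ, EE r e (x : ZMod r)
          * ((hz r ((a : ZMod r) * (x : ZMod r)) : ℝ) : ℂ)
          = (∑ x : (ZMod r)ˣ, EE r e (x : ZMod r) * χ ((x : ZMod r)⁻¹))
            * ∑ b : (ZMod r)ˣ, χ (b : ZMod r) * (hz r (b : ZMod r) : ℂ) := by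
        have e1 : ∑ a : (ZMod r)ˣ, χ (a : ZMod r) * ∑ x : (ZMod r)ˣ, EE r e (x : ZMod r)
          * ((hz r ((a : ZMod r) * (x : ZMod r)) : ℝ) : ℂ)
            = ∑ a : (ZMod r)ˣ, ∑ x : (ZMod r)ˣ, χ (a : ZMod r) * (EE r e (x : ZMod r)
          * ((hz r ((a : ZMod r) * (x : ZMod r)) : ℝ) : ℂ)) :=
          Finset.sum_congr rfl fun a _ => Finset.mul_sum _ _ _
        rw [e1, Finset.sum_comm, Finset.sum_mul]
        apply Finset.sum_congr rfl
        intro x _
        rw [Finset.mul_sum]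
        apply Fintype.sum_equiv (Equiv.mulRight x)
        intro a
        show _ = EE r e (x : ZMod r) * χ ((x : ZMod r)⁻¹) * (χ ((a * x : (ZMod r)ˣ) : ZMod r)
          * ((hz r ((a * x : (ZMod r)ˣ) : ZMod r) : ℝ) : ℂ))
        rw [Units.val_mul, map_mul]
        have h3 : χ ((x : ZMod r)⁻¹) * χ (x : ZMod r) = 1 := by
          rw [← map_mul, inv_mul_cancel₀ x.ne_zero, map_one]
        calc χ (a : ZMod r) * (EE r e (x : ZMod r)
            * ((hz r ((a : ZMod r) * (x : ZMod r)) : ℝ) : ℂ))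
            = (χ ((x : ZMod r)⁻¹) * χ (x : ZMod r)) * (χ (a : ZMod r) * (EE r e (x : ZMod r)
            * ((hz r ((a : ZMod r) * (x : ZMod r)) : ℝ) : ℂ))) := by rw [h3, one_mul]
          _ = _ := by ring
      rw [h2] at h1
      exact (mul_eq_zero.1 h1).resolve_right (sum_char_ne_zero' hχ)
    · have h1 : ∑ x : (ZMod r)ˣ, EE r e (x : ZMod r) * χ ((x : ZMod r)⁻¹)
          = - ∑ x : (ZMod r)ˣ, EE r e (x : ZMod r) * χ ((x : ZMod r)⁻¹) := by
        rw [← Finset.sum_neg_distrib]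
        apply Fintype.sum_equiv (Equiv.neg (ZMod r)ˣ)
        intro x
        show _ = -(EE r e ((-x : (ZMod r)ˣ) : ZMod r) * χ (((-x : (ZMod r)ˣ) : ZMod r)⁻¹))
        rw [Units.val_neg, EE_neg, inv_neg, hχ.eval_neg]
        ring
      have h2 : (2 : ℂ) * ∑ x : (ZMod r)ˣ, EE r e (x : ZMod r) * χ ((x : ZMod r)⁻¹) = 0 := by
        linear_combination h1
      exact (mul_eq_zero.1 h2).resolve_left two_ne_zero
  -- inversion
  have hE : ∀ y : (ZMod r)ˣ, EE r e (y : ZMod r) = 0 := by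
    intro y
    have h1 : ∑ χ : DirichletCharacter ℂ r, χ (y : ZMod r)
        * ∑ x : (ZMod r)ˣ, EE r e (x : ZMod r) * χ ((x : ZMod r)⁻¹) = 0 := by
      simp only [hT, mul_zero, Finset.sum_const_zero]
    have h2 : ∑ χ : DirichletCharacter ℂ r, χ (y : ZMod r)
        * ∑ x : (ZMod r)ˣ, EE r e (x : ZMod r) * χ ((x : ZMod r)⁻¹)
        = (r.totient : ℂ) * EE r e (y : ZMod r) := by
      simp only [Finset.mul_sum]
      rw [Finset.sum_comm]
      have h3 : ∀ x : (ZMod r)ˣ, ∑ χ : DirichletCharacter ℂ r, χ (y : ZMod r)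
          * (EE r e (x : ZMod r) * χ ((x : ZMod r)⁻¹))
          = EE r e (x : ZMod r) * (if x = y then (r.totient : ℂ) else 0) := by
        intro x
        have h4 := DirichletCharacter.sum_char_inv_mul_char_eq ℂ (x.isUnit) (y : ZMod r)
        have h5 : ((x : ZMod r) = (y : ZMod r)) ↔ x = y := Units.val_inj
        simp only [h5] at h4
        rw [← h4, Finset.mul_sum]
        apply Finset.sum_congr rfl
        intro χ _
        ring
      rw [Finset.sum_congr rfl (fun x _ => h3 x)]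
      simp only [mul_ite, mul_zero, Finset.sum_ite_eq', Finset.mem_univ, if_true]
      ring
    rw [h2] at h1
    refine (mul_eq_zero.1 h1).resolve_left ?_
    have : 0 < r.totient := Nat.totient_pos.2 hr.pos
    exact_mod_cast this.ne'
  intro j hj
  obtain ⟨u, hu⟩ := unit_of_mem hj
  have h1 := hE u
  rw [hu] at h1
  unfold EE at h1
  rw [Finset.sum_eq_single j] at h1
  · rw [Finset.mem_Icc] at hj
    have hne : (j : ZMod r) ≠ -(j : ZMod r) := by
      intro h2
      have h3 : ((j + j : ℕ) : ZMod r) = 0 := by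
        push_cast
        rw [← sub_neg_eq_add, ← h2, sub_self]
      rw [ZMod.natCast_eq_zero_iff] at h3
      have := Nat.le_of_dvd (by omega) h3
      have := hr.two_le
      omega
    rw [if_pos rfl, if_neg hne, add_zero, mul_one] at h1
    exact_mod_cast h1
  · intro k hk hkj
    rw [Finset.mem_Icc] at hk hj
    have hr3 := hr.two_le
    have hne1 : (j : ZMod r) ≠ (k : ZMod r) := by
      intro h2
      rw [ZMod.natCast_eq_natCast_iff] at h2
      have := Nat.ModEq.eq_of_lt_of_lt h2 (by omega) (by omega)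
      exact hkj this.symm
    have hne : (j : ZMod r) ≠ -(k : ZMod r) := by
      intro h2
      have h3 : ((j + k : ℕ) : ZMod r) = 0 := by
        push_cast
        rw [h2]; ring
      rw [ZMod.natCast_eq_zero_iff] at h3
      have := Nat.le_of_dvd (by omega) h3
      omega
    rw [if_neg hne1, if_neg hne, add_zero, mul_zero]
  · intro hj'
    exact absurd hj hj'

end AKW
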