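import Pool.Agent.AKW.Nrm
import Pool.Agent.AKW.Fou

/-!
# AKW, module Dist: congruent products are far apart (helper19)

PROOFS.
* `CS_ne`: if `aeval (zt r) (CS r S) = aeval (zt r) (CS r S')` then by `aeval_conj` the same at all the `zt r ^ a`, so
  `xs r S a = xs r S' a` for all `a` (`log_norm_CS`), and `indep` with `e = 1_S - 1_{S'}` gives `S = S'`.
* `far`: let `s = min S.card S'.card`.  `X - 1` divides every `Lam r j`, so `CS r S - CS r S' = (X - 1) ^ s * P` with `P : ℤ[X]`.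
  `P` vanishes at the `z ^ a` (`z ^ a ≠ 1`) and `aeval (zt r) P ≠ 0` (`CS_ne`).  By `nrm_ge`, with `ζ = zt r`:
  `(r - 1) log p ≤ ∑_a log ‖P (ζ ^ a)‖ = ∑_a log ‖(CS r S - CS r S') (ζ ^ a)‖ - s ∑_a log ‖ζ ^ a - 1‖`, the last sum is `log r`
  (`log_norm_sub_one`, `sum_hz`), and `‖(CS r S - CS r S') (ζ ^ a)‖ ≤ 2 max (exp (x a), exp (x' a))`, `x = xs r S`,
  `x' = xs r S'`.  So `(r - 1) log p ≤ (r - 1) log 2 + ∑_a max (x a) (x' a) - s log r`,
  `max (x, x') = (x + x') / 2 + |x - x'| / 2`, `∑_a x a = S.card log r` (`sum_xs`), and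
  `(S.card + S'.card) / 2 - s = |S.card - S'.card| / 2`.  (`Fintype.card (ZMod r)ˣ = r - 1`.)
-/

open Polynomial

namespace AKW

private theorem sum_ind {D S : Finset ℕ} (hS : S ⊆ D) (f : ℕ → ℝ) :
    ∑ j ∈ D, (if j ∈ S then (1 : ℝ) else 0) * f j = ∑ j ∈ S, f j := by
  have h1 : ∀ j ∈ D, (if j ∈ S then (1 : ℝ) else 0) * f j = if j ∈ S then f j else 0 := by
    intro j _
    split_ifs <;> simp
  rw [Finset.sum_congr rfl h1, Finset.sum_ite_mem, Finset.inter_eq_right.2 hS]

theorem CS_ne {r : ℕ} [Fact r.Prime] (hr2 : r ≠ 2) {S S' : Finset ℕ}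
    (hS : S ⊆ Finset.Icc 1 ((r - 1) / 2)) (hS' : S' ⊆ Finset.Icc 1 ((r - 1) / 2)) (hne : S ≠ S') :
    aeval (zt r) (CS r S) ≠ aeval (zt r) (CS r S') := by
  intro heq
  apply hne
  have hx : ∀ a : (ZMod r)ˣ, xs r S (a : ZMod r) = xs r S' (a : ZMod r) := by
    intro a
    rw [← (log_norm_CS hS a).2, ← (log_norm_CS hS' a).2, aeval_conj zt_prim heq a]
  have h0 := indep hr2 (fun j => (if j ∈ S then (1 : ℝ) else 0) - (if j ∈ S' then (1 : ℝ) else 0)) (by
    intro a
    have h1 := sum_ind hS (fun j => hz r ((a : ZMod r) * (j : ZMod r)))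
    have h2 := sum_ind hS' (fun j => hz r ((a : ZMod r) * (j : ZMod r)))
    have h3 := hx a
    unfold xs at h3
    simp only [sub_mul]
    rw [Finset.sum_sub_distrib, h1, h2, h3, sub_self])
  ext j
  constructor
  · intro hj
    by_contra hj'
    have := h0 j (hS hj)
    simp [hj, hj'] at this
  · intro hj
    by_contra hj'
    have := h0 j (hS' hj)
    simp [hj, hj'] at this

private theorem dvd_CS (r : ℕ) (S : Finset ℕ) : (X - 1 : ℤ[X]) ^ S.card ∣ CS r S := by
  unfold CS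
  rw [← Finset.prod_const]
  refine Finset.prod_dvd_prod_of_dvd _ _ fun j _ => ?_
  unfold Lam
  have h := sub_dvd_pow_sub_pow (X : ℤ[X]) 1 j
  rw [one_pow] at h
  exact Dvd.dvd.mul_left h _

theorem far {r p : ℕ} [Fact r.Prime] [Fact p.Prime] (hr2 : r ≠ 2) {F : Type} [Field F] [CharP F p]
    {z : F} (hz : IsPrimitiveRoot z r) {S S' : Finset ℕ}
    (hS : S ⊆ Finset.Icc 1 ((r - 1) / 2)) (hS' : S' ⊆ Finset.Icc 1 ((r - 1) / 2)) (hne : S ≠ S')
    (heq : ∀ a : (ZMod r)ˣ,
      aeval (z ^ (a : ZMod r).val) (CS r S) = aeval (z ^ (a : ZMod r).val) (CS r S')) :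
    ((r : ℝ) - 1) * Real.log (p / 2) ≤ |(S.card : ℝ) - S'.card| / 2 * Real.log r +
      (∑ a : (ZMod r)ˣ, |xs r S (a : ZMod r) - xs r S' (a : ZMod r)|) / 2 := by
  have hr := (Fact.out : r.Prime)
  have hp := (Fact.out : p.Prime)
  have hdvd : (X - 1 : ℤ[X]) ^ (min S.card S'.card) ∣ CS r S - CS r S' :=
    dvd_sub (dvd_trans (pow_dvd_pow _ (min_le_left _ _)) (dvd_CS r S))
      (dvd_trans (pow_dvd_pow _ (min_le_right _ _)) (dvd_CS r S'))
  obtain ⟨P, hP⟩ := hdvd
  have hev : ∀ {R : Type} [CommRing R] (y : R), aeval y (CS r S) - aeval y (CS r S') =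
      (y - 1) ^ (min S.card S'.card) * aeval y P := by
    intro R _ y
    have := congrArg (aeval y) hP
    simpa using this
  have hone : ∀ {R : Type} [CommRing R] [IsDomain R] {w : R} (hw : IsPrimitiveRoot w r) (a : (ZMod r)ˣ),
      w ^ (a : ZMod r).val - 1 ≠ 0 := by
    intro R _ _ w hw a h
    have h1 : IsPrimitiveRoot (w ^ (a : ZMod r).val) r := hw.pow_of_coprime _ (ZMod.val_coe_unit_coprime a)
    exact h1.ne_one hr.one_lt (sub_eq_zero.1 h)
  have hPz : ∀ a : (ZMod r)ˣ, aeval (z ^ (a : ZMod r).val) P = 0 := by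
    intro a
    have h1 := hev (z ^ (a : ZMod r).val)
    rw [heq a, sub_self] at h1
    rcases mul_eq_zero.1 h1.symm with h2 | h2
    · exact absurd h2 (pow_ne_zero _ (hone hz a))
    · exact h2
  have hPne : aeval (zt r) P ≠ 0 := by
    intro h
    have h1 := hev (zt r)
    rw [h, mul_zero] at h1
    exact CS_ne hr2 hS hS' hne (sub_eq_zero.1 h1)
  have hnrm := nrm_ge hz hPz zt_prim hPne
  have hPa : ∀ a : (ZMod r)ˣ, aeval (zt r ^ (a : ZMod r).val) P ≠ 0 := by
    intro a
    have h1 : aeval (zt r) P ≠ aeval (zt r) (0 : ℤ[X]) := by rwa [map_zero]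
    have h2 := aeval_conj_ne zt_prim h1 a
    rwa [map_zero] at h2
  have hlogP : ((r : ℝ) - 1) * Real.log p ≤
      ∑ a : (ZMod r)ˣ, Real.log ‖aeval (zt r ^ (a : ZMod r).val) P‖ := by
    have hp0 : (0 : ℝ) < p := by exact_mod_cast hp.pos
    have h1 := Real.log_le_log (by positivity) hnrm
    rw [Real.log_pow, Real.log_prod (fun a _ => norm_ne_zero_iff.2 (hPa a)), Nat.cast_sub hr.one_le,
      Nat.cast_one] at h1
    exact h1
  have hterm : ∀ a : (ZMod r)ˣ, Real.log ‖aeval (zt r ^ (a : ZMod r).val) P‖ ≤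
      Real.log 2 + ((xs r S (a : ZMod r) + xs r S' (a : ZMod r)) / 2 +
        |xs r S (a : ZMod r) - xs r S' (a : ZMod r)| / 2) -
        (min S.card S'.card : ℕ) * AKW.hz r (a : ZMod r) := by
    intro a
    obtain ⟨hc1, hc2⟩ := log_norm_CS hS a
    obtain ⟨hc1', hc2'⟩ := log_norm_CS hS' a
    have h1 := hev (zt r ^ (a : ZMod r).val)
    have hy : zt r ^ (a : ZMod r).val - 1 ≠ 0 := hone zt_prim a
    have h2 : Real.log ‖aeval (zt r ^ (a : ZMod r).val) (CS r S) -
        aeval (zt r ^ (a : ZMod r).val) (CS r S')‖ =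
        (min S.card S'.card : ℕ) * AKW.hz r (a : ZMod r) +
          Real.log ‖aeval (zt r ^ (a : ZMod r).val) P‖ := by
      rw [h1, norm_mul, norm_pow, Real.log_mul (pow_ne_zero _ (norm_ne_zero_iff.2 hy))
        (norm_ne_zero_iff.2 (hPa a)), Real.log_pow, log_norm_sub_one]
    have hD : aeval (zt r ^ (a : ZMod r).val) (CS r S) -
        aeval (zt r ^ (a : ZMod r).val) (CS r S') ≠ 0 := by
      rw [h1]
      exact mul_ne_zero (pow_ne_zero _ hy) (hPa a)
    have h3 : ‖aeval (zt r ^ (a : ZMod r).val) (CS r S) -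
        aeval (zt r ^ (a : ZMod r).val) (CS r S')‖ ≤
        2 * Real.exp (max (xs r S (a : ZMod r)) (xs r S' (a : ZMod r))) := by
      have e1 : ‖aeval (zt r ^ (a : ZMod r).val) (CS r S)‖ ≤
          Real.exp (max (xs r S (a : ZMod r)) (xs r S' (a : ZMod r))) := by
        rw [← Real.exp_log (norm_pos_iff.2 hc1), hc2]
        exact Real.exp_le_exp.2 (le_max_left _ _)
      have e2 : ‖aeval (zt r ^ (a : ZMod r).val) (CS r S')‖ ≤
          Real.exp (max (xs r S (a : ZMod r)) (xs r S' (a : ZMod r))) := by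
        rw [← Real.exp_log (norm_pos_iff.2 hc1'), hc2']
        exact Real.exp_le_exp.2 (le_max_right _ _)
      have e3 := norm_sub_le (aeval (zt r ^ (a : ZMod r).val) (CS r S))
        (aeval (zt r ^ (a : ZMod r).val) (CS r S'))
      linarith
    have h4 := Real.log_le_log (norm_pos_iff.2 hD) h3
    rw [Real.log_mul (by norm_num) (Real.exp_pos _).ne', Real.log_exp, h2] at h4
    have h5 : max (xs r S (a : ZMod r)) (xs r S' (a : ZMod r)) =
        (xs r S (a : ZMod r) + xs r S' (a : ZMod r)) / 2 +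
        |xs r S (a : ZMod r) - xs r S' (a : ZMod r)| / 2 := by
      rcases le_total (xs r S (a : ZMod r)) (xs r S' (a : ZMod r)) with h | h
      · rw [max_eq_right h, abs_of_nonpos (by linarith)]
        ring
      · rw [max_eq_left h, abs_of_nonneg (by linarith)]
        ring
    rw [h5] at h4
    linarith
  have hsum := le_trans hlogP (Finset.sum_le_sum fun a _ => hterm a)
  rw [Finset.sum_sub_distrib, Finset.sum_add_distrib, Finset.sum_const, Finset.card_univ, ZMod.card_units,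
    nsmul_eq_mul, Finset.sum_add_distrib, ← Finset.sum_div, Finset.sum_add_distrib, sum_xs hS, sum_xs hS',
    ← Finset.sum_div, ← Finset.mul_sum, sum_hz, Nat.cast_sub hr.one_le, Nat.cast_one] at hsum
  have hp0 : (p : ℝ) ≠ 0 := by exact_mod_cast hp.ne_zero
  rw [Real.log_div hp0 (by norm_num)]
  have hmin : |(S.card : ℝ) - S'.card| / 2 = ((S.card : ℝ) + S'.card) / 2 - (min S.card S'.card : ℕ) := by
    rw [Nat.cast_min]
    rcases le_total (S.card : ℝ) (S'.card : ℝ) with h | h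
    · rw [min_eq_left h, abs_of_nonpos (by linarith)]
      ring
    · rw [min_eq_right h, abs_of_nonneg (by linarith)]
      ring
  rw [hmin]
  linarith

end AKW
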