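import Pool.Agent.AKW.Hex

/-!
# AKW, module Lat: two small introspective numbers which agree up to sign modulo `r` (helper19)

PROOF.  Let `μ, π : (ZMod r)ˣ` be the units of `m` and `p`, `H` the closure of `{-1, μ, π}`, `i = H.index`.  Let `Λ` be the additive
subgroup of the `(a, b) : ℤ × ℤ` with `μ ^ a * π ^ b ∈ {1, -1}`.  Its index is `(r - 1) / (2 i)`: the homomorphism
`ℤ × ℤ → H / {±1}` is surjective with kernel `Λ`, `-1 ≠ 1` as `r` is odd, `card H * i = r - 1`.  `hexagon` with `α = log m`,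
`β = log p` gives `(a, b) ∈ Λ`, not `0`.  Put `a = a₁ - a₂`, `b = b₁ - b₂` with `a₁ a₂ = 0`, `b₁ b₂ = 0` (`Int.toNat`), and
`u = m ^ a₁ * p ^ b₁`, `v = m ^ a₂ * p ^ b₂`.  `u ≡ ± v` modulo `r`.  `u ≤ exp N`, `v ≤ exp N`: if `a, b ≥ 0` then
`log u = a α + b β ≤ N`, `v = 1`; if `a ≥ 0 > b` then `log u = a α ≤ N`, `log v = |b| β ≤ N`; and symmetrically.
`u ≠ v`: if `a = 0` then `p ^ |b| = 1` gives `b = 0`; if `a > 0` then `u = v` gives `m ^ a ∣ p ^ b₂`, so `m` is a power of `p`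
(`Nat.dvd_prime_pow`), excluded; same for `a < 0`.
-/

namespace AKW

/-- the subgroup of the exponents of the relations up to sign and its index -/
theorem exists_lattice {r : ℕ} [Fact r.Prime] (hr2 : r ≠ 2) (μ π : (ZMod r)ˣ) {i : ℕ}
    (hi : i = (Subgroup.closure ({-1, μ, π} : Set (ZMod r)ˣ)).index) :
    ∃ Λ : AddSubgroup (ℤ × ℤ), Λ.index * (2 * i) = r - 1 ∧
      ∀ x ∈ Λ, μ ^ x.1 * π ^ x.2 = 1 ∨ μ ^ x.1 * π ^ x.2 = -1 := by
  have hr : r.Prime := Fact.out
  let A := Additive (ZMod r)ˣ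
  let ψ : ℤ × ℤ →+ A :=
    (zmultiplesHom A (Additive.ofMul μ)).comp (AddMonoidHom.fst ℤ ℤ)
      + (zmultiplesHom A (Additive.ofMul π)).comp (AddMonoidHom.snd ℤ ℤ)
  have hψ : ∀ x : ℤ × ℤ, ψ x = x.1 • (Additive.ofMul μ : A) + x.2 • (Additive.ofMul π : A) :=
    fun x => rfl
  let K : AddSubgroup A := AddSubgroup.zmultiples (Additive.ofMul (-1 : (ZMod r)ˣ))
  let H : AddSubgroup A := Subgroup.toAddSubgroup (Subgroup.closure ({-1, μ, π} : Set (ZMod r)ˣ))
  have hHcl : H = AddSubgroup.closure (Additive.toMul ⁻¹' ({-1, μ, π} : Set (ZMod r)ˣ)) :=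
    Subgroup.toAddSubgroup_closure _
  have hKH : K ≤ H := by
    rw [AddSubgroup.zmultiples_le]
    show (-1 : (ZMod r)ˣ) ∈ Subgroup.closure ({-1, μ, π} : Set (ZMod r)ˣ)
    exact Subgroup.subset_closure (by simp)
  have hμ : (Additive.ofMul μ : A) ∈ H := by
    show μ ∈ Subgroup.closure ({-1, μ, π} : Set (ZMod r)ˣ)
    exact Subgroup.subset_closure (by simp)
  have hπ : (Additive.ofMul π : A) ∈ H := by
    show π ∈ Subgroup.closure ({-1, μ, π} : Set (ZMod r)ˣ)
    exact Subgroup.subset_closure (by simp)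
  have hH : ψ.range ⊔ K = H := by
    apply le_antisymm
    · refine sup_le ?_ hKH
      rintro _ ⟨x, rfl⟩
      rw [hψ]
      exact H.add_mem (H.zsmul_mem hμ _) (H.zsmul_mem hπ _)
    · rw [hHcl, AddSubgroup.closure_le]
      intro y hy
      have hy' : Additive.toMul y = -1 ∨ Additive.toMul y = μ ∨ Additive.toMul y = π := by
        simpa using hy
      rcases hy' with h | h | h
      · apply AddSubgroup.mem_sup_right
        have : y = Additive.ofMul (-1 : (ZMod r)ˣ) := by rw [← h]; rfl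
        rw [this]
        exact AddSubgroup.mem_zmultiples _
      · apply AddSubgroup.mem_sup_left
        refine ⟨(1, 0), ?_⟩
        rw [hψ]
        simp only [one_smul, zero_smul, add_zero]
        rw [← h]; rfl
      · apply AddSubgroup.mem_sup_left
        refine ⟨(0, 1), ?_⟩
        rw [hψ]
        simp only [one_smul, zero_smul, zero_add]
        rw [← h]; rfl
  have hne : (-1 : (ZMod r)ˣ) ≠ 1 := by
    intro h
    have h1 : (-1 : ZMod r) = 1 := by
      have := congrArg (fun u : (ZMod r)ˣ => (u : ZMod r)) h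
      simpa using this
    have : Fact (2 < r) := ⟨by have := hr.two_le; omega⟩
    exact ZMod.neg_one_ne_one (n := r) h1
  have hcard : Nat.card K = 2 := by
    rw [Nat.card_zmultiples]
    show addOrderOf (Additive.ofMul (-1 : (ZMod r)ˣ)) = 2
    rw [addOrderOf_ofMul_eq_orderOf]
    exact orderOf_eq_prime (by simp) hne
  have hcardG : Nat.card A = r - 1 := by
    show Nat.card (ZMod r)ˣ = r - 1
    rw [Nat.card_eq_fintype_card, ZMod.card_units]
  refine ⟨K.comap ψ, ?_, ?_⟩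
  · rw [AddSubgroup.index_comap, ← AddSubgroup.relIndex_sup_right (H := ψ.range) (K := K), hH]
    have h1 := AddSubgroup.relIndex_mul_index hKH
    have h2 := K.index_mul_card
    have h3 : H.index = i := by
      rw [hi]
      exact Subgroup.index_toAddSubgroup
    rw [hcard, hcardG] at h2
    rw [h3] at h1
    rw [← h2, ← h1]
    ring
  · intro x hx
    have hx' : ψ x ∈ K := hx
    rw [AddSubgroup.mem_zmultiples_iff] at hx'
    obtain ⟨k, hk⟩ := hx'
    rw [hψ] at hk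
    have hk' : (-1 : (ZMod r)ˣ) ^ k = μ ^ x.1 * π ^ x.2 := hk
    rcases Int.even_or_odd k with he | ho
    · left
      rw [← hk', he.neg_one_zpow]
    · right
      rw [← hk', ho.neg_one_zpow]

/-- positive and negative parts of the exponents -/
theorem parts_eq {R : Type*} [CommRing R] (μ π ε : Rˣ) (a b : ℤ)
    (h : μ ^ a * π ^ b = ε) :
    μ ^ a.toNat * π ^ b.toNat = ε * (μ ^ (-a).toNat * π ^ (-b).toNat) := by
  have ha : μ ^ a = μ ^ a.toNat * (μ ^ (-a).toNat)⁻¹ := by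
    rw [← zpow_natCast, ← zpow_natCast, ← zpow_neg, ← zpow_add]
    congr 1
    omega
  have hb : π ^ b = π ^ b.toNat * (π ^ (-b).toNat)⁻¹ := by
    rw [← zpow_natCast, ← zpow_natCast, ← zpow_neg, ← zpow_add]
    congr 1
    omega
  rw [ha, hb] at h
  rw [← h]
  have e1 : μ ^ a.toNat * (μ ^ (-a).toNat)⁻¹ * (π ^ b.toNat * (π ^ (-b).toNat)⁻¹)
      * (μ ^ (-a).toNat * π ^ (-b).toNat)
      = μ ^ a.toNat * π ^ b.toNat * ((μ ^ (-a).toNat)⁻¹ * μ ^ (-a).toNat)
        * ((π ^ (-b).toNat)⁻¹ * π ^ (-b).toNat) := by ac_rfl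
  rw [e1, inv_mul_cancel, inv_mul_cancel, mul_one, mul_one]

/-- bound of the positive part -/
theorem pos_part_le {α β N : ℝ} (hN : 0 ≤ N) (a b : ℤ)
    (h1 : |(a : ℝ) * α| ≤ N) (h2 : |(b : ℝ) * β| ≤ N) (h3 : |(a : ℝ) * α + (b : ℝ) * β| ≤ N) :
    (a.toNat : ℝ) * α + (b.toNat : ℝ) * β ≤ N := by
  have h1' := (abs_le.1 h1).2
  have h2' := (abs_le.1 h2).2
  have h3' := (abs_le.1 h3).2
  have e : ∀ c : ℤ, 0 ≤ c → ((c.toNat : ℕ) : ℝ) = (c : ℝ) := by
    intro c hc
    have : ((c.toNat : ℤ) : ℝ) = (c : ℝ) := by rw [Int.toNat_of_nonneg hc]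
    rw [← this]
    norm_cast
  have e' : ∀ c : ℤ, c ≤ 0 → ((c.toNat : ℕ) : ℝ) = 0 := by
    intro c hc
    rw [Int.toNat_of_nonpos hc]
    simp
  rcases le_total 0 a with ha | ha <;> rcases le_total 0 b with hb | hb
  · rw [e a ha, e b hb]; exact h3'
  · rw [e a ha, e' b hb]; linarith
  · rw [e' a ha, e b hb]; linarith
  · rw [e' a ha, e' b hb]; linarith

/-- the two numbers are different -/
theorem parts_ne {m p : ℕ} (hp : p.Prime) (hmp : ∀ j, m ≠ p ^ j) (a b : ℤ)
    (h : m ^ a.toNat * p ^ b.toNat = m ^ (-a).toNat * p ^ (-b).toNat) : a = 0 ∧ b = 0 := by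
  have key : ∀ k l l' : ℕ, 0 < k → m ^ k * p ^ l ≠ p ^ l' := by
    intro k l l' hk he
    have h1 : m ∣ p ^ l' := by
      rw [← he]
      exact dvd_mul_of_dvd_left (dvd_pow_self m hk.ne') _
    obtain ⟨j, _, hj⟩ := (Nat.dvd_prime_pow hp).1 h1
    exact hmp j hj
  rcases lt_trichotomy a 0 with ha | ha | ha
  · exfalso
    have e : a.toNat = 0 := by omega
    rw [e, pow_zero, one_mul] at h
    exact key (-a).toNat (-b).toNat b.toNat (by omega) h.symm
  · refine ⟨ha, ?_⟩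
    rw [ha] at h
    simp only [neg_zero, Int.toNat_zero, pow_zero, one_mul] at h
    have := Nat.pow_right_injective hp.two_le h
    omega
  · exfalso
    have e : (-a).toNat = 0 := by omega
    rw [e, pow_zero, one_mul] at h
    exact key a.toNat b.toNat (-b).toNat (by omega) h

theorem exists_uv {r m p : ℕ} [Fact r.Prime] (hr2 : r ≠ 2) (hp : p.Prime) (hm : 2 ≤ m)
    (hmp : ∀ j, m ≠ p ^ j) (hmr : m.Coprime r) (hpr : p.Coprime r) {i : ℕ}
    (hi : i = (Subgroup.closure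
      {-1, ZMod.unitOfCoprime m hmr, ZMod.unitOfCoprime p hpr}).index)
    {N : ℝ} (hN : 0 ≤ N)
    (h : 4 * (((r : ℝ) - 1) / (2 * i)) * Real.log m * Real.log p < 3 * N ^ 2) :
    ∃ a b a' b' : ℕ, m ^ a' * p ^ b' < m ^ a * p ^ b ∧
      (((m ^ a * p ^ b : ℕ) : ZMod r) = ((m ^ a' * p ^ b' : ℕ) : ZMod r) ∨
        ((m ^ a * p ^ b : ℕ) : ZMod r) = -((m ^ a' * p ^ b' : ℕ) : ZMod r)) ∧
      ((m ^ a * p ^ b : ℕ) : ℝ) ≤ Real.exp N := by
  have hr : r.Prime := Fact.out
  obtain ⟨Λ, hΛ, hmem⟩ := exists_lattice hr2 (ZMod.unitOfCoprime m hmr)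
    (ZMod.unitOfCoprime p hpr) hi
  have hr1 : 0 < r - 1 := by have := hr.two_le; omega
  have hidx : Λ.index ≠ 0 := by
    intro h0
    rw [h0, zero_mul] at hΛ
    omega
  have hi0 : i ≠ 0 := by
    intro h0
    rw [h0] at hΛ
    simp only [mul_zero] at hΛ
    omega
  have hcast : (Λ.index : ℝ) = ((r : ℝ) - 1) / (2 * i) := by
    have h1 : ((Λ.index * (2 * i) : ℕ) : ℝ) = ((r - 1 : ℕ) : ℝ) := by rw [hΛ]
    rw [Nat.cast_sub hr.one_lt.le] at h1
    push_cast at h1
    have hi' : (2 * (i : ℝ)) ≠ 0 := by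
      have : (i : ℝ) ≠ 0 := by exact_mod_cast hi0
      positivity
    rw [eq_div_iff hi']
    exact h1
  have hα : 0 < Real.log m := Real.log_pos (by exact_mod_cast hm)
  have hβ : 0 < Real.log p := Real.log_pos (by exact_mod_cast hp.one_lt)
  obtain ⟨x, hxΛ, hx0, h1, h2, h3⟩ := hexagon Λ hidx hα hβ hN (by rw [hcast]; exact h)
  set a := x.1 with ha
  set b := x.2 with hb
  have hmpos : 0 < m := by omega
  have hppos : 0 < p := hp.pos
  have hlog : ∀ k l : ℕ, (k : ℝ) * Real.log m + (l : ℝ) * Real.log p ≤ N →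
      ((m ^ k * p ^ l : ℕ) : ℝ) ≤ Real.exp N := by
    intro k l hkl
    rw [← Real.log_le_iff_le_exp (by positivity)]
    push_cast
    rw [Real.log_mul (by positivity) (by positivity), Real.log_pow, Real.log_pow]
    exact hkl
  have hu := hlog _ _ (pos_part_le hN a b h1 h2 h3)
  have hv := hlog _ _ (pos_part_le (α := Real.log m) (β := Real.log p) hN (-a) (-b)
    (by push_cast; rw [neg_mul, abs_neg]; exact h1)
    (by push_cast; rw [neg_mul, abs_neg]; exact h2)
    (by push_cast; rw [neg_mul, neg_mul, ← neg_add, abs_neg]; exact h3))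
  have hne : m ^ a.toNat * p ^ b.toNat ≠ m ^ (-a).toNat * p ^ (-b).toNat := by
    intro he
    obtain ⟨h4, h5⟩ := parts_ne hp hmp a b he
    exact hx0 (Prod.ext h4 h5)
  have hcongr : (((m ^ a.toNat * p ^ b.toNat : ℕ) : ZMod r)
      = ((m ^ (-a).toNat * p ^ (-b).toNat : ℕ) : ZMod r)) ∨
      (((m ^ a.toNat * p ^ b.toNat : ℕ) : ZMod r)
        = -((m ^ (-a).toNat * p ^ (-b).toNat : ℕ) : ZMod r)) := by
    rcases hmem x hxΛ with he | he
    · left
      have h4 := parts_eq _ _ _ a b he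
      have h5 := congrArg (fun u : (ZMod r)ˣ => (u : ZMod r)) h4
      simpa using h5
    · right
      have h4 := parts_eq _ _ _ a b he
      have h5 := congrArg (fun u : (ZMod r)ˣ => (u : ZMod r)) h4
      simpa using h5
  rcases lt_or_gt_of_ne hne with hlt | hlt
  · refine ⟨(-a).toNat, (-b).toNat, a.toNat, b.toNat, hlt, ?_, hv⟩
    rcases hcongr with he | he
    · left; exact he.symm
    · right; rw [he, neg_neg]
  · exact ⟨a.toNat, b.toNat, (-a).toNat, (-b).toNat, hlt, hcongr, hu⟩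

end AKW
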