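import Pool.Agent.AKW.Sin

/-!
# AKW, module Sel: most products have small height (helper19)

PROOFS.
* `second_moment`: expand the square, or induction on `J` (adding `j`: the sum over `S ⊆ insert j J` is
  `∑_{S ⊆ J} ((D S + h j / 2) ^ 2 + (D S - h j / 2) ^ 2)`, `D S = ∑_{i ∈ S} h i - (∑_{i ∈ J} h i) / 2`; `Finset.sum_powerset_insert`).
* `sel`: `J = Icc 1 k`.  For `S ⊆ J` let `y S a = xs r S a - (∑_{j ∈ J} hz (a j)) / 2`, `w S = S.card - k / 2`,
  `T S = |w S| log r + ∑_a |y S a|`.  Cauchy-Schwarz (`r` terms): `T S ^ 2 ≤ r (w S ^ 2 log r ^ 2 + ∑_a y S a ^ 2)`.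
  By `second_moment` (with `h = 1` and `h j = hz (a j)`) and `sum_hz_sq_mul`:
  `∑_{S ⊆ J} T S ^ 2 ≤ r 2 ^ k / 4 (k log r ^ 2 + k S1 r)`.  Let `G` be the set of the `S` with `T S < (r - 1) L`; the others have
  `T S ^ 2 ≥ (r - 1) ^ 2 L ^ 2`, so their number is at most `(1 - η) 2 ^ k`, and `G.card ≥ η 2 ^ k`.  For `S, S' ∈ G`:
  `|S.card - S'.card| ≤ |w S| + |w S'|`, `|xs r S a - xs r S' a| ≤ |y S a| + |y S' a|`, so the sum is at most
  `(T S + T S') / 2 < (r - 1) L`.
-/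

namespace AKW

theorem second_moment (J : Finset ℕ) (h : ℕ → ℝ) :
    ∑ S ∈ J.powerset, (∑ j ∈ S, h j - (∑ j ∈ J, h j) / 2) ^ 2 =
      2 ^ J.card / 4 * ∑ j ∈ J, h j ^ 2 := by
  classical
  induction J using Finset.induction_on with
  | empty => simp
  | insert j J hj ih =>
    rw [Finset.sum_powerset_insert hj, ← Finset.sum_add_distrib, Finset.card_insert_of_notMem hj,
      Finset.sum_insert hj, Finset.sum_insert hj]
    have h1 : ∀ t ∈ J.powerset, (∑ i ∈ t, h i - (h j + ∑ i ∈ J, h i) / 2) ^ 2 +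
        (∑ i ∈ insert j t, h i - (h j + ∑ i ∈ J, h i) / 2) ^ 2 =
        2 * (∑ i ∈ t, h i - (∑ i ∈ J, h i) / 2) ^ 2 + h j ^ 2 / 2 := by
      intro t ht
      have h2 : j ∉ t := fun h3 => hj (Finset.mem_powerset.mp ht h3)
      rw [Finset.sum_insert h2]
      ring
    rw [Finset.sum_congr rfl h1, Finset.sum_add_distrib, ← Finset.mul_sum, ih, Finset.sum_const,
      Finset.card_powerset, nsmul_eq_mul]
    push_cast
    ring

theorem sel {r : ℕ} [Fact r.Prime] {k : ℕ} (hk : k ≤ (r - 1) / 2) {η L : ℝ} (hL : 0 < L)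
    (h : (r : ℝ) * k * (S1 r + Real.log r ^ 2) ≤ 4 * (1 - η) * ((r : ℝ) - 1) ^ 2 * L ^ 2) :
    ∃ G : Finset (Finset ℕ), (∀ S ∈ G, S ⊆ Finset.Icc 1 k) ∧ η * 2 ^ k ≤ (G.card : ℝ) ∧
      ∀ S ∈ G, ∀ S' ∈ G, |(S.card : ℝ) - S'.card| / 2 * Real.log r +
        (∑ a : (ZMod r)ˣ, |xs r S (a : ZMod r) - xs r S' (a : ZMod r)|) / 2 < ((r : ℝ) - 1) * L := by
  classical
  have hr : r.Prime := Fact.out
  have hr1 : (1 : ℝ) < r := by exact_mod_cast hr.one_lt
  have hlog : 0 ≤ Real.log r := Real.log_nonneg hr1.le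
  set J := Finset.Icc 1 k with hJ
  have hJc : J.card = k := by rw [hJ, Nat.card_Icc]; omega
  set w : Finset ℕ → ℝ := fun S => ∑ j ∈ S, (1 : ℝ) - (∑ j ∈ J, (1 : ℝ)) / 2 with hw
  set y : Finset ℕ → (ZMod r)ˣ → ℝ := fun S a => ∑ j ∈ S, hz r ((a : ZMod r) * (j : ZMod r)) -
    (∑ j ∈ J, hz r ((a : ZMod r) * (j : ZMod r))) / 2 with hy
  set T : Finset ℕ → ℝ := fun S => |w S| * Real.log r + ∑ a, |y S a| with hT
  have hT0 : ∀ S, 0 ≤ T S := by
    intro S
    have : 0 ≤ ∑ a, |y S a| := Finset.sum_nonneg (fun a _ => abs_nonneg _)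
    have h2 : 0 ≤ |w S| * Real.log r := mul_nonneg (abs_nonneg _) hlog
    simp only [hT]
    linarith
  -- Cauchy-Schwarz
  have hCS : ∀ S, T S ^ 2 ≤ r * (w S ^ 2 * Real.log r ^ 2 + ∑ a, y S a ^ 2) := by
    intro S
    have h1 := sq_sum_le_card_mul_sum_sq (s := (Finset.univ : Finset (Option (ZMod r)ˣ)))
      (f := fun o => o.elim (|w S| * Real.log r) (fun a => |y S a|))
    rw [Fintype.sum_option, Fintype.sum_option, Finset.card_univ, Fintype.card_option,
      ZMod.card_units] at h1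
    have h2 : r - 1 + 1 = r := Nat.sub_add_cancel hr.one_lt.le
    rw [h2] at h1
    simp only [Option.elim_none, Option.elim_some, mul_pow, sq_abs] at h1
    exact h1
  have hkey : ∑ S ∈ J.powerset, T S ^ 2 ≤ 2 ^ k * (1 - η) * (((r : ℝ) - 1) * L) ^ 2 := by
    calc ∑ S ∈ J.powerset, T S ^ 2
        ≤ ∑ S ∈ J.powerset, r * (w S ^ 2 * Real.log r ^ 2 + ∑ a, y S a ^ 2) :=
          Finset.sum_le_sum (fun S _ => hCS S)
      _ = r * ((∑ S ∈ J.powerset, w S ^ 2) * Real.log r ^ 2 +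
          ∑ a : (ZMod r)ˣ, ∑ S ∈ J.powerset, y S a ^ 2) := by
          rw [← Finset.mul_sum, Finset.sum_add_distrib, Finset.sum_mul, Finset.sum_comm]
      _ = r * ((2 ^ k / 4 * k) * Real.log r ^ 2 + 2 ^ k / 4 * (k * S1 r)) := by
          congr 2
          · simp only [hw]
            rw [second_moment J (fun _ => (1 : ℝ)), hJc]
            simp [hJc]
          · have h1 : ∀ a : (ZMod r)ˣ, ∑ S ∈ J.powerset, y S a ^ 2 =
                2 ^ k / 4 * ∑ j ∈ J, hz r ((a : ZMod r) * (j : ZMod r)) ^ 2 := by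
              intro a
              simp only [hy]
              rw [second_moment J (fun j => hz r ((a : ZMod r) * (j : ZMod r))), hJc]
            rw [Finset.sum_congr rfl (fun a _ => h1 a), ← Finset.mul_sum, Finset.sum_comm]
            congr 1
            have h2 : ∀ j ∈ J, ∑ a : (ZMod r)ˣ, hz r ((a : ZMod r) * (j : ZMod r)) ^ 2 = S1 r := by
              intro j hj
              rw [hJ, Finset.mem_Icc] at hj
              exact sum_hz_sq_mul (Finset.mem_Icc.mpr ⟨hj.1, hj.2.trans hk⟩)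
            rw [Finset.sum_congr rfl h2, Finset.sum_const, nsmul_eq_mul, hJc]
      _ = 2 ^ k / 4 * ((r : ℝ) * k * (S1 r + Real.log r ^ 2)) := by ring
      _ ≤ 2 ^ k / 4 * (4 * (1 - η) * ((r : ℝ) - 1) ^ 2 * L ^ 2) :=
          mul_le_mul_of_nonneg_left h (by positivity)
      _ = 2 ^ k * (1 - η) * (((r : ℝ) - 1) * L) ^ 2 := by ring
  have hM : 0 < ((r : ℝ) - 1) * L := mul_pos (by linarith) hL
  refine ⟨J.powerset.filter (fun S => T S < ((r : ℝ) - 1) * L), ?_, ?_, ?_⟩
  · intro S hS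
    exact Finset.mem_powerset.mp (Finset.mem_filter.mp hS).1
  · have h1 := Finset.card_filter_add_card_filter_not (s := J.powerset)
      (fun S => T S < ((r : ℝ) - 1) * L)
    rw [Finset.card_powerset, hJc] at h1
    have h1' : (((J.powerset.filter (fun S => T S < ((r : ℝ) - 1) * L)).card : ℕ) : ℝ) +
        ((J.powerset.filter (fun S => ¬ T S < ((r : ℝ) - 1) * L)).card : ℝ) = 2 ^ k := by
      exact_mod_cast h1
    have h2 : ((J.powerset.filter (fun S => ¬ T S < ((r : ℝ) - 1) * L)).card : ℝ) *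
        (((r : ℝ) - 1) * L) ^ 2 ≤ ∑ S ∈ J.powerset, T S ^ 2 := by
      calc ((J.powerset.filter (fun S => ¬ T S < ((r : ℝ) - 1) * L)).card : ℝ) *
          (((r : ℝ) - 1) * L) ^ 2
          = ∑ S ∈ J.powerset.filter (fun S => ¬ T S < ((r : ℝ) - 1) * L),
              (((r : ℝ) - 1) * L) ^ 2 := by rw [Finset.sum_const, nsmul_eq_mul]
        _ ≤ ∑ S ∈ J.powerset.filter (fun S => ¬ T S < ((r : ℝ) - 1) * L), T S ^ 2 := by
            refine Finset.sum_le_sum (fun S hS => ?_)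
            have h3 := not_lt.mp (Finset.mem_filter.mp hS).2
            exact pow_le_pow_left₀ hM.le h3 2
        _ ≤ ∑ S ∈ J.powerset, T S ^ 2 :=
            Finset.sum_le_sum_of_subset_of_nonneg (Finset.filter_subset _ _)
              (fun S _ _ => sq_nonneg _)
    have h3 := h2.trans hkey
    have h4 : ((J.powerset.filter (fun S => ¬ T S < ((r : ℝ) - 1) * L)).card : ℝ) ≤
        2 ^ k * (1 - η) := le_of_mul_le_mul_right h3 (by positivity)
    linarith
  · intro S hS S' hS'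
    have hS1 := (Finset.mem_filter.mp hS).2
    have hS2 := (Finset.mem_filter.mp hS').2
    have h1 : |(S.card : ℝ) - S'.card| ≤ |w S| + |w S'| := by
      have h2 : (S.card : ℝ) - S'.card = w S - w S' := by
        simp only [hw, Finset.sum_const, nsmul_eq_mul, mul_one]
        ring
      rw [h2]
      exact abs_sub _ _
    have h3 : ∑ a : (ZMod r)ˣ, |xs r S (a : ZMod r) - xs r S' (a : ZMod r)| ≤
        ∑ a, |y S a| + ∑ a, |y S' a| := by
      rw [← Finset.sum_add_distrib]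
      refine Finset.sum_le_sum (fun a _ => ?_)
      have h2 : xs r S (a : ZMod r) - xs r S' (a : ZMod r) = y S a - y S' a := by
        simp only [hy, xs]
        ring
      rw [h2]
      exact abs_sub _ _
    have h4 : |(S.card : ℝ) - S'.card| / 2 * Real.log r ≤ (|w S| + |w S'|) / 2 * Real.log r :=
      mul_le_mul_of_nonneg_right (by linarith) hlog
    simp only [hT] at hS1 hS2
    nlinarith [h3, h4, hS1, hS2]

end AKW
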