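import Pool.Agent.AKW.Grp
import Pool.Agent.AKW.Dist
import Pool.Agent.AKW.Sel
import Pool.Agent.AKW.Lat

/-!
# AKW, module Core (helper19)

PROOF.  Let `F = AlgebraicClosure (ZMod p)` (characteristic `p`), `z : F` a primitive `r`-th root of unity (`r ≠ 0` in `F`; e.g. a root
of `cyclotomic r F`, `Polynomial.isRoot_cyclotomic_iff`, `IsAlgClosed.exists_root`).  `exists_uv` (with `span_eq`) gives
`u = m ^ a * p ^ b > v = m ^ a' * p ^ b'`, `u ≡ ± v` modulo `r`, `u ≤ exp N`; both are introspective (`intro_mp`).  `sel` with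
`L = log (p / 2) > 0` gives `G`.  Different `S, S' ∈ G` have different values at some `z ^ a` (`far`: otherwise
`(r - 1) L ≤ … < (r - 1) L`).  `card_G`: `η 2 ^ k ≤ G.card ≤ 2 (2 (u - v)) ^ i ≤ 2 (2 exp N) ^ i`.
-/

open Polynomial

namespace AKW

theorem core {n r p m k i : ℕ} [Fact r.Prime] [Fact p.Prime] (hr2 : r ≠ 2) (hn : n.Coprime r)
    (hpr : p.Coprime r) (hnm : n = p * m) (hm : 2 ≤ m) (hmp : ∀ j, m ≠ p ^ j) (hp2 : 2 < p)
    (hst : (X ^ r - 1 : (ZMod n)[X]) ∣ (X - 1) ^ n - (X ^ n - 1))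
    (hi : i = (Subgroup.closure
      {-1, ZMod.unitOfCoprime n hn, ZMod.unitOfCoprime p hpr}).index)
    (hk : k ≤ (r - 1) / 2) {η N : ℝ} (hN : 0 ≤ N)
    (hB : (r : ℝ) * k * (S1 r + Real.log r ^ 2) ≤
      4 * (1 - η) * ((r : ℝ) - 1) ^ 2 * Real.log (p / 2) ^ 2)
    (hN2 : 4 * (((r : ℝ) - 1) / (2 * i)) * Real.log m * Real.log p < 3 * N ^ 2) :
    η * 2 ^ k ≤ 2 * (2 * Real.exp N) ^ i := by
  have hr : r.Prime := Fact.out
  have hp : p.Prime := Fact.out
  have hmr : m.Coprime r := Nat.Coprime.coprime_dvd_left ⟨p, by rw [hnm, mul_comm]⟩ hn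
  -- the primitive root in characteristic `p`
  let F := AlgebraicClosure (ZMod p)
  have : CharP F p := inferInstance
  have hrF : ((r : ℕ) : F) ≠ 0 := by
    intro h
    have h' := (CharP.cast_eq_zero_iff F p r).1 h
    have := (Nat.Prime.coprime_iff_not_dvd hp).1 hpr
    exact this h'
  have : NeZero ((r : ℕ) : F) := ⟨hrF⟩
  obtain ⟨z, hz0⟩ : ∃ z : F, (cyclotomic r F).IsRoot z :=
    IsAlgClosed.exists_root _ (by
      rw [degree_cyclotomic]
      have := Nat.totient_pos.2 hr.pos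
      exact_mod_cast this.ne')
  have hz : IsPrimitiveRoot z r := isRoot_cyclotomic_iff.1 hz0
  -- introspective numbers
  have hi' : i = (Subgroup.closure
      {-1, ZMod.unitOfCoprime m hmr, ZMod.unitOfCoprime p hpr}).index := by
    rw [hi, span_eq hn hmr hpr hnm]
  obtain ⟨a, b, a', b', hlt, huv, hle⟩ := exists_uv hr2 hp hm hmp hmr hpr hi' hN hN2
  set u := m ^ a * p ^ b with hu_def
  set v := m ^ a' * p ^ b' with hv_def
  have hu : Intro r F u := intro_mp hnm hst a b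
  have hv : Intro r F v := intro_mp hnm hst a' b'
  -- the selection
  have hL : 0 < Real.log (p / 2) := Real.log_pos (by
    rw [one_lt_div (by norm_num)]
    exact_mod_cast hp2)
  obtain ⟨G, hG1, hG2, hG3⟩ := sel hk hL hB
  have hGs : ∀ S ∈ G, S ⊆ Finset.Icc 1 ((r - 1) / 2) := fun S hS =>
    (hG1 S hS).trans (Finset.Icc_subset_Icc_right hk)
  have h3 : ∀ S ∈ G, ∀ S' ∈ G, (∀ a : (ZMod r)ˣ,
      aeval (z ^ (a : ZMod r).val) (CS r S) = aeval (z ^ (a : ZMod r).val) (CS r S')) → S = S' := by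
    intro S hS S' hS' heq
    by_contra hne
    have h1 := far hr2 hz (hGs S hS) (hGs S' hS') hne heq
    exact absurd (hG3 S hS S' hS') (not_lt.2 h1)
  have hcard := card_G hr2 hn hpr ⟨m, hnm⟩ hst hz hu hv huv hlt G hGs h3
  rw [← hi] at hcard
  have hcard' : (G.card : ℝ) ≤ 2 * (2 * Real.exp N) ^ i := by
    have e1 : (G.card : ℝ) ≤ ((2 * (2 * (u - v)) ^ i : ℕ) : ℝ) := by exact_mod_cast hcard
    refine e1.trans ?_
    push_cast
    have e2 : ((u - v : ℕ) : ℝ) ≤ Real.exp N := by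
      refine le_trans ?_ hle
      exact_mod_cast Nat.sub_le u v
    have e3 : (0 : ℝ) ≤ ((u - v : ℕ) : ℝ) := Nat.cast_nonneg _
    gcongr
  exact hG2.trans hcard'

end AKW
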