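import Mathlib

/-!
# Project AKW (MP_2867b3_nt, architect helper19): one AKS congruence at `r` of order `log ^ 2`

Definitions.  `r` is an odd prime, `d = (r - 1) / 2`.  For `x ^ r = 1` the value of `Lam r j` at `x` is
`x ^ (d j) (x ^ j - 1)`, which is `x ^ (j / 2) - x ^ (- j / 2)` (`1 / 2` modulo `r`): it only depends on
`j` modulo `r` and changes sign with `j`.  `CS r S` is the product of the `Lam r j`, `j ∈ S`.
-/

open Polynomial

namespace AKW

/-- The polynomial `X ^ (d j) (X ^ j - 1)`, `d = (r - 1) / 2`. -/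
noncomputable def Lam (r j : ℕ) : ℤ[X] := X ^ ((r - 1) / 2 * j) * (X ^ j - 1)

/-- The product of the `Lam r j`, `j ∈ S`. -/
noncomputable def CS (r : ℕ) (S : Finset ℕ) : ℤ[X] := ∏ j ∈ S, Lam r j

/-- `log |2 sin (π x / r)|` for a residue `x` modulo `r`. -/
noncomputable def hz (r : ℕ) (x : ZMod r) : ℝ := Real.log |2 * Real.sin (Real.pi * x.val / r)|

/-- `log |CS r S|` at the conjugate `a`. -/
noncomputable def xs (r : ℕ) (S : Finset ℕ) (a : ZMod r) : ℝ := ∑ j ∈ S, hz r (a * (j : ZMod r))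

/-- `∑ hz ^ 2` -/
noncomputable def S1 (r : ℕ) [Fact r.Prime] : ℝ := ∑ a : (ZMod r)ˣ, hz r (a : ZMod r) ^ 2

/-- `u` is introspective for all the `CS r S` in the field `F`. -/
def Intro (r : ℕ) (F : Type) [Field F] (u : ℕ) : Prop :=
  ∀ x : F, x ^ r = 1 → ∀ S : Finset ℕ, (aeval x (CS r S)) ^ u = aeval (x ^ u) (CS r S)

end AKW
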