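import Mathlib

/-!
# AKW, module Num: the numbers (helper19)

`α = log m`, `β = log p`, `s = S1 r`.  Write `t = (r - 1) / (2 i)`, `d = (r - 1) / 2 = i t`, `L = β - log 2`, `log 2 = 0.6931…`.
`L ^ 2 ≥ 0.97 β ^ 2 ≥ 2052`.  From `h1`: `r ≥ 6 * 0.6931 * 46 i ≥ 191 i`, so `t ≥ 95`.

CASE A: `r ≤ 8.7 L ^ 2`.  `k = d`, `N = (2 / 3) (t + 1 / 4)`.  `4 t α β ≤ 4 t r / (6 i) ≤ (4 / 3) t ^ 2 + (2 / 3) t < 3 N ^ 2`.
  Last inequality: `log 2 + i (log 2 + N) < log η + d log 2`; `i N = (2 / 3) d + i / 6`, so it is enough that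
  `0.02647 d > log 2 - log η + 0.86 i`, and `i ≤ d / 95`: enough `0.0174 d > log 2 - log η`.
  A1: `r ≤ 1000`: `η = 1 / 2`: `0.0174 d > 1.3863` as `d ≥ 95`, hmm: `0.0174 * 95 = 1.653`.  (B):
  `d r (0.8975 r + 2 + log r ^ 2) ≤ 2 (r - 1) ^ 2 L ^ 2`, i.e. `r (0.8975 r + 2 + log r ^ 2) ≤ 4 (r - 1) L ^ 2`: left factor at most
  `1000 * 0.8975 + 2 + 48 = 948`, `L ^ 2 ≥ 2052`.
  A2: `r > 1000`: `η = 1 / 100`: `0.0174 * 499.5 = 8.69 > log 2 + log 100 = 5.2984`.  (B): `r (0.8975 r + 2 + log r ^ 2) ≤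
  8 * 0.99 (r - 1) L ^ 2`: `0.8975 r ≤ 7.8083 L ^ 2`, `(2 + log r ^ 2) ≤ 0.05 L ^ 2` (`r ≤ 8.7 L ^ 2`, `L ^ 2 ≥ 2052`; use e.g.
  `log r ≤ …`), and `7.92 (1 - 1 / r) ≥ 7.912`.
CASE B: `r > 8.7 L ^ 2 ≥ 17852`.  `η = 1 / 100`, `k = ⌊4.3 L ^ 2⌋ ≤ (r - 1) / 2`, `N = √((4 / 3) t α β + 1)`.
  (B): `k ≤ 4.3 L ^ 2`, `4.3 (0.8975 + (2 + log r ^ 2) / r) ≤ 4.3 * 0.9031 = 3.8834 ≤ 3.96 (1 - 1 / r) ^ 2`
  (`log r ^ 2 / r ≤ 0.0055` for `r ≥ 17852`: `log x / √x` is decreasing for `x ≥ e ^ 2`, or `log r ≤ 4 r ^ (1 / 4)`-like bounds).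
  Last: `i ≤ i α r / (0.6931 r) ≤ 12 β ^ 3 / (0.6931 * 8.7 * 0.97 β ^ 2) ≤ 2.06 β`; `(i N) ^ 2 = (4 / 3) i ^ 2 t α β + i ^ 2 =
  (2 / 3) i (r - 1) α β + i ^ 2 ≤ 8 β ^ 4 + 4.25 β ^ 2`, so `i N ≤ 2.8285 β ^ 2 + 0.8`; `k log 2 ≥ (4.3 * 0.97 β ^ 2 - 1) 0.6931 ≥
  2.8909 β ^ 2 - 0.7`; `0.0624 β ^ 2 ≥ 132 > 0.8 + 0.7 + (i + 1) 0.6932 + log 100` (`i ≤ 2.06 β`, `β ≥ 46`).
The constants were checked numerically.  `2 (2 exp N) ^ i < η 2 ^ k` is the last inequality after `log`.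
-/

namespace AKW

private theorem l2lo : (0.69314718 : ℝ) < Real.log 2 := by
  have := Real.log_two_gt_d9
  linarith

private theorem l2hi : Real.log 2 < (0.69314719 : ℝ) := by
  have := Real.log_two_lt_d9
  linarith

private theorem lg_big {x : ℝ} (hx : 16384 ≤ x) : Real.log x ^ 2 ≤ 0.00575 * x := by
  have h2 := l2hi
  set u := Real.sqrt (x / 16384) with hu
  have hu2 : u ^ 2 = x / 16384 := Real.sq_sqrt (by positivity)
  have hu1 : 1 ≤ u := by
    rw [hu, Real.one_le_sqrt, le_div_iff₀ (by norm_num)]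
    linarith
  have hx2 : x = 2 ^ 14 * u ^ 2 := by
    rw [hu2]; ring
  have hlog : Real.log x = 14 * Real.log 2 + 2 * Real.log u := by
    rw [hx2, Real.log_mul (by norm_num) (by positivity), Real.log_pow, Real.log_pow]
    norm_num
  have hlu : Real.log u ≤ u - 1 := Real.log_le_sub_one_of_pos (by linarith)
  have h3 : Real.log x ≤ 9.7041 * u := by
    rw [hlog]
    nlinarith
  have h4 : 0 ≤ Real.log x := Real.log_nonneg (by linarith)
  have h5 : Real.log x ^ 2 ≤ (9.7041 * u) ^ 2 := pow_le_pow_left₀ h4 h3 2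
  rw [mul_pow, hu2] at h5
  have h6 : (9.7041 : ℝ) ^ 2 * (x / 16384) ≤ 0.00575 * x := by
    have : (0 : ℝ) ≤ x := by linarith
    nlinarith
  linarith

private theorem lg_all {x : ℝ} (hx : 1 ≤ x) : Real.log x ^ 2 ≤ 94.2 + 0.00575 * x := by
  rcases le_total x 16384 with h | h
  · have h2 := l2hi
    have h3 : Real.log x ≤ 9.7041 := by
      have h4 : Real.log x ≤ Real.log 16384 := Real.log_le_log (by linarith) h
      have h5 : Real.log 16384 = 14 * Real.log 2 := by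
        rw [show (16384 : ℝ) = 2 ^ 14 by norm_num, Real.log_pow]
        norm_num
      linarith
    have h6 : 0 ≤ Real.log x := Real.log_nonneg hx
    have h7 : Real.log x ^ 2 ≤ (9.7041 : ℝ) ^ 2 := pow_le_pow_left₀ h6 h3 2
    have h8 : (9.7041 : ℝ) ^ 2 ≤ 94.2 := by norm_num
    linarith
  · have := lg_big h
    linarith

private theorem fin3 {η N : ℝ} {i k : ℕ} (hη : 0 < η)
    (h : Real.log 2 + i * (Real.log 2 + N) < Real.log η + k * Real.log 2) :
    2 * (2 * Real.exp N) ^ i < η * 2 ^ k := by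
  have e2 : Real.exp (Real.log 2) = 2 := Real.exp_log (by norm_num)
  have h1 : 2 * (2 * Real.exp N) ^ i = Real.exp (Real.log 2 + i * (Real.log 2 + N)) := by
    rw [Real.exp_add, Real.exp_nat_mul, Real.exp_add, e2]
  have h2 : η * 2 ^ k = Real.exp (Real.log η + k * Real.log 2) := by
    rw [Real.exp_add, Real.exp_nat_mul, e2, Real.exp_log hη]
  rw [h1, h2]
  exact Real.exp_lt_exp.2 h

private theorem lg100 : - (4.8521 : ℝ) < Real.log (1 / 100) := by
  have h2 := l2hi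
  have h3 : Real.log (1 / 100) = - Real.log 100 := by
    rw [one_div, Real.log_inv]
  have h4 : Real.log 100 ≤ Real.log (2 ^ 7) := Real.log_le_log (by norm_num) (by norm_num)
  rw [Real.log_pow] at h4
  push_cast at h4
  linarith

theorem num {α β s : ℝ} {r i : ℕ} (hβ : 46 ≤ β) (hα : Real.log 2 ≤ α) (hi : 1 ≤ i) (hr : 3 ≤ r)
    (hodd : Odd r) (h1 : 6 * i * α * β ≤ r) (h2 : i * α * r ≤ 12 * β ^ 3)
    (hs : s ≤ 0.8975 * r + 2) :
    ∃ (k : ℕ) (η N : ℝ), k ≤ (r - 1) / 2 ∧ 0 < η ∧ 0 ≤ N ∧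
      (r : ℝ) * k * (s + Real.log r ^ 2) ≤
        4 * (1 - η) * ((r : ℝ) - 1) ^ 2 * (β - Real.log 2) ^ 2 ∧
      4 * (((r : ℝ) - 1) / (2 * i)) * α * β < 3 * N ^ 2 ∧
      2 * (2 * Real.exp N) ^ i < η * 2 ^ k := by
  obtain ⟨d, rfl⟩ := hodd
  have hlo := l2lo
  have hhi := l2hi
  have hi1 : (1 : ℝ) ≤ i := by exact_mod_cast hi
  have hi0 : (0 : ℝ) < i := by linarith
  have hcast : ((2 * d + 1 : ℕ) : ℝ) = 2 * (d : ℝ) + 1 := by push_cast; ring
  have hhalf : (2 * d + 1 - 1) / 2 = d := by omega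
  rw [hhalf]
  rw [hcast] at h1 h2 hs ⊢
  have hd0 : (0 : ℝ) ≤ d := Nat.cast_nonneg d
  obtain ⟨x, hx⟩ : ∃ x : ℝ, x = 2 * (d : ℝ) + 1 := ⟨_, rfl⟩
  have hxd : x - 1 = 2 * (d : ℝ) := by rw [hx]; ring
  rw [← hx] at h1 h2 hs ⊢
  -- the number `L`
  obtain ⟨L, hL⟩ : ∃ L : ℝ, L = β - Real.log 2 := ⟨_, rfl⟩
  rw [← hL]
  have hL1 : β - 0.69314719 ≤ L := by rw [hL]; linarith
  have hL2 : 2052 ≤ L ^ 2 := by
    have h3 : (45.3 : ℝ) ^ 2 ≤ L ^ 2 := pow_le_pow_left₀ (by norm_num) (by linarith) 2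
    have h4 : (2052 : ℝ) ≤ (45.3 : ℝ) ^ 2 := by norm_num
    linarith
  have hL97 : 0.97 * β ^ 2 ≤ L ^ 2 := by
    have h3 : (β - 0.69314719) ^ 2 ≤ L ^ 2 := pow_le_pow_left₀ (by linarith) hL1 2
    have h4 : (β - 0.69314719) ^ 2 = β ^ 2 - 2 * 0.69314719 * β + 0.69314719 ^ 2 := by ring
    have h5 : 0 ≤ β ^ 2 - 92 * β + 2116 := by
      have h6 : β ^ 2 - 92 * β + 2116 = (β - 46) ^ 2 := by ring
      rw [h6]
      exact sq_nonneg _
    have h7 : (0.4804 : ℝ) ≤ 0.69314719 ^ 2 := by norm_num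
    rw [h4] at h3
    linarith
  have hab : 31.884 ≤ α * β := by
    have h3 : (0.69314718 : ℝ) * 46 ≤ α * β :=
      mul_le_mul (by linarith) hβ (by norm_num) (by linarith)
    linarith
  have h1' : 6 * (i : ℝ) * (α * β) ≤ x := by
    have : 6 * (i : ℝ) * α * β = 6 * (i : ℝ) * (α * β) := by ring
    linarith
  have hxi : 191.3 * (i : ℝ) ≤ x := by
    have h3 : 6 * (i : ℝ) * 31.884 ≤ 6 * (i : ℝ) * (α * β) :=
      mul_le_mul_of_nonneg_left hab (by positivity)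
    linarith
  have hx191 : 191 ≤ x := by linarith
  have hdi : 95 * (i : ℝ) ≤ d := by linarith
  have hlogx := lg_all (x := x) (by linarith)
  have hlogx0 : 0 ≤ Real.log x ^ 2 := sq_nonneg _
  by_cases hA : x ≤ 8.7 * L ^ 2
  · -- CASE A
    have hN2 : 4 * ((x - 1) / (2 * i)) * α * β < 3 * (2 / 3 * ((d : ℝ) / i + 1 / 4)) ^ 2 := by
      obtain ⟨t, ht⟩ : ∃ t : ℝ, t = (d : ℝ) / i := ⟨_, rfl⟩
      have ht0 : 0 ≤ t := by rw [ht]; positivity
      have hit : (i : ℝ) * t = d := by rw [ht]; field_simp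
      have h3 : (x - 1) / (2 * i) = t := by
        rw [hxd, ht]; field_simp
      rw [h3, ← ht]
      have h4 : α * β ≤ (2 * t + 1) / 6 := by
        rw [le_div_iff₀ (by norm_num)]
        have h5 : (i : ℝ) * (α * β * 6) ≤ (i : ℝ) * (2 * t + 1) := by
          have h6 : (i : ℝ) * (2 * t + 1) = 2 * (i * t) + i := by ring
          rw [h6, hit]
          linarith
        exact le_of_mul_le_mul_left h5 hi0
      have h5 : 4 * t * (α * β) ≤ 4 * t * ((2 * t + 1) / 6) :=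
        mul_le_mul_of_nonneg_left h4 (by positivity)
      have h6 : 4 * t * α * β = 4 * t * (α * β) := by ring
      have h7 : 4 * t * ((2 * t + 1) / 6) = 4 / 3 * t ^ 2 + 2 / 3 * t := by ring
      have h8 : 3 * (2 / 3 * (t + 1 / 4)) ^ 2 = 4 / 3 * t ^ 2 + 2 / 3 * t + 1 / 12 := by ring
      rw [h6, h8]
      rw [h7] at h5
      linarith
    have hiN : (i : ℝ) * (2 / 3 * ((d : ℝ) / i + 1 / 4)) = 2 / 3 * d + i / 6 := by
      field_simp
      ring
    have hcore : ∀ η : ℝ, 0 < η → Real.log 2 - Real.log η < 0.0174 * d →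
        2 * (2 * Real.exp (2 / 3 * ((d : ℝ) / i + 1 / 4))) ^ i < η * 2 ^ d := by
      intro η hη h3
      refine fin3 hη ?_
      rw [mul_add, hiN]
      have h5 := mul_le_mul_of_nonneg_left hhi.le hi0.le
      have h6 := mul_le_mul_of_nonneg_left hlo.le hd0
      linarith
    have hB : ∀ η : ℝ, x * (0.8975 * x + 2 + Real.log x ^ 2) ≤ 8 * (1 - η) * (x - 1) * L ^ 2 →
        x * (d : ℝ) * (s + Real.log x ^ 2) ≤ 4 * (1 - η) * (x - 1) ^ 2 * L ^ 2 := by
      intro η h3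
      have h4 : x * (d : ℝ) * (s + Real.log x ^ 2) ≤
          x * (d : ℝ) * (0.8975 * x + 2 + Real.log x ^ 2) :=
        mul_le_mul_of_nonneg_left (by linarith) (mul_nonneg (by linarith) hd0)
      have h5 : (d : ℝ) * (x * (0.8975 * x + 2 + Real.log x ^ 2)) ≤
          (d : ℝ) * (8 * (1 - η) * (x - 1) * L ^ 2) := mul_le_mul_of_nonneg_left h3 hd0
      have h6 : 4 * (1 - η) * (x - 1) ^ 2 * L ^ 2 = (d : ℝ) * (8 * (1 - η) * (x - 1) * L ^ 2) := by
        rw [hxd]; ring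
      rw [h6]
      linarith
    by_cases hA1 : x ≤ 1000
    · refine ⟨d, 1 / 2, _, le_rfl, by norm_num, by positivity, hB _ ?_, hN2, hcore _ (by norm_num) ?_⟩
      · have h3 : x * (0.8975 * x + 2 + Real.log x ^ 2) ≤ x * 1000 :=
          mul_le_mul_of_nonneg_left (by linarith) (by linarith)
        have h4 : (x - 1) * 2052 ≤ (x - 1) * L ^ 2 :=
          mul_le_mul_of_nonneg_left hL2 (by linarith)
        linarith
      · have h3 : Real.log (1 / 2) = - Real.log 2 := by rw [one_div, Real.log_inv]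
        rw [h3]
        linarith
    · push Not at hA1
      refine ⟨d, 1 / 100, _, le_rfl, by norm_num, by positivity, hB _ ?_, hN2,
        hcore _ (by norm_num) ?_⟩
      · have h3 : 0.8975 * x + 2 + Real.log x ^ 2 ≤ 7.911 * L ^ 2 := by linarith
        have h4 : x * (0.8975 * x + 2 + Real.log x ^ 2) ≤ x * (7.911 * L ^ 2) :=
          mul_le_mul_of_nonneg_left h3 (by linarith)
        have h5 : x * 7.911 ≤ 7.92 * (x - 1) := by linarith
        have h6 : x * 7.911 * L ^ 2 ≤ 7.92 * (x - 1) * L ^ 2 :=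
          mul_le_mul_of_nonneg_right h5 (sq_nonneg L)
        linarith
      · have h3 := lg100
        linarith
  · -- CASE B
    push Not at hA
    have hx16 : 16384 ≤ x := by linarith
    have hlb := lg_big hx16
    have hk1 : ((⌊4.3 * L ^ 2⌋₊ : ℕ) : ℝ) ≤ 4.3 * L ^ 2 := Nat.floor_le (by positivity)
    have hk2 : 4.3 * L ^ 2 < (⌊4.3 * L ^ 2⌋₊ : ℕ) + 1 := Nat.lt_floor_add_one _
    generalize ⌊4.3 * L ^ 2⌋₊ = k at hk1 hk2
    have hkd : k ≤ d := by
      have : (k : ℝ) ≤ d := by linarith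
      exact_mod_cast this
    have hk0 : (0 : ℝ) ≤ k := Nat.cast_nonneg k
    have hti : 0 ≤ (x - 1) / (2 * (i : ℝ)) * α * β := by
      have : 0 ≤ α * β := by linarith
      have h3 : 0 ≤ (x - 1) / (2 * (i : ℝ)) := div_nonneg (by linarith) (by positivity)
      rw [mul_assoc]
      exact mul_nonneg h3 this
    refine ⟨k, 1 / 100, Real.sqrt (4 / 3 * ((x - 1) / (2 * (i : ℝ)) * α * β) + 1), hkd, by norm_num,
      Real.sqrt_nonneg _, ?_, ?_, fin3 (by norm_num) ?_⟩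
    · have h3 : x * (k : ℝ) * (s + Real.log x ^ 2) ≤
          x * (k : ℝ) * (0.8975 * x + 2 + Real.log x ^ 2) :=
        mul_le_mul_of_nonneg_left (by linarith) (mul_nonneg (by linarith) hk0)
      have h4 : x * (k : ℝ) * (0.8975 * x + 2 + Real.log x ^ 2) ≤
          x * (4.3 * L ^ 2) * (0.8975 * x + 2 + Real.log x ^ 2) := by
        refine mul_le_mul_of_nonneg_right (mul_le_mul_of_nonneg_left hk1 (by linarith)) ?_
        linarith
      have h5 : 4.3 * (x * (0.8975 * x + 2 + Real.log x ^ 2)) ≤ 3.96 * (x - 1) ^ 2 := by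
        have h6 : x * (0.8975 * x + 2 + Real.log x ^ 2) ≤ x * (0.8975 * x + 2 + 0.00575 * x) :=
          mul_le_mul_of_nonneg_left (by linarith) (by linarith)
        have h7 : 16384 * x ≤ x * x := mul_le_mul_of_nonneg_right hx16 (by linarith)
        have h8 : x * (0.8975 * x + 2 + 0.00575 * x) = 0.90325 * (x * x) + 2 * x := by ring
        have h9 : (x - 1) ^ 2 = x * x - 2 * x + 1 := by ring
        rw [h8] at h6
        rw [h9]
        linarith
      have h6 : 4.3 * (x * (0.8975 * x + 2 + Real.log x ^ 2)) * L ^ 2 ≤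
          3.96 * (x - 1) ^ 2 * L ^ 2 := mul_le_mul_of_nonneg_right h5 (sq_nonneg L)
      linarith
    · rw [Real.sq_sqrt (by linarith)]
      linarith
    · -- the last inequality
      have hα0 : 0 < α := by linarith
      have hβ0 : 0 < β := by linarith
      have hib : (i : ℝ) ≤ 2.06 * β := by
        have h3 : 0.6931 * (8.439 * β ^ 2) ≤ α * x :=
          mul_le_mul (by linarith) (by linarith) (by positivity) hα0.le
        have h4 : (i : ℝ) * (0.6931 * (8.439 * β ^ 2)) ≤ i * (α * x) :=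
          mul_le_mul_of_nonneg_left h3 hi0.le
        have h5 : (i : ℝ) * (5.849 * β ^ 2) ≤ (12 * β) * β ^ 2 := by
          have h6 : (i : ℝ) * (5.849 * β ^ 2) ≤ (i : ℝ) * (0.6931 * (8.439 * β ^ 2)) := by
            have h9 : 0 ≤ β ^ 2 := sq_nonneg β
            exact mul_le_mul_of_nonneg_left (by linarith) hi0.le
          have h7 : (i : ℝ) * (α * x) = i * α * x := by ring
          have h8 : (12 * β) * β ^ 2 = 12 * β ^ 3 := by ring
          rw [h8]
          linarith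
        have h6 : (i : ℝ) * 5.849 ≤ 12 * β := by
          have h7 : (i : ℝ) * 5.849 * β ^ 2 ≤ 12 * β * β ^ 2 := by linarith
          exact le_of_mul_le_mul_right h7 (by positivity)
        linarith
      have hiN : (i : ℝ) * Real.sqrt (4 / 3 * ((x - 1) / (2 * (i : ℝ)) * α * β) + 1) ≤
          2.8285 * β ^ 2 + 0.8 := by
        have h3 : (i : ℝ) * Real.sqrt (4 / 3 * ((x - 1) / (2 * (i : ℝ)) * α * β) + 1) =
            Real.sqrt (i ^ 2 * (4 / 3 * ((x - 1) / (2 * (i : ℝ)) * α * β) + 1)) := by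
          rw [Real.sqrt_mul (by positivity), Real.sqrt_sq hi0.le]
        rw [h3]
        refine Real.sqrt_le_iff.2 ⟨by positivity, ?_⟩
        have h4 : (i : ℝ) ^ 2 * (4 / 3 * ((x - 1) / (2 * (i : ℝ)) * α * β) + 1) =
            2 / 3 * (i * (x - 1) * α * β) + i ^ 2 := by
          field_simp
          ring
        rw [h4]
        have h5 : i * (x - 1) * α * β ≤ 12 * β ^ 4 := by
          have h6 : i * α * x * β ≤ 12 * β ^ 3 * β := mul_le_mul_of_nonneg_right h2 hβ0.le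
          have h7 : 0 ≤ (i : ℝ) * α * β := by positivity
          have h8 : i * (x - 1) * α * β = i * α * x * β - i * α * β := by ring
          have h9 : 12 * β ^ 3 * β = 12 * β ^ 4 := by ring
          rw [h8]
          linarith
        have h6 : (i : ℝ) ^ 2 ≤ (2.06 * β) ^ 2 := pow_le_pow_left₀ hi0.le hib 2
        have h7 : (2.06 * β) ^ 2 = 4.2436 * β ^ 2 := by ring
        have h8 : (2.8285 * β ^ 2 + 0.8) ^ 2 = 8.00041225 * β ^ 4 + 4.5256 * β ^ 2 + 0.64 := by ring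
        have h9 : 0 ≤ β ^ 2 := sq_nonneg β
        have h10 : 0 ≤ β ^ 4 := by positivity
        rw [h7] at h6
        rw [h8]
        linarith
      have hk3 : 4.171 * β ^ 2 - 1 ≤ k := by linarith
      have hk4 : (4.171 * β ^ 2 - 1) * 0.69314718 ≤ k * Real.log 2 := by
        refine mul_le_mul hk3 hlo.le (by norm_num) hk0
      have h3 := lg100
      rw [mul_add]
      have h5 : (i : ℝ) * Real.log 2 ≤ 2.06 * β * 0.69314719 :=
        mul_le_mul hib hhi.le (by linarith) (by positivity)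
      have h6 : 46 * β ≤ β * β := mul_le_mul_of_nonneg_right hβ hβ0.le
      have h7 : β ^ 2 = β * β := by ring
      rw [h7] at hk4 hiN
      linarith

end AKW
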