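import Mathlib

/-!
# AKW, module Lsq: a sum of squares of logarithms (helper19)

PROOFS.
* `sum_log_sq`: let `f t = t (log (y / t) ^ 2 + 2 log (y / t) + 2)` for `t > 0`, `f 0 = 0`; `f' t = log (y / t) ^ 2`, which is
  decreasing on `(0, y]`.  For `1 ≤ a ≤ y`: `f a - f (a - 1) ≥ log (y / a) ^ 2` (mean value theorem on `(a - 1, a)`, `f` continuous
  at `0`: `t log t ^ 2 → 0`; or for `a = 1` directly: `f 1 - f 0 = log y ^ 2 + 2 log y + 2 ≥ log y ^ 2`, `y ≥ 1`).  Telescoping: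
  the sum is at most `f ⌊y⌋ ≤ f y = 2 y` (`f` is increasing on `(0, y]`).
* `six_mul_le`: `sin` is concave on `[0, π / 6]`, `sin (π / 6) = 1 / 2`: `sin (π x) ≥ 3 x` for `0 ≤ x ≤ 1 / 6`.
* the other bounds: `sin` is increasing on `[0, π / 2]`, `2 sin (π / 6) = 1`, `2 sin (π / 4) = √2`, `2 sin (π / 3) = √3`;
  `log √2 = log 2 / 2`, `(log 2 / 2) ^ 2 < 0.1202`, `(log 3 / 2) ^ 2 < 0.3018`, `(log 2) ^ 2 < 0.4805`
  (`log 3 < 1.0987`: e.g. from `exp` bounds, `3 ^ 12 < 2 ^ 20`, no: `log 3 / log 2 < 1.585` as `3 ^ 200 < 2 ^ 317`, and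
  `Real.log_two_lt_d9`; `0.6931471808 * 1.585 / 2 = 0.549320`, square `0.301753`).
-/

namespace AKW

private theorem sum_log_sq_aux {y : ℝ} (hy : 0 < y) (n : ℕ) (hn : ((n + 1 : ℕ) : ℝ) ≤ y) :
    ∑ a ∈ Finset.Icc 1 (n + 1), Real.log (y / a) ^ 2 ≤
      ((n + 1 : ℕ) : ℝ) * (Real.log (y / (n + 1 : ℕ)) ^ 2 + 2 * Real.log (y / (n + 1 : ℕ)) + 2) := by
  induction n with
  | zero =>
    have h1 : 0 ≤ Real.log y := Real.log_nonneg (by simpa using hn)
    simp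
    linarith
  | succ n ih =>
    rw [Finset.sum_Icc_succ_top (by omega)]
    have h1 : ((n + 1 : ℕ) : ℝ) ≤ y := le_trans (by push_cast; linarith) hn
    have h2 := ih h1
    set L := Real.log (y / ((n + 1 + 1 : ℕ) : ℝ)) with hL
    have hp1 : (0 : ℝ) < ((n + 1 : ℕ) : ℝ) := by positivity
    have hp2 : (0 : ℝ) < ((n + 1 + 1 : ℕ) : ℝ) := by positivity
    have hL0 : 0 ≤ L := Real.log_nonneg (by rw [le_div_iff₀ hp2]; linarith)
    set δ := Real.log (((n + 1 + 1 : ℕ) : ℝ) / ((n + 1 : ℕ) : ℝ)) with hδ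
    have hδ0 : 0 ≤ δ := Real.log_nonneg (by rw [le_div_iff₀ hp1]; push_cast; linarith)
    have h3 : Real.log (y / ((n + 1 : ℕ) : ℝ)) = L + δ := by
      rw [hL, hδ, ← Real.log_mul (by positivity) (by positivity)]
      congr 1
      field_simp
    have h4 : Real.exp δ = ((n + 1 + 1 : ℕ) : ℝ) / ((n + 1 : ℕ) : ℝ) := by
      rw [hδ, Real.exp_log (by positivity)]
    have h5 : ((n + 1 : ℕ) : ℝ) * Real.exp δ = ((n + 1 : ℕ) : ℝ) + 1 := by
      rw [h4, mul_div_cancel₀ _ hp1.ne']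
      push_cast
      ring
    have h6 := Real.quadratic_le_exp_of_nonneg hδ0
    have h7 : ((n + 1 : ℕ) : ℝ) * (1 + δ + δ ^ 2 / 2) ≤ ((n + 1 : ℕ) : ℝ) + 1 := by
      rw [← h5]
      exact mul_le_mul_of_nonneg_left h6 hp1.le
    have h8 : ((n + 1 : ℕ) : ℝ) * δ ≤ 1 := by
      have : 0 ≤ ((n + 1 : ℕ) : ℝ) * δ ^ 2 := by positivity
      nlinarith
    rw [h3] at h2
    have h9 : ((n + 1 + 1 : ℕ) : ℝ) = ((n + 1 : ℕ) : ℝ) + 1 := by push_cast; ring
    rw [h9]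
    set N := ((n + 1 : ℕ) : ℝ)
    have h10 : L * (N * δ) ≤ L := by nlinarith
    nlinarith

theorem sum_log_sq {y : ℝ} (hy : 0 < y) :
    ∑ a ∈ Finset.Icc 1 ⌊y⌋₊, Real.log (y / a) ^ 2 ≤ 2 * y := by
  rcases Nat.eq_zero_or_pos ⌊y⌋₊ with h | h
  · rw [h]
    simp
    linarith
  · obtain ⟨n, hn⟩ : ∃ n, ⌊y⌋₊ = n + 1 := ⟨⌊y⌋₊ - 1, by omega⟩
    rw [hn]
    have h1 : ((n + 1 : ℕ) : ℝ) ≤ y := by
      rw [← hn]
      exact Nat.floor_le hy.le
    refine (sum_log_sq_aux hy n h1).trans ?_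
    have hp : (0 : ℝ) < ((n + 1 : ℕ) : ℝ) := by positivity
    set L := Real.log (y / ((n + 1 : ℕ) : ℝ)) with hL
    have hL0 : 0 ≤ L := Real.log_nonneg (by rw [le_div_iff₀ hp]; linarith)
    have h2 := Real.quadratic_le_exp_of_nonneg hL0
    have h3 : Real.exp L = y / ((n + 1 : ℕ) : ℝ) := by
      rw [hL, Real.exp_log (by positivity)]
    have h4 : ((n + 1 : ℕ) : ℝ) * Real.exp L = y := by
      rw [h3, mul_div_cancel₀ _ hp.ne']
    have h5 := mul_le_mul_of_nonneg_left h2 hp.le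
    nlinarith

theorem six_mul_le {x : ℝ} (h0 : 0 ≤ x) (h1 : x ≤ 1 / 6) : 6 * x ≤ 2 * Real.sin (Real.pi * x) := by
  have hpi := Real.pi_pos
  have hx : (0 : ℝ) ∈ Set.Icc 0 Real.pi := ⟨le_rfl, hpi.le⟩
  have hy : Real.pi / 6 ∈ Set.Icc 0 Real.pi := ⟨by positivity, by linarith⟩
  have h2 := strictConcaveOn_sin_Icc.concaveOn.2 hx hy (show (0 : ℝ) ≤ 1 - 6 * x by linarith)
    (show (0 : ℝ) ≤ 6 * x by linarith) (by ring)
  simp only [smul_eq_mul, mul_zero, Real.sin_zero, zero_add, Real.sin_pi_div_six] at h2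
  have h3 : 6 * x * (Real.pi / 6) = Real.pi * x := by ring
  rw [h3] at h2
  linarith

private theorem two_sin_le_of_le {x z : ℝ} (h0 : 0 ≤ x) (h1 : x ≤ z) (hz : z ≤ 1 / 2) :
    2 * Real.sin (Real.pi * x) ≤ 2 * Real.sin (Real.pi * z) := by
  have hpi := Real.pi_pos
  have : Real.sin (Real.pi * x) ≤ Real.sin (Real.pi * z) :=
    Real.sin_le_sin_of_le_of_le_pi_div_two (by nlinarith) (by nlinarith) (by nlinarith)
  linarith

private theorem sin_sixth : 2 * Real.sin (Real.pi * (1 / 6)) = 1 := by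
  rw [show Real.pi * (1 / 6) = Real.pi / 6 by ring, Real.sin_pi_div_six]
  norm_num

/-- near `0` -/
theorem log_sin_sq_a {x : ℝ} (h0 : 0 < x) (h1 : x ≤ 1 / 6) :
    Real.log |2 * Real.sin (Real.pi * x)| ^ 2 ≤ Real.log (1 / (6 * x)) ^ 2 := by
  have h2 := six_mul_le h0.le h1
  have h3 : 2 * Real.sin (Real.pi * x) ≤ 1 := by
    rw [← sin_sixth]
    exact two_sin_le_of_le h0.le h1 (by norm_num)
  have h4 : 0 < 6 * x := by linarith
  have h5 : 0 < 2 * Real.sin (Real.pi * x) := by linarith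
  rw [abs_of_pos h5, one_div, Real.log_inv, neg_sq, sq_le_sq,
    abs_of_nonpos (Real.log_nonpos h5.le h3), abs_of_nonpos (Real.log_nonpos h4.le (by linarith))]
  exact neg_le_neg (Real.log_le_log h4 h2)

private theorem log_sin_sq_aux {x z B : ℝ} (h0 : 1 / 6 ≤ x) (h1 : x ≤ z) (hz : z ≤ 1 / 2)
    (hB : Real.log (2 * Real.sin (Real.pi * z)) ≤ B) :
    Real.log |2 * Real.sin (Real.pi * x)| ^ 2 ≤ B ^ 2 := by
  have h2 : 1 ≤ 2 * Real.sin (Real.pi * x) := by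
    rw [← sin_sixth]
    exact two_sin_le_of_le (by norm_num) h0 (by linarith)
  have h3 := two_sin_le_of_le (by linarith) h1 hz
  have h4 : 0 < 2 * Real.sin (Real.pi * x) := by linarith
  rw [abs_of_pos h4]
  exact pow_le_pow_left₀ (Real.log_nonneg h2) ((Real.log_le_log h4 h3).trans hB) 2

theorem log_sin_sq_b {x : ℝ} (h0 : 1 / 6 ≤ x) (h1 : x ≤ 1 / 4) :
    Real.log |2 * Real.sin (Real.pi * x)| ^ 2 ≤ 0.1202 := by
  refine (log_sin_sq_aux (B := 0.3465735904) h0 h1 (by norm_num) ?_).trans (by norm_num)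
  rw [show Real.pi * (1 / 4) = Real.pi / 4 by ring, Real.sin_pi_div_four,
    mul_div_cancel₀ _ (two_ne_zero), Real.log_sqrt (by norm_num)]
  linarith [Real.log_two_lt_d9]

theorem log_sin_sq_c {x : ℝ} (h0 : 1 / 6 ≤ x) (h1 : x ≤ 1 / 3) :
    Real.log |2 * Real.sin (Real.pi * x)| ^ 2 ≤ 0.3018 := by
  refine (log_sin_sq_aux (B := 0.54932) h0 h1 (by norm_num) ?_).trans (by norm_num)
  rw [show Real.pi * (1 / 3) = Real.pi / 3 by ring, Real.sin_pi_div_three,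
    mul_div_cancel₀ _ (two_ne_zero), Real.log_sqrt (by norm_num)]
  have h2 : (200 : ℕ) * Real.log 3 ≤ (317 : ℕ) * Real.log 2 := by
    rw [← Real.log_pow, ← Real.log_pow]
    refine Real.log_le_log (by positivity) ?_
    have h3 : (3 : ℝ) ^ 200 ≤ 2 ^ 200 * 2 ^ 117 := by norm_num
    rwa [← pow_add] at h3
  push_cast at h2
  linarith [Real.log_two_lt_d9]

theorem log_sin_sq_d {x : ℝ} (h0 : 1 / 6 ≤ x) (h1 : x ≤ 1 / 2) :
    Real.log |2 * Real.sin (Real.pi * x)| ^ 2 ≤ 0.4805 := by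
  refine (log_sin_sq_aux (B := 0.6931471808) h0 h1 le_rfl ?_).trans (by norm_num)
  rw [show Real.pi * (1 / 2) = Real.pi / 2 by ring, Real.sin_pi_div_two, mul_one]
  linarith [Real.log_two_lt_d9]

end AKW
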