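import Pool.Agent.AKW.Sin
import Pool.Agent.AKW.Lsq

/-!
# AKW, module Sgb: the sum `S1` (helper19)

PROOF of `S1_le`.  `S1 r` is the sum over `a = 1, …, r - 1` of `log (2 sin (π a / r)) ^ 2` (`ZMod.val` of the units), and by
`a → r - a` it is twice the sum over `1 ≤ a ≤ d = (r - 1) / 2` (`hz_neg`).  Split `1 ≤ a ≤ d` (`a < r / 2`):
`a ≤ r / 6`: `log_sin_sq_a` with `x = a / r`, `1 / (6 x) = (r / 6) / a`: at most `2 (r / 6)` by `sum_log_sq` (`y = r / 6`);
`r / 6 < a ≤ r / 4`: at most `r / 12 + 1` terms, each `≤ 0.1202`; `r / 4 < a ≤ r / 3`: at most `r / 12 + 1` terms, each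
`≤ 0.3018`; `r / 3 < a < r / 2`: at most `r / 6 + 1` terms, each `≤ 0.4805`.  Total for the half:
`r / 3 + (0.1202 + 0.3018) (r / 12 + 1) + 0.4805 (r / 6 + 1) ≤ 0.44859 r + 0.9025`; twice this is at most `0.8975 r + 2`
(`2 / 3 + 0.844 / 12 + 0.961 / 6 = 0.897167`).
-/

namespace AKW

private theorem val_cast_of_lt {r : ℕ} {a : ℕ} (h : a < r) : ((a : ℕ) : ZMod r).val = a :=
  ZMod.val_cast_of_lt h

private theorem S1_eq {r : ℕ} [Fact r.Prime] :
    S1 r = ∑ a ∈ Finset.Ioc 0 (r - 1), hz r ((a : ℕ) : ZMod r) ^ 2 := by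
  have hr : r.Prime := Fact.out
  have : NeZero r := ⟨hr.ne_zero⟩
  unfold S1
  refine Finset.sum_bij (fun u _ => (u : ZMod r).val) ?_ ?_ ?_ ?_
  · intro u _
    have h1 := ZMod.val_lt (u : ZMod r)
    have h2 : (u : ZMod r).val ≠ 0 := by
      rw [Ne, ZMod.val_eq_zero]
      exact u.ne_zero
    simp only [Finset.mem_Ioc]
    omega
  · intro u _ v _ h
    exact Units.ext (ZMod.val_injective r h)
  · intro a ha
    simp only [Finset.mem_Ioc] at ha
    have hv : ((a : ℕ) : ZMod r).val = a := val_cast_of_lt (by omega)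
    have hne : ((a : ℕ) : ZMod r) ≠ 0 := by
      intro h
      rw [h, ZMod.val_zero] at hv
      omega
    exact ⟨Units.mk0 _ hne, Finset.mem_univ _, hv⟩
  · intro u _
    rw [ZMod.natCast_zmod_val]

private theorem S1_half {r d : ℕ} [Fact r.Prime] (hd : r = 2 * d + 1) :
    S1 r = 2 * ∑ a ∈ Finset.Ioc 0 d, hz r ((a : ℕ) : ZMod r) ^ 2 := by
  rw [S1_eq, show r - 1 = 2 * d by omega, ← Finset.sum_Ioc_consecutive _ (Nat.zero_le d)
    (show d ≤ 2 * d by omega)]
  suffices h : ∑ a ∈ Finset.Ioc d (2 * d), hz r ((a : ℕ) : ZMod r) ^ 2 =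
      ∑ a ∈ Finset.Ioc 0 d, hz r ((a : ℕ) : ZMod r) ^ 2 by
    rw [h]
    ring
  refine Finset.sum_bij (fun a _ => r - a) ?_ ?_ ?_ ?_
  · intro a ha
    simp only [Finset.mem_Ioc] at ha ⊢
    omega
  · intro a ha b hb h
    simp only [Finset.mem_Ioc] at ha hb
    omega
  · intro b hb
    simp only [Finset.mem_Ioc] at hb
    exact ⟨r - b, by simp only [Finset.mem_Ioc]; omega, by omega⟩
  · intro a ha
    simp only [Finset.mem_Ioc] at ha
    rw [Nat.cast_sub (by omega), ZMod.natCast_self, zero_sub, hz_neg]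

private theorem hz_sq {r a : ℕ} (h : a < r) :
    hz r ((a : ℕ) : ZMod r) ^ 2 = Real.log |2 * Real.sin (Real.pi * ((a : ℝ) / r))| ^ 2 := by
  unfold hz
  rw [val_cast_of_lt h, mul_div_assoc]

theorem S1_le {r : ℕ} [Fact r.Prime] (hr2 : r ≠ 2) : S1 r ≤ 0.8975 * r + 2 := by
  have hr : r.Prime := Fact.out
  have hodd := hr.odd_of_ne_two hr2
  obtain ⟨d, hd⟩ := hodd
  have hrpos : (0 : ℝ) < r := by exact_mod_cast hr.pos
  have hdR : (r : ℝ) = 2 * d + 1 := by exact_mod_cast hd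
  have hr3 : 3 ≤ r := by have := hr.two_le; omega
  set d6 := r / 6 with hd6
  set d4 := r / 4 with hd4
  set d3 := r / 3 with hd3
  have e6 : (r : ℝ) ≤ 6 * d6 + 5 := by
    have : r ≤ 6 * d6 + 5 := by omega
    exact_mod_cast this
  have e6' : 6 * (d6 : ℝ) ≤ r := by
    have : 6 * d6 ≤ r := by omega
    exact_mod_cast this
  have e4 : (r : ℝ) ≤ 4 * d4 + 3 := by
    have : r ≤ 4 * d4 + 3 := by omega
    exact_mod_cast this
  have e4' : 4 * (d4 : ℝ) ≤ r := by
    have : 4 * d4 ≤ r := by omega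
    exact_mod_cast this
  have e3 : (r : ℝ) ≤ 3 * d3 + 2 := by
    have : r ≤ 3 * d3 + 2 := by omega
    exact_mod_cast this
  have e3' : 3 * (d3 : ℝ) ≤ r := by
    have : 3 * d3 ≤ r := by omega
    exact_mod_cast this
  have h64 : d6 ≤ d4 := by omega
  have h43 : d4 ≤ d3 := by omega
  have h3d : d3 ≤ d := by omega
  rw [S1_half hd, ← Finset.sum_Ioc_consecutive _ (Nat.zero_le d3) h3d,
    ← Finset.sum_Ioc_consecutive _ (Nat.zero_le d4) h43,
    ← Finset.sum_Ioc_consecutive _ (Nat.zero_le d6) h64]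
  have b1 : ∑ a ∈ Finset.Ioc 0 d6, hz r ((a : ℕ) : ZMod r) ^ 2 ≤ 2 * ((r : ℝ) / 6) := by
    have hfl : ⌊(r : ℝ) / 6⌋₊ = d6 := by
      rw [hd6]
      exact_mod_cast Nat.floor_div_eq_div (K := ℝ) r 6
    have h := sum_log_sq (y := (r : ℝ) / 6) (by positivity)
    rw [hfl] at h
    refine le_trans ?_ h
    have hI : Finset.Ioc 0 d6 = Finset.Icc 1 d6 := by
      ext x
      simp only [Finset.mem_Ioc, Finset.mem_Icc]
      omega
    rw [hI]
    refine Finset.sum_le_sum fun a ha => ?_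
    simp only [Finset.mem_Icc] at ha
    have ha1 : (1 : ℝ) ≤ a := by exact_mod_cast ha.1
    have ha2 : (a : ℝ) ≤ d6 := by exact_mod_cast ha.2
    rw [hz_sq (by omega)]
    refine (log_sin_sq_a (x := (a : ℝ) / r) (by positivity) ?_).trans ?_
    · rw [div_le_iff₀ hrpos]
      linarith
    · have : 1 / (6 * ((a : ℝ) / r)) = (r : ℝ) / 6 / a := by
        field_simp
      rw [this]
  have b2 : ∑ a ∈ Finset.Ioc d6 d4, hz r ((a : ℕ) : ZMod r) ^ 2 ≤ ((d4 : ℝ) - d6) * 0.1202 := by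
    have : ∑ a ∈ Finset.Ioc d6 d4, hz r ((a : ℕ) : ZMod r) ^ 2 ≤
        ∑ a ∈ Finset.Ioc d6 d4, (0.1202 : ℝ) := by
      refine Finset.sum_le_sum fun a ha => ?_
      simp only [Finset.mem_Ioc] at ha
      have ha1 : (r : ℝ) ≤ 6 * a := by
        have : r ≤ 6 * a := by omega
        exact_mod_cast this
      have ha2 : (a : ℝ) ≤ d4 := by exact_mod_cast ha.2
      rw [hz_sq (by omega)]
      refine log_sin_sq_b ?_ ?_
      · rw [le_div_iff₀ hrpos]
        linarith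
      · rw [div_le_iff₀ hrpos]
        linarith
    rw [Finset.sum_const, Nat.card_Ioc, nsmul_eq_mul, Nat.cast_sub h64] at this
    exact this
  have b3 : ∑ a ∈ Finset.Ioc d4 d3, hz r ((a : ℕ) : ZMod r) ^ 2 ≤ ((d3 : ℝ) - d4) * 0.3018 := by
    have : ∑ a ∈ Finset.Ioc d4 d3, hz r ((a : ℕ) : ZMod r) ^ 2 ≤
        ∑ a ∈ Finset.Ioc d4 d3, (0.3018 : ℝ) := by
      refine Finset.sum_le_sum fun a ha => ?_
      simp only [Finset.mem_Ioc] at ha
      have ha1 : (r : ℝ) ≤ 6 * a := by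
        have : r ≤ 6 * a := by omega
        exact_mod_cast this
      have ha2 : (a : ℝ) ≤ d3 := by exact_mod_cast ha.2
      rw [hz_sq (by omega)]
      refine log_sin_sq_c ?_ ?_
      · rw [le_div_iff₀ hrpos]
        linarith
      · rw [div_le_iff₀ hrpos]
        linarith
    rw [Finset.sum_const, Nat.card_Ioc, nsmul_eq_mul, Nat.cast_sub h43] at this
    exact this
  have b4 : ∑ a ∈ Finset.Ioc d3 d, hz r ((a : ℕ) : ZMod r) ^ 2 ≤ ((d : ℝ) - d3) * 0.4805 := by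
    have : ∑ a ∈ Finset.Ioc d3 d, hz r ((a : ℕ) : ZMod r) ^ 2 ≤
        ∑ a ∈ Finset.Ioc d3 d, (0.4805 : ℝ) := by
      refine Finset.sum_le_sum fun a ha => ?_
      simp only [Finset.mem_Ioc] at ha
      have ha1 : (r : ℝ) ≤ 6 * a := by
        have : r ≤ 6 * a := by omega
        exact_mod_cast this
      have ha2 : (a : ℝ) ≤ d := by exact_mod_cast ha.2
      rw [hz_sq (by omega)]
      refine log_sin_sq_d ?_ ?_
      · rw [le_div_iff₀ hrpos]
        linarith
      · rw [div_le_iff₀ hrpos]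
        linarith
    rw [Finset.sum_const, Nat.card_Ioc, nsmul_eq_mul, Nat.cast_sub h3d] at this
    exact this
  linarith

end AKW
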