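import Pool.Agent.AKW.Core
import Pool.Agent.AKW.Num
import Pool.Agent.AKW.Sgb

/-!
# AKW, module Final (helper19)
-/

open Polynomial

namespace AKW

theorem log_ge_46 {p : ℕ} (hp20 : 10 ^ 20 ≤ p) : (46 : ℝ) ≤ Real.log p := by
  have h1 : Real.exp 46 ≤ (10 : ℝ) ^ 20 := by
    have e1 : Real.exp 46 = Real.exp 1 ^ 46 := by
      rw [← Real.exp_nat_mul]; norm_num
    rw [e1]
    have e2 : Real.exp 1 ≤ 2.7182818286 := Real.exp_one_lt_d9.le
    calc Real.exp 1 ^ 46 ≤ (2.7182818286 : ℝ) ^ 46 := by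
          apply pow_le_pow_left₀ (Real.exp_pos 1).le e2
      _ ≤ (10 : ℝ) ^ 20 := by norm_num
  have h2 : ((10 : ℝ) ^ 20) ≤ (p : ℝ) := by exact_mod_cast hp20
  rw [Real.le_log_iff_exp_le (lt_of_lt_of_le (by norm_num) h2)]
  exact h1.trans h2

theorem final {n r p i : ℕ} (hr : r.Prime) (hr2 : r ≠ 2) (hn : n.Coprime r) (hp : p.Prime)
    (hpr : p.Coprime r) (hpn : p ∣ n) (hpow : ∀ j : ℕ, n ≠ p ^ j) (hp20 : 10 ^ 20 ≤ p)
    (hi : i = (Subgroup.closure
      {-1, ZMod.unitOfCoprime n hn, ZMod.unitOfCoprime p hpr}).index)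
    (h1 : 6 * i * Real.log (n / p) * Real.log p ≤ r)
    (h2 : i * Real.log (n / p) * r ≤ 12 * Real.log p ^ 3) :
    ¬ ((X ^ r - 1 : (ZMod n)[X]) ∣ (X - 1) ^ n - (X ^ n - 1)) := by
  intro hst
  have : Fact r.Prime := ⟨hr⟩
  have : Fact p.Prime := ⟨hp⟩
  obtain ⟨m, hnm⟩ := hpn
  have hp0 : (p : ℝ) ≠ 0 := by exact_mod_cast hp.ne_zero
  have hn0 : n ≠ 0 := by
    rintro rfl
    rw [Nat.coprime_zero_left] at hn
    exact hr.one_lt.ne' hn
  have hm0 : m ≠ 0 := by rintro rfl; simp at hnm; exact hn0 hnm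
  have hmp : ∀ j, m ≠ p ^ j := by
    intro j hj
    apply hpow (j + 1)
    rw [hnm, hj, pow_succ, mul_comm]
  have hm2 : 2 ≤ m := by
    have h := hmp 0
    rw [pow_zero] at h
    omega
  have hlog : Real.log ((n : ℝ) / p) = Real.log m := by
    rw [hnm]; push_cast
    rw [mul_div_cancel_left₀ _ hp0]
  rw [hlog] at h1 h2
  have hi1 : 1 ≤ i := by
    rw [hi]
    exact Nat.one_le_iff_ne_zero.2 Subgroup.index_ne_zero_of_finite
  have hα : Real.log 2 ≤ Real.log m := Real.log_le_log (by norm_num) (by exact_mod_cast hm2)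
  have hr3 : 3 ≤ r := by
    have := hr.two_le
    omega
  obtain ⟨k, η, N, hk, hη, hN, hB, hN2, hlast⟩ :=
    num (log_ge_46 hp20) hα hi1 hr3 (hr.odd_of_ne_two hr2) h1 h2 (S1_le hr2)
  have hp2 : 2 < p := lt_of_lt_of_le (by norm_num) hp20
  have hlp : Real.log (p / 2) = Real.log p - Real.log 2 := Real.log_div hp0 (by norm_num)
  rw [← hlp] at hB
  have := core hr2 hn hpr hnm hm2 hmp hp2 hst hi hk hN hB hN2
  exact absurd this (not_le.2 hlast)

end AKW
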