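import Pool.Agent.AKW.Defs

/-!
# AKW, module Sgn: values of `CS` at powers of an `r`-th root of unity (helper19)

PROOFS.
* `pow_congr`: `u ≡ v` modulo `r` (`ZMod.natCast_eq_natCast_iff`), `x ^ r = 1` (`pow_mod_orderOf`-like, or write
  `max = min + r k`).
* `aeval_neg`: factor by factor.  With `d = (r - 1) / 2`, `2 d + 1 = r`: `x ^ u x ^ v = 1`, so with `y = x ^ v`,
  `x ^ u = y⁻¹` and `y⁻¹ ^ (d j) (y⁻¹ ^ j - 1) = - y ^ (d j) (y ^ j - 1)`, because
  `y⁻¹ ^ (d j) (y⁻¹ ^ j - 1) = y⁻¹ ^ (d j + j) (1 - y ^ j)` and `y ^ (2 d j + j) = (y ^ r) ^ j = 1`.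
* `aeval_ne_zero`: `z ^ a` is a primitive `r`-th root of unity and `r ∤ j` for `1 ≤ j ≤ d`.
* `pow_E`: let `c = aeval (z ^ a) (CS r S)`, `x = z ^ a`.  `c ^ u = aeval (x ^ u) (CS r S)`, `c ^ v = aeval (x ^ v) (CS r S)`;
  these are equal (`pow_congr`) or equal up to the sign `(-1) ^ S.card` (`aeval_neg`), so `c ^ (2 u) = c ^ (2 v)`;
  `c ≠ 0`, so `c ^ (2 (u - v)) = 1`.
-/

open Polynomial

namespace AKW

variable {r : ℕ} {F : Type} [Field F]

theorem pow_congr {x : F} (hx : x ^ r = 1) {u v : ℕ} (h : (u : ZMod r) = (v : ZMod r)) :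
    x ^ u = x ^ v := by
  have h1 : u % r = v % r := (ZMod.natCast_eq_natCast_iff u v r).1 h
  rw [pow_eq_pow_mod u hx, pow_eq_pow_mod v hx, h1]

private theorem aeval_Lam (x : F) (j : ℕ) :
    aeval x (Lam r j) = x ^ ((r - 1) / 2 * j) * (x ^ j - 1) := by
  simp [Lam]

private theorem aeval_CS (x : F) (S : Finset ℕ) :
    aeval x (CS r S) = ∏ j ∈ S, (x ^ ((r - 1) / 2 * j) * (x ^ j - 1)) := by
  unfold CS
  rw [map_prod]
  exact Finset.prod_congr rfl fun j _ => aeval_Lam x j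

private theorem lam_neg {d j : ℕ} {a b : F} (hab : a * b = 1) (hb : b ^ (2 * d + 1) = 1) :
    a ^ (d * j) * (a ^ j - 1) = -1 * (b ^ (d * j) * (b ^ j - 1)) := by
  have hb0 : b ≠ 0 := by
    rintro rfl
    simp at hab
  have h1 : b ^ (d * j + j) ≠ 0 := pow_ne_zero _ hb0
  apply mul_right_cancel₀ h1
  have e1 : a ^ (d * j + j) * b ^ (d * j + j) = 1 := by rw [← mul_pow, hab, one_pow]
  have e2 : a ^ (d * j) * b ^ (d * j) = 1 := by rw [← mul_pow, hab, one_pow]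
  have e3 : b ^ (d * j) * b ^ (d * j + j) = 1 := by
    rw [← pow_add]
    have : d * j + (d * j + j) = (2 * d + 1) * j := by ring
    rw [this, pow_mul, hb, one_pow]
  have e4 : a ^ (d * j) * (a ^ j - 1) * b ^ (d * j + j) =
      a ^ (d * j + j) * b ^ (d * j + j) - a ^ (d * j) * b ^ (d * j) * b ^ j := by
    rw [pow_add, pow_add]
    ring
  have e5 : -1 * (b ^ (d * j) * (b ^ j - 1)) * b ^ (d * j + j) =
      -(b ^ (d * j) * b ^ (d * j + j)) * (b ^ j - 1) := by ring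
  rw [e4, e5, e1, e2, e3]
  ring

theorem aeval_neg (hr : Odd r) {x : F} (hx : x ^ r = 1) {u v : ℕ}
    (h : (u : ZMod r) = -(v : ZMod r)) (S : Finset ℕ) :
    aeval (x ^ u) (CS r S) = (-1) ^ S.card * aeval (x ^ v) (CS r S) := by
  obtain ⟨d, hd⟩ := hr
  have hd2 : (r - 1) / 2 = d := by omega
  have h1 : x ^ u * x ^ v = 1 := by
    rw [← pow_add]
    have h2 : ((u + v : ℕ) : ZMod r) = ((0 : ℕ) : ZMod r) := by
      push_cast
      rw [h]
      ring
    rw [pow_congr hx h2, pow_zero]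
  have h3 : (x ^ v) ^ (2 * d + 1) = 1 := by
    rw [← hd, ← pow_mul, mul_comm, pow_mul, hx, one_pow]
  rw [aeval_CS, aeval_CS, ← Finset.prod_const, ← Finset.prod_mul_distrib, hd2]
  exact Finset.prod_congr rfl fun j _ => lam_neg h1 h3

theorem aeval_ne_zero (hr : r.Prime) {z : F} (hz : IsPrimitiveRoot z r) {S : Finset ℕ}
    (hS : S ⊆ Finset.Icc 1 ((r - 1) / 2)) (a : (ZMod r)ˣ) :
    aeval (z ^ (a : ZMod r).val) (CS r S) ≠ 0 := by
  have hw : IsPrimitiveRoot (z ^ (a : ZMod r).val) r :=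
    hz.pow_of_coprime _ (ZMod.val_coe_unit_coprime a)
  rw [aeval_CS, Finset.prod_ne_zero_iff]
  intro j hj
  have h1 := Finset.mem_Icc.1 (hS hj)
  have h2 := hr.two_le
  refine mul_ne_zero (pow_ne_zero _ (hw.ne_zero (by omega))) ?_
  exact sub_ne_zero.2 (hw.pow_ne_one_of_pos_of_lt (by omega) (by omega))

theorem pow_E (hr : r.Prime) (hr2 : r ≠ 2) {z : F} (hz : IsPrimitiveRoot z r) {u v : ℕ}
    (hu : Intro r F u) (hv : Intro r F v)
    (huv : (u : ZMod r) = (v : ZMod r) ∨ (u : ZMod r) = -(v : ZMod r)) (hlt : v < u)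
    {S : Finset ℕ} (hS : S ⊆ Finset.Icc 1 ((r - 1) / 2)) (a : (ZMod r)ˣ) :
    (aeval (z ^ (a : ZMod r).val) (CS r S)) ^ (2 * (u - v)) = 1 := by
  have hc := aeval_ne_zero hr hz hS a
  have hx : (z ^ (a : ZMod r).val) ^ r = 1 := by
    rw [← pow_mul, mul_comm, pow_mul, hz.pow_eq_one, one_pow]
  have h1 := hu _ hx S
  have h2 := hv _ hx S
  generalize hcc : aeval (z ^ (a : ZMod r).val) (CS r S) = c at *
  have h3 : c ^ (2 * u) = c ^ (2 * v) := by
    rw [mul_comm 2 u, mul_comm 2 v, pow_mul, pow_mul, h1, h2]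
    rcases huv with h | h
    · rw [pow_congr hx h]
    · rw [aeval_neg (hr.odd_of_ne_two hr2) hx h S, mul_pow, ← pow_mul, mul_comm S.card 2, pow_mul,
        neg_one_sq, one_pow, one_mul]
  have h4 : c ^ (2 * v) * c ^ (2 * (u - v)) = c ^ (2 * v) * 1 := by
    rw [← pow_add, mul_one, ← h3]
    congr 1
    omega
  exact mul_left_cancel₀ (pow_ne_zero _ hc) h4

end AKW
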