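import Mathlib

/-!
# AKW, module Spn: the subgroup generated by `-1, n, p` (helper19)

PROOFS.
* `mem_span`: `Subgroup.closure_induction`: `-1` (`a = b = 0`), `n`, `p`, `1`, products; the inverse of `h` is a power
  of `h` (finite group: `h⁻¹ = h ^ (orderOf h - 1)`), and the set of the `h` with the property is closed under products.
* `span_eq`: `n = p * m`; each generator of one group is in the other (`unit n = unit p * unit m`).
-/

namespace AKW

/-- up to sign a product of powers of `n` and `p` -/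
private def IsP (r n p : ℕ) (h : (ZMod r)ˣ) : Prop :=
  ∃ a b : ℕ, (h : ZMod r) = ((n ^ a * p ^ b : ℕ) : ZMod r) ∨
      (h : ZMod r) = -((n ^ a * p ^ b : ℕ) : ZMod r)

private theorem isP_one (r n p : ℕ) : IsP r n p 1 := ⟨0, 0, Or.inl (by simp)⟩

private theorem isP_mul {r n p : ℕ} {x y : (ZMod r)ˣ} (hx : IsP r n p x) (hy : IsP r n p y) :
    IsP r n p (x * y) := by
  obtain ⟨a, b, hx⟩ := hx
  obtain ⟨c, d, hy⟩ := hy
  refine ⟨a + c, b + d, ?_⟩
  have e : ((n ^ (a + c) * p ^ (b + d) : ℕ) : ZMod r) =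
      ((n ^ a * p ^ b : ℕ) : ZMod r) * ((n ^ c * p ^ d : ℕ) : ZMod r) := by
    push_cast
    ring
  rw [e, Units.val_mul]
  rcases hx with hx | hx <;> rcases hy with hy | hy <;> rw [hx, hy]
  · exact Or.inl rfl
  · exact Or.inr (by ring)
  · exact Or.inr (by ring)
  · exact Or.inl (by ring)

private theorem isP_pow {r n p : ℕ} {x : (ZMod r)ˣ} (hx : IsP r n p x) (k : ℕ) :
    IsP r n p (x ^ k) := by
  induction k with
  | zero => rw [pow_zero]; exact isP_one r n p
  | succ k ih => rw [pow_succ]; exact isP_mul ih hx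

private theorem isP_inv {r n p : ℕ} [Fact r.Prime] {x : (ZMod r)ˣ} (hx : IsP r n p x) :
    IsP r n p x⁻¹ := by
  have h1 : x⁻¹ = x ^ (orderOf x - 1) := by
    rw [inv_eq_iff_mul_eq_one, ← pow_succ', Nat.sub_add_cancel (orderOf_pos x), pow_orderOf_eq_one]
  rw [h1]
  exact isP_pow hx _

theorem mem_span {r n p : ℕ} [Fact r.Prime] (hn : n.Coprime r) (hp : p.Coprime r) {h : (ZMod r)ˣ}
    (hh : h ∈ Subgroup.closure {-1, ZMod.unitOfCoprime n hn, ZMod.unitOfCoprime p hp}) :
    ∃ a b : ℕ, (h : ZMod r) = ((n ^ a * p ^ b : ℕ) : ZMod r) ∨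
      (h : ZMod r) = -((n ^ a * p ^ b : ℕ) : ZMod r) := by
  have key : IsP r n p h := by
    induction hh using Subgroup.closure_induction with
    | mem x hx =>
      rcases hx with rfl | rfl | rfl
      · exact ⟨0, 0, Or.inr (by simp)⟩
      · exact ⟨1, 0, Or.inl (by simp)⟩
      · exact ⟨0, 1, Or.inl (by simp)⟩
    | one => exact isP_one r n p
    | mul x y _ _ hx hy => exact isP_mul hx hy
    | inv x _ hx => exact isP_inv hx
  exact key

theorem span_eq {r n m p : ℕ} [Fact r.Prime] (hn : n.Coprime r) (hm : m.Coprime r) (hp : p.Coprime r)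
    (hnm : n = p * m) :
    Subgroup.closure {-1, ZMod.unitOfCoprime n hn, ZMod.unitOfCoprime p hp} =
      Subgroup.closure {-1, ZMod.unitOfCoprime m hm, ZMod.unitOfCoprime p hp} := by
  have e : ZMod.unitOfCoprime n hn = ZMod.unitOfCoprime p hp * ZMod.unitOfCoprime m hm := by
    apply Units.ext
    rw [Units.val_mul, ZMod.coe_unitOfCoprime, ZMod.coe_unitOfCoprime, ZMod.coe_unitOfCoprime, hnm,
      Nat.cast_mul]
  apply le_antisymm
  · rw [Subgroup.closure_le]
    rintro x (rfl | rfl | rfl)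
    · exact Subgroup.subset_closure (Or.inl rfl)
    · rw [e]
      exact Subgroup.mul_mem _ (Subgroup.subset_closure (Or.inr (Or.inr rfl)))
        (Subgroup.subset_closure (Or.inr (Or.inl rfl)))
    · exact Subgroup.subset_closure (Or.inr (Or.inr rfl))
  · rw [Subgroup.closure_le]
    rintro x (rfl | rfl | rfl)
    · exact Subgroup.subset_closure (Or.inl rfl)
    · have e' : ZMod.unitOfCoprime m hm =
          (ZMod.unitOfCoprime p hp)⁻¹ * ZMod.unitOfCoprime n hn := by
        rw [e, inv_mul_cancel_left]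
      rw [e']
      exact Subgroup.mul_mem _ (Subgroup.inv_mem _ (Subgroup.subset_closure (Or.inr (Or.inr rfl))))
        (Subgroup.subset_closure (Or.inr (Or.inl rfl)))
    · exact Subgroup.subset_closure (Or.inr (Or.inr rfl))

end AKW
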