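import Pool.Agent.AKW.Intr
import Pool.Agent.AKW.Sgn
import Pool.Agent.AKW.Cnt
import Pool.Agent.AKW.Spn

/-!
# AKW, module Grp: few classes modulo `p` (helper19)

PROOF.  `card_le` with `Γ = (ZMod r)ˣ`, `par S = S.card`, `v S a = aeval (z ^ a.val) (CS r S)`, `E = 2 * (u - v)`.
`h1` is `pow_E`.  `h2`: let `h ∈ H`; by `mem_span`, `h = ± w`, `w = n ^ a' * p ^ b'`, and `Intro r F w` (`intro_np`).  With
`x = z ^ a.val`: `v S (a h) = aeval (z ^ (a * h).val) (CS r S)`; `(a * h).val ≡ ± a.val * w` modulo `r`; if `+`,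
`z ^ (a * h).val = x ^ w` (`pow_congr`) and `v S (a h) = (v S a) ^ w`; if `-`, `v S (a h) = (-1) ^ S.card (v S a) ^ w`
(`aeval_neg` for `z`); `(-1) ^ S.card` only depends on the parity.
-/

open Polynomial

namespace AKW

theorem card_G {n r p : ℕ} [Fact r.Prime] [Fact p.Prime] (hr2 : r ≠ 2) (hn : n.Coprime r)
    (hp : p.Coprime r) (hpn : p ∣ n)
    (hst : (X ^ r - 1 : (ZMod n)[X]) ∣ (X - 1) ^ n - (X ^ n - 1))
    {F : Type} [Field F] [CharP F p] {z : F} (hz : IsPrimitiveRoot z r) {u v : ℕ}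
    (hu : Intro r F u) (hv : Intro r F v)
    (huv : (u : ZMod r) = (v : ZMod r) ∨ (u : ZMod r) = -(v : ZMod r)) (hlt : v < u)
    (G : Finset (Finset ℕ)) (hG : ∀ S ∈ G, S ⊆ Finset.Icc 1 ((r - 1) / 2))
    (h3 : ∀ S ∈ G, ∀ S' ∈ G, (∀ a : (ZMod r)ˣ,
      aeval (z ^ (a : ZMod r).val) (CS r S) = aeval (z ^ (a : ZMod r).val) (CS r S')) → S = S') :
    G.card ≤ 2 * (2 * (u - v)) ^
      (Subgroup.closure {-1, ZMod.unitOfCoprime n hn, ZMod.unitOfCoprime p hp}).index := by
  have hr : r.Prime := Fact.out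
  have hodd : Odd r := hr.odd_of_ne_two hr2
  have hzr : z ^ r = 1 := hz.pow_eq_one
  refine card_le _ G (fun S => S.card) (fun S (a : (ZMod r)ˣ) => aeval (z ^ (a : ZMod r).val) (CS r S))
    (by omega) ?_ ?_ h3
  · intro S hS a
    exact pow_E hr hr2 hz hu hv huv hlt (hG S hS) a
  · intro h hh S _ S' _ hpar a hval
    obtain ⟨a', b', hw⟩ := mem_span hn hp hh
    set w := n ^ a' * p ^ b' with hwd
    have hI : Intro r F w := intro_np hpn hst a' b'
    have hx : (z ^ (a : ZMod r).val) ^ r = 1 := by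
      rw [← pow_mul, mul_comm, pow_mul, hzr, one_pow]
    have hcast : (((a * h : (ZMod r)ˣ) : ZMod r).val : ZMod r) = (a : ZMod r) * (h : ZMod r) := by
      rw [ZMod.natCast_zmod_val, Units.val_mul]
    have hcast2 : (((a : ZMod r).val * w : ℕ) : ZMod r) = (a : ZMod r) * (w : ZMod r) := by
      rw [Nat.cast_mul, ZMod.natCast_zmod_val]
    show aeval (z ^ ((a * h : (ZMod r)ˣ) : ZMod r).val) (CS r S)
      = aeval (z ^ ((a * h : (ZMod r)ˣ) : ZMod r).val) (CS r S')
    rcases hw with hw | hw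
    · have e : z ^ ((a * h : (ZMod r)ˣ) : ZMod r).val = (z ^ (a : ZMod r).val) ^ w := by
        rw [← pow_mul]
        apply pow_congr hzr
        rw [hcast, hcast2, hw]
      rw [e, ← hI _ hx S, ← hI _ hx S']
      show (aeval (z ^ (a : ZMod r).val) (CS r S)) ^ w = _
      rw [show aeval (z ^ (a : ZMod r).val) (CS r S) = aeval (z ^ (a : ZMod r).val) (CS r S') from
        hval]
    · have e : ∀ T : Finset ℕ, aeval (z ^ ((a * h : (ZMod r)ˣ) : ZMod r).val) (CS r T)
          = (-1) ^ T.card * (aeval (z ^ (a : ZMod r).val) (CS r T)) ^ w := by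
        intro T
        rw [hI _ hx T, ← pow_mul]
        apply aeval_neg hodd hzr
        rw [hcast, hcast2, hw, mul_neg]
      rw [e, e]
      have hs : ((-1 : F)) ^ S.card = (-1) ^ S'.card := by
        have hpar' : S.card % 2 = S'.card % 2 := hpar
        rw [neg_one_pow_eq_pow_mod_two, hpar', ← neg_one_pow_eq_pow_mod_two]
      rw [hs, show aeval (z ^ (a : ZMod r).val) (CS r S) = aeval (z ^ (a : ZMod r).val) (CS r S')
        from hval]

end AKW
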