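import Mathlib

/-!
# AKW, module Hex: Minkowski's theorem for a hexagon (helper19)

PROOF of `hexagon` (elementary).  `t = Λ.index ≥ 1`.  For a positive integer `M` let `P_M` be the set of the `(x, y) : ℤ × ℤ` with
`|x α| ≤ M N / 2`, `|y β| ≤ M N / 2`, `|x α + y β| ≤ M N / 2`.  Map `w ∈ P_M` to `(w mod M, class of w div M modulo Λ)`
(componentwise `Int.emod`, `Int.ediv` by `M`): at most `M ^ 2 t` values.  If `P_M` has more than `M ^ 2 t` elements, two different
`w, w'` have the same value: `w - w' = M z` with `z ∈ Λ`, `z ≠ 0`, and `|z.1 α| ≤ N` etc. by the triangle inequality.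
Lower bound for the size of `P_M`: for `|x| α ≤ M N / 2` the `y` form an interval of length `(M N - |x| α) / β` (divided by `β`:
`y β ∈ [-M N / 2, M N / 2 - x α]` for `x ≥ 0`, mirrored for `x < 0`), which contains at least `(M N - |x| α) / β - 1` integers.
With `R = M N / (2 α)`, `q = ⌊R⌋`: the size is at least `(2 q + 1) (M N / β - 1) - (α / β) q (q + 1)`; as `R - 1 < q ≤ R` this is at
least `(3 / 4) M ^ 2 N ^ 2 / (α β) - c M - c'` with constants `c, c'` independent of `M` (`q (q + 1) ≤ R ^ 2 + R`,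
`2 q + 1 ≥ 2 R - 1`), and it is larger than `M ^ 2 t` for large `M` because `3 N ^ 2 > 4 t α β`.
(Alternative: `MeasureTheory.exists_ne_zero_mem_lattice_of_measure_mul_two_pow_lt_measure`.)
-/

namespace AKW

private theorem sum_abs_Icc (q : ℕ) (c d : ℝ) :
    ∑ x ∈ Finset.Icc (-(q : ℤ)) q, (c - d * |(x : ℝ)|) = (2 * q + 1) * c - d * (q * (q + 1)) := by
  induction q with
  | zero => simp
  | succ q ih =>
    have e : Finset.Icc (-((q + 1 : ℕ) : ℤ)) ((q + 1 : ℕ) : ℤ) =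
        insert ((q : ℤ) + 1) (insert (-((q : ℤ) + 1)) (Finset.Icc (-(q : ℤ)) q)) := by
      ext x
      simp only [Finset.mem_Icc, Finset.mem_insert]
      push_cast
      omega
    rw [e, Finset.sum_insert, Finset.sum_insert, ih]
    · have h1 : |(((q : ℤ) + 1 : ℤ) : ℝ)| = q + 1 := by
        push_cast
        exact abs_of_nonneg (by positivity)
      have h2 : |((-((q : ℤ) + 1) : ℤ) : ℝ)| = q + 1 := by
        push_cast
        rw [abs_of_nonpos (by have : (0 : ℝ) ≤ q := Nat.cast_nonneg q; linarith)]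
        ring
      rw [h1, h2]
      push_cast
      ring
    · simp only [Finset.mem_Icc]
      omega
    · simp only [Finset.mem_Icc, Finset.mem_insert]
      omega

private theorem max_abs (a : ℝ) : max 0 a + max 0 (-a) = |a| := by
  rcases le_total 0 a with h | h
  · rw [max_eq_right h, max_eq_left (by linarith), abs_of_nonneg h, add_zero]
  · rw [max_eq_left h, max_eq_right (by linarith), abs_of_nonpos h, zero_add]

/-- lower bound for the number of lattice points of the hexagon of size `H` -/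
private theorem hex_count {α β H : ℝ} (hα : 0 < α) (hβ : 0 < β) (hH : 0 ≤ H) (hH2 : 1 ≤ 2 * H / β) :
    ∃ P : Finset (Σ _ : ℤ, ℤ), (∀ w ∈ P, |(w.1 : ℝ) * α| ≤ H ∧ |(w.2 : ℝ) * β| ≤ H ∧
      |(w.1 : ℝ) * α + (w.2 : ℝ) * β| ≤ H) ∧
      3 * (H / α) * (H / β) - 2 * (H / α) - 3 * (H / β) ≤ P.card := by
  set q := ⌊H / α⌋₊ with hq
  have hq1 : (q : ℝ) ≤ H / α := Nat.floor_le (by positivity)
  have hq2 : H / α < q + 1 := Nat.lt_floor_add_one _
  set l : ℤ → ℝ := fun x => (-H + max 0 (-((x : ℝ) * α))) / β with hl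
  set u : ℤ → ℝ := fun x => (H - max 0 ((x : ℝ) * α)) / β with hu
  refine ⟨(Finset.Icc (-(q : ℤ)) q).sigma (fun x => Finset.Icc ⌈l x⌉ ⌊u x⌋), ?_, ?_⟩
  · rintro ⟨x, y⟩ hw
    simp only [Finset.mem_sigma, Finset.mem_Icc] at hw
    obtain ⟨⟨h1, h2⟩, h3, h4⟩ := hw
    have hy1 : l x ≤ y := Int.ceil_le.mp h3
    have hy2 : (y : ℝ) ≤ u x := Int.le_floor.mp h4
    have hx1 : -(q : ℝ) ≤ x := by exact_mod_cast h1
    have hx2 : (x : ℝ) ≤ q := by exact_mod_cast h2
    rw [hl] at hy1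
    rw [hu] at hy2
    simp only at hy1 hy2
    rw [div_le_iff₀ hβ] at hy1
    rw [le_div_iff₀ hβ] at hy2
    have hqa : (q : ℝ) * α ≤ H := by rwa [le_div_iff₀ hα] at hq1
    have a1 := le_max_left 0 (-((x : ℝ) * α))
    have a2 := le_max_right 0 (-((x : ℝ) * α))
    have a3 := le_max_left 0 ((x : ℝ) * α)
    have a4 := le_max_right 0 ((x : ℝ) * α)
    have hx3 : (x : ℝ) * α ≤ q * α := mul_le_mul_of_nonneg_right hx2 hα.le
    have hx4 : -(q : ℝ) * α ≤ (x : ℝ) * α := mul_le_mul_of_nonneg_right hx1 hα.le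
    refine ⟨abs_le.mpr ⟨by linarith, by linarith⟩, abs_le.mpr ⟨by linarith, by linarith⟩,
      abs_le.mpr ⟨by linarith, by linarith⟩⟩
  · rw [Finset.card_sigma]
    push_cast
    have h1 : ∀ x ∈ Finset.Icc (-(q : ℤ)) q, (2 * H / β - 1) - α / β * |(x : ℝ)| ≤
        ((Finset.Icc ⌈l x⌉ ⌊u x⌋).card : ℝ) := by
      intro x _
      rw [Int.card_Icc]
      have h2 : ((⌊u x⌋ + 1 - ⌈l x⌉ : ℤ) : ℝ) ≤ ((⌊u x⌋ + 1 - ⌈l x⌉).toNat : ℝ) := by
        exact_mod_cast Int.self_le_toNat _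
      have h3 : u x - 1 < ⌊u x⌋ := Int.sub_one_lt_floor _
      have h4 : (⌈l x⌉ : ℝ) < l x + 1 := Int.ceil_lt_add_one _
      have h5 : u x - l x = 2 * H / β - α / β * |(x : ℝ)| := by
        rw [hl, hu]
        simp only
        have h6 := max_abs ((x : ℝ) * α)
        rw [abs_mul, abs_of_pos hα] at h6
        rw [← sub_div, show H - max 0 ((x : ℝ) * α) - (-H + max 0 (-((x : ℝ) * α))) =
          2 * H - (max 0 ((x : ℝ) * α) + max 0 (-((x : ℝ) * α))) by ring, h6]
        ring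
      push_cast at h2
      linarith
    refine le_trans ?_ (Finset.sum_le_sum h1)
    rw [sum_abs_Icc]
    set a := H / α with ha
    set b := H / β with hb
    have hb2 : 2 * H / β = 2 * b := by rw [hb]; ring
    have hab : α / β * a = b := by rw [ha, hb]; field_simp
    have ha0 : 0 ≤ a := by positivity
    have hb0 : 0 ≤ b := by positivity
    have hc : 0 ≤ α / β := by positivity
    rw [hb2] at hH2 ⊢
    have hq0 : (0 : ℝ) ≤ q := Nat.cast_nonneg q
    have k1 : (2 * a - 1) * (2 * b - 1) ≤ (2 * q + 1) * (2 * b - 1) :=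
      mul_le_mul_of_nonneg_right (by linarith) (by linarith)
    have k2 : α / β * (q * (q + 1)) ≤ α / β * (a * (a + 1)) := by
      refine mul_le_mul_of_nonneg_left ?_ hc
      exact mul_le_mul hq1 (by linarith) (by linarith) ha0
    have k3 : α / β * (a * (a + 1)) = b * a + b := by
      calc α / β * (a * (a + 1)) = (α / β * a) * a + α / β * a := by ring
        _ = b * a + b := by rw [hab]
    nlinarith

theorem hexagon (Λ : AddSubgroup (ℤ × ℤ)) (hΛ : Λ.index ≠ 0) {α β N : ℝ} (hα : 0 < α) (hβ : 0 < β)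
    (hN : 0 ≤ N) (h : 4 * (Λ.index : ℝ) * α * β < 3 * N ^ 2) :
    ∃ x ∈ Λ, x ≠ 0 ∧ |(x.1 : ℝ) * α| ≤ N ∧ |(x.2 : ℝ) * β| ≤ N ∧
      |(x.1 : ℝ) * α + (x.2 : ℝ) * β| ≤ N := by
  classical
  have hNpos : 0 < N := by
    rcases hN.lt_or_eq with h1 | h1
    · exact h1
    · rw [← h1] at h
      have : 0 ≤ 4 * (Λ.index : ℝ) * α * β := by positivity
      norm_num at h
      linarith
  have hδ : 0 < 3 * N ^ 2 / (4 * α * β) - Λ.index := by
    rw [sub_pos, lt_div_iff₀ (by positivity)]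
    linarith
  set δ := 3 * N ^ 2 / (4 * α * β) - Λ.index with hδd
  obtain ⟨M, hM⟩ := exists_nat_gt (max (β / N) ((N / α + 3 * N / (2 * β)) / δ))
  have hM1 : β / N < M := lt_of_le_of_lt (le_max_left _ _) hM
  have hM2 : (N / α + 3 * N / (2 * β)) / δ < M := lt_of_le_of_lt (le_max_right _ _) hM
  have hM0 : (0 : ℝ) < M := lt_of_le_of_lt (by positivity) hM1
  have hM0' : 0 < M := by exact_mod_cast hM0
  set H : ℝ := M * N / 2 with hH
  have hHn : 0 ≤ H := by positivity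
  obtain ⟨P, hP, hPc⟩ := hex_count (α := α) (β := β) (H := H) hα hβ hHn (by
    rw [le_div_iff₀ hβ, hH]
    rw [div_lt_iff₀ hNpos] at hM1
    linarith)
  haveI : Λ.FiniteIndex := ⟨hΛ⟩
  haveI : Finite ((ℤ × ℤ) ⧸ Λ) := inferInstance
  haveI := Fintype.ofFinite ((ℤ × ℤ) ⧸ Λ)
  have hidx : Λ.index = Fintype.card ((ℤ × ℤ) ⧸ Λ) := by
    rw [AddSubgroup.index, Nat.card_eq_fintype_card]
  set T : Finset ((ℕ × ℕ) × ((ℤ × ℤ) ⧸ Λ)) := (Finset.range M ×ˢ Finset.range M) ×ˢ Finset.univ with hT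
  have hTc : T.card = M * M * Λ.index := by
    rw [hT, Finset.card_product, Finset.card_product, Finset.card_range, Finset.card_univ, hidx]
  have hlt : T.card < P.card := by
    have h1 : (T.card : ℝ) < P.card := by
      refine lt_of_lt_of_le ?_ hPc
      rw [hTc]
      push_cast
      have e1 : 3 * (H / α) * (H / β) = M ^ 2 * (3 * N ^ 2 / (4 * α * β)) := by
        rw [hH]; field_simp; ring
      have e2 : 2 * (H / α) + 3 * (H / β) = M * (N / α + 3 * N / (2 * β)) := by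
        rw [hH]; field_simp
      have e3 : M * (N / α + 3 * N / (2 * β)) < M * (M * δ) := by
        refine mul_lt_mul_of_pos_left ?_ hM0
        rwa [div_lt_iff₀ hδ] at hM2
      have e4 : (M : ℝ) * (M * δ) = M ^ 2 * (3 * N ^ 2 / (4 * α * β)) - M * M * Λ.index := by
        rw [hδd]; ring
      linarith
    exact_mod_cast h1
  set f : (Σ _ : ℤ, ℤ) → (ℕ × ℕ) × ((ℤ × ℤ) ⧸ Λ) := fun w =>
    (((w.1 % (M : ℤ)).toNat, (w.2 % (M : ℤ)).toNat), ((w.1 / (M : ℤ), w.2 / (M : ℤ)) : ℤ × ℤ)) with hf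
  have hMz : (0 : ℤ) < M := by exact_mod_cast hM0'
  have hmaps : ∀ w ∈ P, f w ∈ T := by
    intro w _
    rw [hT, hf]
    simp only [Finset.mem_product, Finset.mem_range, Finset.mem_univ, and_true]
    have a1 := Int.emod_nonneg w.1 hMz.ne'
    have a2 := Int.emod_lt_of_pos w.1 hMz
    have a3 := Int.emod_nonneg w.2 hMz.ne'
    have a4 := Int.emod_lt_of_pos w.2 hMz
    omega
  obtain ⟨w, hw, w', hw', hne, heq⟩ := Finset.exists_ne_map_eq_of_card_lt_of_maps_to hlt hmaps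
  rw [hf] at heq
  simp only [Prod.mk.injEq] at heq
  obtain ⟨⟨h1, h2⟩, h3⟩ := heq
  have a1 := Int.emod_nonneg w.1 hMz.ne'
  have a3 := Int.emod_nonneg w.2 hMz.ne'
  have a1' := Int.emod_nonneg w'.1 hMz.ne'
  have a3' := Int.emod_nonneg w'.2 hMz.ne'
  have h1' : w.1 % (M : ℤ) = w'.1 % M := by omega
  have h2' : w.2 % (M : ℤ) = w'.2 % M := by omega
  have b1 := Int.emod_add_mul_ediv w.1 M
  have b2 := Int.emod_add_mul_ediv w.2 M
  have b1' := Int.emod_add_mul_ediv w'.1 M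
  have b2' := Int.emod_add_mul_ediv w'.2 M
  have c1 : (M : ℤ) * (w'.1 / M - w.1 / M) = w'.1 - w.1 := by rw [mul_sub]; linarith
  have c2 : (M : ℤ) * (w'.2 / M - w.2 / M) = w'.2 - w.2 := by rw [mul_sub]; linarith
  have hz := QuotientAddGroup.eq.mp h3
  refine ⟨(w'.1 / M - w.1 / M, w'.2 / M - w.2 / M), ?_, ?_, ?_⟩
  · convert hz using 1
    ext
    · simp; ring
    · simp; ring
  · intro h0
    rw [Prod.mk_eq_zero] at h0
    rw [h0.1, mul_zero] at c1
    rw [h0.2, mul_zero] at c2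
    apply hne
    have e1 : w.1 = w'.1 := by linarith
    have e2 : w.2 = w'.2 := by linarith
    exact Sigma.ext e1 (heq_of_eq e2)
  · have d1 : (M : ℝ) * ((w'.1 / M - w.1 / M : ℤ) : ℝ) = w'.1 - w.1 := by exact_mod_cast c1
    have d2 : (M : ℝ) * ((w'.2 / M - w.2 / M : ℤ) : ℝ) = w'.2 - w.2 := by exact_mod_cast c2
    set z1 := ((w'.1 / M - w.1 / M : ℤ) : ℝ)
    set z2 := ((w'.2 / M - w.2 / M : ℤ) : ℝ)
    obtain ⟨p1, p2, p3⟩ := hP w hw
    obtain ⟨p1', p2', p3'⟩ := hP w' hw'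
    have key : ∀ r s s' : ℝ, M * r = s' - s → |s| ≤ H → |s'| ≤ H → |r| ≤ N := by
      intro r s s' e hs hs'
      have e1 : (M : ℝ) * |r| ≤ M * N := by
        calc (M : ℝ) * |r| = |M * r| := by rw [abs_mul, abs_of_pos hM0]
          _ = |s' - s| := by rw [e]
          _ ≤ |s'| + |s| := abs_sub _ _
          _ ≤ H + H := add_le_add hs' hs
          _ = M * N := by rw [hH]; ring
      exact le_of_mul_le_mul_left e1 hM0
    refine ⟨key _ _ _ ?_ p1 p1', key _ _ _ ?_ p2 p2', key _ _ _ ?_ p3 p3'⟩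
    · linear_combination α * d1
    · linear_combination β * d2
    · linear_combination α * d1 + β * d2

end AKW
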