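import Pool.Agent.AKW.Defs

/-!
# AKW, module Intr: introspective numbers (helper19)

PROOFS.  `F` is a field of characteristic `p`.
* `star_eval`: `p ∣ n` gives a ring homomorphism `ZMod n → F` (`ZMod.castHom` to `ZMod p`, then
  `ZMod.castHom dvd_rfl F` or `ZMod.lift`/`algebraMap`), evaluate the divisibility at `x` (`eval₂`).
* `intro_p`: `aeval x P ^ p = aeval (x ^ p) P` for every integer polynomial `P` in characteristic `p`
  (Frobenius; e.g. `frobenius F p` is a ring homomorphism which fixes the integers, `Polynomial.hom_eval₂`,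
  or expand the product and use `sub_pow_char`).
* `intro_n`: product; `(x ^ (d j)) ^ n = (x ^ n) ^ (d j)`, `(x ^ j - 1) ^ n = (x ^ j) ^ n - 1` by `star_eval` for
  `x ^ j` (`(x ^ j) ^ r = 1`).
* `intro_m`: `((aeval x C) ^ m) ^ p = (aeval x C) ^ n = aeval (x ^ n) C = aeval ((x ^ m) ^ p) C =
  (aeval (x ^ m) C) ^ p`, and `y ↦ y ^ p` is injective (`frobenius_inj`).
* the others: induction with `Intro.mul`, `Intro.one`.
-/

open Polynomial

namespace AKW

variable {r n m p : ℕ} {F : Type} [Field F]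

theorem star_eval [Fact p.Prime] [CharP F p] (hpn : p ∣ n)
    (hst : (X ^ r - 1 : (ZMod n)[X]) ∣ (X - 1) ^ n - (X ^ n - 1)) {x : F} (hx : x ^ r = 1) :
    (x - 1) ^ n = x ^ n - 1 := by
  let φ : ZMod n →+* F := (ZMod.castHom (dvd_refl p) F).comp (ZMod.castHom hpn (ZMod p))
  obtain ⟨q, hq⟩ := hst
  have h := congrArg (eval₂RingHom φ x) hq
  simp only [map_sub, map_mul, map_pow, map_one, coe_eval₂RingHom, eval₂_X, hx, sub_self,
    zero_mul] at h
  exact sub_eq_zero.1 h

theorem Intro.one : Intro r F 1 := by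
  intro x _ S
  rw [pow_one, pow_one]

theorem Intro.mul {u v : ℕ} (hu : Intro r F u) (hv : Intro r F v) : Intro r F (u * v) := by
  intro x hx S
  have h1 : (x ^ u) ^ r = 1 := by rw [← pow_mul, mul_comm, pow_mul, hx, one_pow]
  rw [pow_mul, hu x hx S, hv (x ^ u) h1 S, ← pow_mul]

theorem Intro.pow {u : ℕ} (hu : Intro r F u) (a : ℕ) : Intro r F (u ^ a) := by
  induction a with
  | zero =>
    rw [pow_zero]
    exact Intro.one
  | succ a ih =>
    rw [pow_succ]
    exact ih.mul hu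

theorem intro_p [Fact p.Prime] [CharP F p] : Intro r F p := by
  intro x _ S
  have h := hom_eval₂ (CS r S) (algebraMap ℤ F) (frobenius F p) x
  have h1 : (frobenius F p).comp (algebraMap ℤ F) = algebraMap ℤ F := RingHom.ext_int _ _
  rw [h1, frobenius_def, frobenius_def] at h
  exact h

theorem intro_n [Fact p.Prime] [CharP F p] (hpn : p ∣ n)
    (hst : (X ^ r - 1 : (ZMod n)[X]) ∣ (X - 1) ^ n - (X ^ n - 1)) : Intro r F n := by
  intro x hx S
  have h0 : ∀ y : F, aeval y (CS r S) = ∏ j ∈ S, y ^ ((r - 1) / 2 * j) * (y ^ j - 1) := by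
    intro y
    unfold CS Lam
    simp only [map_prod, map_mul, map_pow, map_sub, map_one, aeval_X]
  rw [h0, h0, ← Finset.prod_pow]
  refine Finset.prod_congr rfl fun j _ => ?_
  have h1 : (x ^ j) ^ r = 1 := by rw [← pow_mul, mul_comm, pow_mul, hx, one_pow]
  rw [mul_pow, star_eval hpn hst h1, ← pow_mul, ← pow_mul, ← pow_mul, ← pow_mul,
    mul_comm n, mul_comm n]

theorem intro_m [Fact p.Prime] [CharP F p] (hnm : n = p * m)
    (hst : (X ^ r - 1 : (ZMod n)[X]) ∣ (X - 1) ^ n - (X ^ n - 1)) : Intro r F m := by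
  intro x hx S
  have h1 : (x ^ m) ^ r = 1 := by rw [← pow_mul, mul_comm, pow_mul, hx, one_pow]
  have hn := intro_n (F := F) (p := p) (Dvd.intro m hnm.symm) hst x hx S
  have hp := intro_p (p := p) (x ^ m) h1 S
  apply frobenius_inj F p
  rw [frobenius_def, frobenius_def, hp, ← pow_mul, ← pow_mul, mul_comm m p, ← hnm]
  exact hn

theorem intro_mp [Fact p.Prime] [CharP F p] (hnm : n = p * m)
    (hst : (X ^ r - 1 : (ZMod n)[X]) ∣ (X - 1) ^ n - (X ^ n - 1)) (a b : ℕ) :
    Intro r F (m ^ a * p ^ b) :=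
  ((intro_m hnm hst).pow a).mul (intro_p.pow b)

theorem intro_np [Fact p.Prime] [CharP F p] (hpn : p ∣ n)
    (hst : (X ^ r - 1 : (ZMod n)[X]) ∣ (X - 1) ^ n - (X ^ n - 1)) (a b : ℕ) :
    Intro r F (n ^ a * p ^ b) :=
  ((intro_n hpn hst).pow a).mul (intro_p.pow b)

end AKW
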