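import Pool.Agent.AKW.Defs

/-!
# AKW, module Sin: absolute values (helper19)

`zt r = exp (2 π i / r)`.
PROOFS.
* `norm_sub_one`: `|exp (i t) - 1| = |2 sin (t / 2)|` with `t = 2 π k / r`; `|sin (π k / r)|` has period `r` in `k`
  (`k = (k % r) + r q`, `sin (x + q π) = ± sin x`); `((k : ℕ) : ZMod r).val = k % r`.
* `hz_neg`: `|sin (π (r - v) / r)| = |sin (π v / r)|`.
* `log_norm_CS`: `log` of a product of nonzero factors; `‖Lam‖ = ‖x ^ j - 1‖` as `|x| = 1`, `x = zt r ^ a.val`,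
  `x ^ j = zt r ^ (a.val * j)`, `((a.val * j : ℕ) : ZMod r) = a * j`.
* `sum_hz`: `∏_{a ≠ 0} (1 - ζ ^ a) = r` (`IsPrimitiveRoot` / `Polynomial.eval_one_cyclotomic_prime`, cyclotomic polynomial as a
  product over the primitive roots; or `X ^ r - 1 = (X - 1) (1 + X + … )`).
* `sum_hz_mul`, `sum_hz_sq_mul`: multiplication by the unit `j` permutes `(ZMod r)ˣ` (`Equiv.mulRight`).
-/

open Polynomial

namespace AKW

/-- `exp (2 π i / r)` -/
noncomputable def zt (r : ℕ) : ℂ := Complex.exp (2 * Real.pi * Complex.I / r)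

theorem zt_prim {r : ℕ} [Fact r.Prime] : IsPrimitiveRoot (zt r) r :=
  Complex.isPrimitiveRoot_exp r (Fact.out : r.Prime).ne_zero

private theorem norm_zt_pow {r : ℕ} [Fact r.Prime] (k : ℕ) : ‖zt r ^ k‖ = 1 := by
  have h : (zt r ^ k) ^ r = 1 := by
    rw [← pow_mul, mul_comm, pow_mul, (zt_prim (r := r)).pow_eq_one, one_pow]
  exact Complex.norm_eq_one_of_pow_eq_one h (Fact.out : r.Prime).ne_zero

theorem norm_sub_one {r : ℕ} [Fact r.Prime] (k : ℕ) :
    ‖zt r ^ k - 1‖ = |2 * Real.sin (Real.pi * (k : ZMod r).val / r)| := by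
  have hr : (r : ℝ) ≠ 0 := by exact_mod_cast (Fact.out : r.Prime).ne_zero
  have h1 : zt r ^ k = zt r ^ ((k : ZMod r).val) := by
    rw [ZMod.val_natCast]
    exact pow_eq_pow_mod k (zt_prim (r := r)).pow_eq_one
  have h2 : zt r ^ ((k : ZMod r).val) =
      Complex.exp (Complex.I * ((2 * Real.pi * (k : ZMod r).val / r : ℝ) : ℂ)) := by
    unfold zt
    rw [← Complex.exp_nat_mul]
    congr 1
    push_cast
    ring
  rw [h1, h2, Complex.norm_exp_I_mul_ofReal_sub_one, Real.norm_eq_abs]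
  congr 3
  ring

theorem hz_neg {r : ℕ} [Fact r.Prime] (x : ZMod r) : hz r (-x) = hz r x := by
  have hr0 : r ≠ 0 := (Fact.out : r.Prime).ne_zero
  have : NeZero r := ⟨hr0⟩
  have hr : (r : ℝ) ≠ 0 := by exact_mod_cast hr0
  by_cases hx : x = 0
  · rw [hx, neg_zero]
  · unfold hz
    rw [ZMod.neg_val, if_neg hx, Nat.cast_sub (ZMod.val_lt x).le]
    have : Real.pi * ((r : ℝ) - (x.val : ℝ)) / r = Real.pi - Real.pi * x.val / r := by
      field_simp
    rw [this, Real.sin_pi_sub]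

theorem log_norm_sub_one {r : ℕ} [Fact r.Prime] (a : (ZMod r)ˣ) :
    Real.log ‖zt r ^ (a : ZMod r).val - 1‖ = hz r (a : ZMod r) := by
  have : NeZero r := ⟨(Fact.out : r.Prime).ne_zero⟩
  rw [norm_sub_one, ZMod.natCast_zmod_val]
  rfl

private theorem mem_coprime {r : ℕ} [Fact r.Prime] {j : ℕ} (hj : j ∈ Finset.Icc 1 ((r - 1) / 2)) :
    j.Coprime r := by
  have hr : r.Prime := Fact.out
  rw [Finset.mem_Icc] at hj
  have h2 := hr.two_le
  have h1 : j < r := by omega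
  exact (Nat.coprime_of_lt_prime (by omega) h1 hr).symm

theorem log_norm_CS {r : ℕ} [Fact r.Prime] {S : Finset ℕ} (hS : S ⊆ Finset.Icc 1 ((r - 1) / 2))
    (a : (ZMod r)ˣ) : aeval (zt r ^ (a : ZMod r).val) (CS r S) ≠ 0 ∧
      Real.log ‖aeval (zt r ^ (a : ZMod r).val) (CS r S)‖ = xs r S (a : ZMod r) := by
  have hr : r.Prime := Fact.out
  have : NeZero r := ⟨hr.ne_zero⟩
  have hprim := zt_prim (r := r)
  have haeval : aeval (zt r ^ (a : ZMod r).val) (CS r S) = ∏ j ∈ S,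
      ((zt r ^ (a : ZMod r).val) ^ ((r - 1) / 2 * j) * ((zt r ^ (a : ZMod r).val) ^ j - 1)) := by
    unfold CS Lam
    rw [map_prod]
    refine Finset.prod_congr rfl fun j _ => ?_
    simp only [map_mul, map_sub, map_pow, aeval_X, map_one]
  have hne : ∀ j ∈ S, (zt r ^ (a : ZMod r).val) ^ j - 1 ≠ 0 := by
    intro j hj h
    rw [sub_eq_zero, ← pow_mul] at h
    have h1 : r ∣ (a : ZMod r).val * j := hprim.dvd_of_pow_eq_one _ h
    rcases (Nat.Prime.dvd_mul hr).1 h1 with h2 | h2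
    · have h3 := Nat.eq_zero_of_dvd_of_lt h2 (ZMod.val_lt _)
      rw [ZMod.val_eq_zero] at h3
      exact a.ne_zero h3
    · have h3 := mem_coprime (hS hj)
      exact hr.one_lt.ne' (Nat.Coprime.eq_one_of_dvd h3.symm h2)
  have hx0 : zt r ^ (a : ZMod r).val ≠ 0 := by
    intro h
    have := norm_zt_pow (r := r) (a : ZMod r).val
    rw [h, norm_zero] at this
    exact zero_ne_one this
  have hne2 : ∀ j ∈ S, (zt r ^ (a : ZMod r).val) ^ ((r - 1) / 2 * j) *
      ((zt r ^ (a : ZMod r).val) ^ j - 1) ≠ 0 := fun j hj =>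
    mul_ne_zero (pow_ne_zero _ hx0) (hne j hj)
  rw [haeval]
  refine ⟨Finset.prod_ne_zero_iff.2 hne2, ?_⟩
  rw [norm_prod, Real.log_prod fun j hj => norm_ne_zero_iff.2 (hne2 j hj)]
  unfold xs
  refine Finset.sum_congr rfl fun j hj => ?_
  rw [norm_mul, norm_pow, norm_zt_pow, one_pow, one_mul, ← pow_mul, norm_sub_one]
  unfold hz
  rw [Nat.cast_mul, ZMod.natCast_zmod_val]

theorem sum_hz {r : ℕ} [Fact r.Prime] : ∑ a : (ZMod r)ˣ, hz r (a : ZMod r) = Real.log r := by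
  have hr : r.Prime := Fact.out
  have : NeZero r := ⟨hr.ne_zero⟩
  obtain ⟨n, hn⟩ : ∃ n, r = n + 1 := ⟨r - 1, by have := hr.one_lt; omega⟩
  have hprim := zt_prim (r := r)
  have h1 : ∏ k ∈ Finset.range n, (1 - zt r ^ (k + 1)) = (n : ℂ) + 1 :=
    IsPrimitiveRoot.prod_one_sub_pow_eq_order (by rw [← hn]; exact hprim)
  have h2 : ∏ k ∈ Finset.range n, ‖zt r ^ (k + 1) - 1‖ = (r : ℝ) := by
    have h3 := congrArg norm h1
    rw [norm_prod] at h3
    have h4 : ‖(n : ℂ) + 1‖ = (r : ℝ) := by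
      have : (n : ℂ) + 1 = ((r : ℝ) : ℂ) := by rw [hn]; push_cast; ring
      rw [this, Complex.norm_real, Real.norm_of_nonneg (Nat.cast_nonneg _)]
    rw [h4] at h3
    rw [← h3]
    exact Finset.prod_congr rfl fun k _ => norm_sub_rev _ _
  have h5 : ∀ k ∈ Finset.range n, ‖zt r ^ (k + 1) - 1‖ ≠ 0 := by
    intro k hk h
    have : ∏ k ∈ Finset.range n, ‖zt r ^ (k + 1) - 1‖ = 0 := Finset.prod_eq_zero hk h
    rw [h2] at this
    exact hr.ne_zero (by exact_mod_cast this)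
  rw [← h2, Real.log_prod h5]
  refine Finset.sum_nbij (fun a => (a : ZMod r).val - 1) ?_ ?_ ?_ ?_
  · intro a _
    have h6 : (a : ZMod r).val ≠ 0 := fun h => a.ne_zero ((ZMod.val_eq_zero _).1 h)
    have h7 := ZMod.val_lt (a : ZMod r)
    rw [Finset.mem_range]
    omega
  · intro a _ b _ hab
    have h6 : (a : ZMod r).val ≠ 0 := fun h => a.ne_zero ((ZMod.val_eq_zero _).1 h)
    have h7 : (b : ZMod r).val ≠ 0 := fun h => b.ne_zero ((ZMod.val_eq_zero _).1 h)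
    have h8 : (a : ZMod r).val - 1 = (b : ZMod r).val - 1 := hab
    exact Units.ext (ZMod.val_injective r (by omega))
  · intro k hk
    have hk' : k < n := Finset.mem_range.1 (Finset.mem_coe.1 hk)
    have h6 : (k + 1).Coprime r := (Nat.coprime_of_lt_prime (by omega) (by omega) hr).symm
    refine ⟨ZMod.unitOfCoprime (k + 1) h6, Finset.mem_coe.2 (Finset.mem_univ _), ?_⟩
    show ((ZMod.unitOfCoprime (k + 1) h6 : (ZMod r)ˣ) : ZMod r).val - 1 = k
    rw [ZMod.coe_unitOfCoprime, ZMod.val_natCast, Nat.mod_eq_of_lt (by omega)]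
    omega
  · intro a _
    have h6 : (a : ZMod r).val ≠ 0 := fun h => a.ne_zero ((ZMod.val_eq_zero _).1 h)
    show hz r (a : ZMod r) = Real.log ‖zt r ^ ((a : ZMod r).val - 1 + 1) - 1‖
    rw [Nat.sub_add_cancel (Nat.one_le_iff_ne_zero.2 h6), log_norm_sub_one]

private theorem sum_unit_mul {r : ℕ} [Fact r.Prime] {j : ℕ} (hj : j ∈ Finset.Icc 1 ((r - 1) / 2))
    (f : ZMod r → ℝ) : ∑ a : (ZMod r)ˣ, f ((a : ZMod r) * (j : ZMod r)) =
      ∑ a : (ZMod r)ˣ, f (a : ZMod r) := by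
  refine Fintype.sum_equiv (Equiv.mulRight (ZMod.unitOfCoprime j (mem_coprime hj))) _ _ fun a => ?_
  rw [Equiv.coe_mulRight, Units.val_mul, ZMod.coe_unitOfCoprime]

theorem sum_hz_mul {r : ℕ} [Fact r.Prime] {j : ℕ} (hj : j ∈ Finset.Icc 1 ((r - 1) / 2)) :
    ∑ a : (ZMod r)ˣ, hz r ((a : ZMod r) * (j : ZMod r)) = Real.log r := by
  rw [sum_unit_mul hj (hz r), sum_hz]

theorem sum_hz_sq_mul {r : ℕ} [Fact r.Prime] {j : ℕ} (hj : j ∈ Finset.Icc 1 ((r - 1) / 2)) :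
    ∑ a : (ZMod r)ˣ, hz r ((a : ZMod r) * (j : ZMod r)) ^ 2 = S1 r :=
  sum_unit_mul hj (fun x => hz r x ^ 2)

theorem sum_xs {r : ℕ} [Fact r.Prime] {S : Finset ℕ} (hS : S ⊆ Finset.Icc 1 ((r - 1) / 2)) :
    ∑ a : (ZMod r)ˣ, xs r S (a : ZMod r) = S.card * Real.log r := by
  unfold xs
  rw [Finset.sum_comm, Finset.sum_congr rfl fun j hj => sum_hz_mul (hS hj), Finset.sum_const,
    nsmul_eq_mul]

end AKW
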