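import Pool.Agent.AKW.Ser
import Pool.Agent.AKW.Sin

/-!
# AKW, module Lgz: `∑ χ(a) log |1 - ζ ^ a| ≠ 0` for even nontrivial characters (helper19)

PROOF of `sum_char_ne_zero`.  `ζ = zt r`, `χ ≠ 1` even, `χ' = χ⁻¹`.
(1) Gauss sum: `∑_a χ(a) ζ ^ (a n) = χ'(n) g` for all `n`, `g = ∑_a χ(a) ζ ^ a ≠ 0` (`gaussSum_mulShift`, for `n` prime to `r`;
both sides are `0` for `r ∣ n`; `gaussSum_mul_gaussSum_eq_card` or `gaussSum_ne_zero_of_nontrivial` for `g ≠ 0`; the additive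
character `ZMod.stdAddChar`, `ZMod.stdAddChar_coe`).
(2) For `0 ≤ x < 1`: `-log (1 - x ζ ^ a) = ∑_{n ≥ 1} x ^ n ζ ^ (a n) / n` (`Complex.hasSum_taylorSeries_neg_log`), so
`-∑_a χ(a) log (1 - x ζ ^ a) = g ∑_{n ≥ 1} χ'(n) x ^ n / n`.
(3) `x → 1-`: the left side tends to `-∑_a χ(a) log (1 - ζ ^ a)` (`1 - ζ ^ a` has positive real part for `a ≠ 0`, so it is in the
slit plane and `Complex.log` is continuous there); the right side tends to `g l`, `l ≠ 0` the sum of the series of `χ'`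
(`series_ne_zero` and Abel's theorem `Complex.tendsto_tsum_powerSeries_nhdsWithin_lt`).
(4) `χ` even: `∑_a χ(a) log (1 - ζ ^ a) = ∑_a χ(a) Re log (1 - ζ ^ a)`, because `log (1 - ζ ^ (-a))` is the conjugate of
`log (1 - ζ ^ a)` (substitute `a → -a` and average); `Re log w = log ‖w‖`, `log_norm_sub_one`.
`sum_one_char`: the trivial character: `sum_hz`, `log r ≠ 0`.
-/

open Filter Topology

namespace AKW

private theorem zt_std {r : ℕ} [Fact r.Prime] (a : ZMod r) : zt r ^ a.val = ZMod.stdAddChar a := by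
  rw [ZMod.stdAddChar_apply, ZMod.toCircle_apply, zt, ← Complex.exp_nat_mul]
  congr 1
  ring

private theorem std_pow {r : ℕ} [Fact r.Prime] (a : ZMod r) (n : ℕ) :
    (ZMod.stdAddChar a : ℂ) ^ n = ZMod.stdAddChar ((n : ZMod r) * a) := by
  rw [← AddChar.map_nsmul_eq_pow, nsmul_eq_mul]

private theorem chi_zero {r : ℕ} [Fact r.Prime] (χ : DirichletCharacter ℂ r) : χ 0 = 0 :=
  MulChar.map_nonunit χ not_isUnit_zero

private theorem sum_units_all {r : ℕ} [Fact r.Prime] (f : ZMod r → ℂ) (hf : f 0 = 0) :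
    ∑ a : (ZMod r)ˣ, f (a : ZMod r) = ∑ a : ZMod r, f a := by
  refine Finset.sum_of_injOn (fun a : (ZMod r)ˣ => (a : ZMod r)) (fun a _ b _ h => Units.ext h)
    (fun a _ => Finset.mem_coe.2 (Finset.mem_univ _)) ?_ (fun a _ => rfl)
  intro i _ hi
  by_cases h0 : i = 0
  · rw [h0, hf]
  · exact absurd ⟨Units.mk0 i h0, Finset.mem_coe.2 (Finset.mem_univ _), rfl⟩ hi

private theorem gs {r : ℕ} [Fact r.Prime] {χ : DirichletCharacter ℂ r} (hχ : χ ≠ 1) (m : ZMod r) :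
    ∑ a : ZMod r, χ a * (ZMod.stdAddChar (m * a) : ℂ) = χ⁻¹ m * gaussSum χ ZMod.stdAddChar := by
  by_cases hm : m = 0
  · subst hm
    rw [chi_zero, zero_mul]
    have h := MulChar.sum_eq_zero_of_ne_one hχ
    simpa using h
  · have h1 := gaussSum_mulShift χ (ZMod.stdAddChar : AddChar (ZMod r) ℂ) (Units.mk0 m hm)
    rw [Units.val_mk0] at h1
    have h2 : gaussSum χ (AddChar.mulShift ZMod.stdAddChar m) =
        ∑ a : ZMod r, χ a * (ZMod.stdAddChar (m * a) : ℂ) := by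
      unfold gaussSum
      simp only [AddChar.mulShift_apply]
    rw [← h2, ← h1, MulChar.inv_apply_eq_inv']
    have h3 : χ m ≠ 0 := ((isUnit_iff_ne_zero.2 hm).map χ).ne_zero
    rw [← mul_assoc, inv_mul_cancel₀ h3, one_mul]

/-- The averaging over `a` and `-a`. -/
private theorem even_log {r : ℕ} [Fact r.Prime] {χ : DirichletCharacter ℂ r} (he : χ.Even) {x : ℝ}
    (hx0 : 0 ≤ x) (hx1 : x < 1) :
    ∑ a : ZMod r, χ a * -Complex.log (1 - (x : ℂ) * ZMod.stdAddChar a) =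
      ∑ a : ZMod r, χ a * -((Real.log ‖1 - (x : ℂ) * (ZMod.stdAddChar a : ℂ)‖ : ℝ) : ℂ) := by
  have hnorm : ∀ a : ZMod r, ‖(x : ℂ) * (ZMod.stdAddChar a : ℂ)‖ < 1 := by
    intro a
    rw [norm_mul, AddChar.norm_apply, mul_one, Complex.norm_real, Real.norm_eq_abs, abs_of_nonneg hx0]
    exact hx1
  have hneg : ∑ a : ZMod r, χ a * -Complex.log (1 - (x : ℂ) * ZMod.stdAddChar a) =
      ∑ a : ZMod r, χ a * -(starRingEnd ℂ) (Complex.log (1 - (x : ℂ) * ZMod.stdAddChar a)) := by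
    rw [← Equiv.sum_comp (Equiv.neg (ZMod r))]
    refine Finset.sum_congr rfl fun a _ => ?_
    rw [Equiv.neg_apply, he.eval_neg, AddChar.map_neg_eq_conj]
    have h1 : 1 - (x : ℂ) * ZMod.stdAddChar a ∈ Complex.slitPlane := by
      have := Complex.mem_slitPlane_of_norm_lt_one (z := -((x : ℂ) * (ZMod.stdAddChar a : ℂ)))
        (by rw [norm_neg]; exact hnorm a)
      rwa [← sub_eq_add_neg] at this
    rw [← Complex.log_conj _ (Complex.slitPlane_arg_ne_pi h1)]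
    congr 3
    rw [map_sub, map_one, map_mul, Complex.conj_ofReal]
  have h2 : (2 : ℂ) * ∑ a : ZMod r, χ a * -Complex.log (1 - (x : ℂ) * ZMod.stdAddChar a) =
      2 * ∑ a : ZMod r, χ a * -((Real.log ‖1 - (x : ℂ) * (ZMod.stdAddChar a : ℂ)‖ : ℝ) : ℂ) := by
    rw [two_mul]
    nth_rw 2 [hneg]
    rw [← Finset.sum_add_distrib, Finset.mul_sum]
    refine Finset.sum_congr rfl fun a _ => ?_
    have h3 := Complex.add_conj (Complex.log (1 - (x : ℂ) * ZMod.stdAddChar a))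
    rw [Complex.log_re] at h3
    have h4 : χ a * -Complex.log (1 - (x : ℂ) * ZMod.stdAddChar a) +
        χ a * -(starRingEnd ℂ) (Complex.log (1 - (x : ℂ) * ZMod.stdAddChar a)) =
        -(χ a * (Complex.log (1 - (x : ℂ) * ZMod.stdAddChar a) +
          (starRingEnd ℂ) (Complex.log (1 - (x : ℂ) * ZMod.stdAddChar a)))) := by ring
    rw [h4, h3]
    push_cast
    ring
  exact mul_left_cancel₀ two_ne_zero h2

/-- The power series. -/
private theorem series_eq {r : ℕ} [Fact r.Prime] {χ : DirichletCharacter ℂ r} (hχ : χ ≠ 1)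
    {x : ℝ} (hx0 : 0 ≤ x) (hx1 : x < 1) :
    ∑ a : ZMod r, χ a * -Complex.log (1 - (x : ℂ) * ZMod.stdAddChar a) =
      (x : ℂ) * gaussSum χ ZMod.stdAddChar *
        ∑' n : ℕ, χ⁻¹ ((n + 1 : ℕ) : ZMod r) / ((n + 1 : ℕ) : ℂ) * (x : ℂ) ^ n := by
  have hnorm : ∀ a : ZMod r, ‖(x : ℂ) * (ZMod.stdAddChar a : ℂ)‖ < 1 := by
    intro a
    rw [norm_mul, AddChar.norm_apply, mul_one, Complex.norm_real, Real.norm_eq_abs, abs_of_nonneg hx0]
    exact hx1
  have h1 : HasSum (fun n : ℕ => ∑ a : ZMod r, χ a * (((x : ℂ) * (ZMod.stdAddChar a : ℂ)) ^ n / n))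
      (∑ a : ZMod r, χ a * -Complex.log (1 - (x : ℂ) * ZMod.stdAddChar a)) :=
    hasSum_sum fun a _ => (Complex.hasSum_taylorSeries_neg_log (hnorm a)).mul_left _
  have h2 : ∀ n : ℕ, ∑ a : ZMod r, χ a * (((x : ℂ) * (ZMod.stdAddChar a : ℂ)) ^ n / n) =
      (x : ℂ) ^ n / n * (χ⁻¹ (n : ZMod r) * gaussSum χ ZMod.stdAddChar) := by
    intro n
    rw [← gs hχ (n : ZMod r), Finset.mul_sum]
    refine Finset.sum_congr rfl fun a _ => ?_
    rw [mul_pow, std_pow]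
    ring
  simp only [h2] at h1
  have h3 := (hasSum_nat_add_iff' 1).2 h1
  rw [Finset.sum_range_one, Nat.cast_zero, Nat.cast_zero, div_zero, zero_mul, sub_zero] at h3
  rw [← h3.tsum_eq, ← tsum_mul_left]
  refine tsum_congr fun n => ?_
  rw [pow_succ]
  ring

theorem sum_char_ne_zero {r : ℕ} [Fact r.Prime] {χ : DirichletCharacter ℂ r} (hχ : χ ≠ 1)
    (he : χ.Even) : ∑ a : (ZMod r)ˣ, χ (a : ZMod r) * (hz r (a : ZMod r) : ℂ) ≠ 0 := by
  have hr := (Fact.out : r.Prime)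
  have : NeZero r := ⟨hr.ne_zero⟩
  have hχ' : χ⁻¹ ≠ 1 := by
    intro h
    exact hχ (inv_eq_one.1 h)
  obtain ⟨l, hl, hlim⟩ := series_ne_zero hχ'
  have habel := Complex.tendsto_tsum_powerSeries_nhdsWithin_lt hlim
  rw [tendsto_map'_iff] at habel
  -- the Gauss sum
  have hg : gaussSum χ (ZMod.stdAddChar : AddChar (ZMod r) ℂ) ≠ 0 := by
    refine gaussSum_ne_zero_of_nontrivial ?_ hχ (ZMod.isPrimitive_stdAddChar r)
    rw [ZMod.card]
    exact_mod_cast hr.ne_zero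
  -- the right side
  have hx : Tendsto (fun x : ℝ => (x : ℂ)) (𝓝[<] (1 : ℝ)) (𝓝 1) := by
    have h1 : Tendsto (fun x : ℝ => (x : ℂ)) (𝓝 (1 : ℝ)) (𝓝 ((1 : ℝ) : ℂ)) :=
      Complex.continuous_ofReal.continuousAt
    rw [Complex.ofReal_one] at h1
    exact h1.mono_left nhdsWithin_le_nhds
  have hR : Tendsto (fun x : ℝ => (x : ℂ) * gaussSum χ (ZMod.stdAddChar : AddChar (ZMod r) ℂ) *
      ∑' n : ℕ, χ⁻¹ ((n + 1 : ℕ) : ZMod r) / ((n + 1 : ℕ) : ℂ) * (x : ℂ) ^ n) (𝓝[<] (1 : ℝ))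
      (𝓝 (1 * gaussSum χ (ZMod.stdAddChar : AddChar (ZMod r) ℂ) * l)) :=
    (hx.mul tendsto_const_nhds).mul habel
  -- the left side
  have hL : Tendsto (fun x : ℝ => ∑ a : ZMod r,
      χ a * -((Real.log ‖1 - (x : ℂ) * (ZMod.stdAddChar a : ℂ)‖ : ℝ) : ℂ)) (𝓝[<] (1 : ℝ))
      (𝓝 (∑ a : ZMod r, χ a * -((Real.log ‖1 - (ZMod.stdAddChar a : ℂ)‖ : ℝ) : ℂ))) := by
    refine tendsto_finsetSum _ fun a _ => ?_
    by_cases ha : a = 0
    · subst ha
      simp only [chi_zero, zero_mul]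
      exact tendsto_const_nhds
    · have hne : (1 : ℂ) - (ZMod.stdAddChar a : ℂ) ≠ 0 := by
        intro h
        apply ha
        apply ZMod.injective_stdAddChar
        rw [AddChar.map_zero_eq_one]
        exact (sub_eq_zero.1 h).symm
      refine Tendsto.const_mul _ (Tendsto.neg ?_)
      refine (Complex.continuous_ofReal.tendsto _).comp ?_
      refine Tendsto.log ?_ (norm_ne_zero_iff.2 hne)
      refine Tendsto.norm ?_
      have h1 := (tendsto_const_nhds (x := (1 : ℂ)) (f := 𝓝[<] (1 : ℝ))).sub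
        (hx.mul (tendsto_const_nhds (x := (ZMod.stdAddChar a : ℂ))))
      rwa [one_mul] at h1
  have heq : (fun x : ℝ => ∑ a : ZMod r,
      χ a * -((Real.log ‖1 - (x : ℂ) * (ZMod.stdAddChar a : ℂ)‖ : ℝ) : ℂ)) =ᶠ[𝓝[<] (1 : ℝ)]
      (fun x : ℝ => (x : ℂ) * gaussSum χ (ZMod.stdAddChar : AddChar (ZMod r) ℂ) *
      ∑' n : ℕ, χ⁻¹ ((n + 1 : ℕ) : ZMod r) / ((n + 1 : ℕ) : ℂ) * (x : ℂ) ^ n) := by
    have h1 : ∀ᶠ x : ℝ in 𝓝[<] (1 : ℝ), x ∈ Set.Ico (0 : ℝ) 1 := by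
      have h2 : Set.Ico (0 : ℝ) 1 ∈ 𝓝[<] (1 : ℝ) := Ico_mem_nhdsLT (by norm_num)
      exact h2
    filter_upwards [h1] with x hx
    rw [← even_log he hx.1 hx.2, series_eq hχ hx.1 hx.2]
  have hfin := tendsto_nhds_unique (hL.congr' heq) hR
  have hconv : ∑ a : (ZMod r)ˣ, χ (a : ZMod r) * (hz r (a : ZMod r) : ℂ) =
      -∑ a : ZMod r, χ a * -((Real.log ‖1 - (ZMod.stdAddChar a : ℂ)‖ : ℝ) : ℂ) := by
    rw [← Finset.sum_neg_distrib]
    rw [← sum_units_all (fun a : ZMod r => -(χ a * -((Real.log ‖1 - (ZMod.stdAddChar a : ℂ)‖ : ℝ) : ℂ)))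
      (by simp only [chi_zero]; ring)]
    refine Finset.sum_congr rfl fun a _ => ?_
    rw [← log_norm_sub_one a, zt_std, norm_sub_rev]
    ring
  rw [hconv, hfin, one_mul, neg_ne_zero]
  exact mul_ne_zero hg hl

theorem sum_char_ne_zero' {r : ℕ} [Fact r.Prime] {χ : DirichletCharacter ℂ r} (he : χ.Even) :
    ∑ a : (ZMod r)ˣ, χ (a : ZMod r) * (hz r (a : ZMod r) : ℂ) ≠ 0 := by
  by_cases hχ : χ = 1
  · subst hχ
    have h1 : ∑ a : (ZMod r)ˣ, (1 : DirichletCharacter ℂ r) (a : ZMod r) * (hz r (a : ZMod r) : ℂ) =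
        ((∑ a : (ZMod r)ˣ, hz r (a : ZMod r) : ℝ) : ℂ) := by
      push_cast
      refine Finset.sum_congr rfl fun a _ => ?_
      rw [MulChar.one_apply_coe, one_mul]
    rw [h1, sum_hz]
    have hr := (Fact.out : r.Prime)
    have h2 : (0 : ℝ) < Real.log r := Real.log_pos (by exact_mod_cast hr.one_lt)
    exact_mod_cast h2.ne'
  · exact sum_char_ne_zero hχ he

end AKW
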