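import Pool.Agent.AKW.Red

/-!
# AKW, module Nrm: norms (helper19)

PROOFS.  `ζ : ℂ` is a primitive `r`-th root of unity.
* `aeval_conj`: the minimal polynomial of `ζ` over `ℤ` (or `ℚ`) is `Φ_r` (`Polynomial.cyclotomic_eq_minpoly`), so `Φ_r`
  divides `P - Q` (`minpoly.isIntegrallyClosed_dvd`) and `Φ_r (ζ ^ a) = 0` (`IsPrimitiveRoot.pow_of_coprime`).
* `one_le_prod`: the product `N` of the `aeval (ζ ^ a) W` is (up to identification of the embeddings of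
  `ℚ(ζ)` with the `a : (ZMod r)ˣ`) the norm of an algebraic integer, so it is an integer; it is not `0` by `aeval_conj`
  (with `Q = 0`; `ζ` is a power of `ζ ^ a`, so `W (ζ ^ a) = 0` gives `W (ζ) = 0`).  Ways: (1) `K = ℚ⟮ζ⟯` or
  `CyclotomicField r ℚ`, `Algebra.norm_eq_prod_embeddings`, `Algebra.isIntegral_norm`; (2) the resultant: the product over the
  roots of `Φ_r` (monic, integer coefficients) of `W` is the resultant `Res (Φ_r, W)`, an integer; (3) the product is an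
  algebraic integer (`IsIntegral.prod`) and it is the value of a symmetric expression, rational by Galois theory.
* `nrm_ge`: `red` gives `B` with `P (ζ') = p B (ζ')` for every primitive `ζ'`, so the product is `p ^ (r - 1)` times the product
  for `B` (`Fintype.card (ZMod r)ˣ = r - 1`: `ZMod.card_units`), and `B (ζ) ≠ 0`.
-/

open Polynomial

namespace AKW

private theorem coprime_val {r : ℕ} [Fact r.Prime] (a : (ZMod r)ˣ) : (a : ZMod r).val.Coprime r :=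
  ZMod.val_coe_unit_coprime a

private theorem prim_pow {r : ℕ} [Fact r.Prime] {R : Type*} [CommRing R] {ζ : R}
    (hζ : IsPrimitiveRoot ζ r) (a : (ZMod r)ˣ) : IsPrimitiveRoot (ζ ^ (a : ZMod r).val) r :=
  hζ.pow_of_coprime _ (coprime_val a)

private theorem pow_pow_inv {r : ℕ} [Fact r.Prime] {ζ : ℂ} (hζ : IsPrimitiveRoot ζ r)
    (a : (ZMod r)ˣ) : (ζ ^ (a : ZMod r).val) ^ ((a⁻¹ : (ZMod r)ˣ) : ZMod r).val = ζ := by
  have hr := (Fact.out : r.Prime)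
  rw [← pow_mul, pow_eq_pow_mod _ hζ.pow_eq_one, ← ZMod.val_mul, ← Units.val_mul, mul_inv_cancel,
    Units.val_one]
  have : Fact (1 < r) := ⟨hr.one_lt⟩
  rw [ZMod.val_one, pow_one]

theorem aeval_conj {r : ℕ} [Fact r.Prime] {ζ : ℂ} (hζ : IsPrimitiveRoot ζ r) {P Q : ℤ[X]}
    (h : aeval ζ P = aeval ζ Q) (a : (ZMod r)ˣ) :
    aeval (ζ ^ (a : ZMod r).val) P = aeval (ζ ^ (a : ZMod r).val) Q := by
  have hr0 : 0 < r := (Fact.out : r.Prime).pos
  have h1 : aeval ζ (P - Q) = 0 := by rw [map_sub, h, sub_self]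
  have h2 : minpoly ℤ ζ ∣ P - Q := minpoly.isIntegrallyClosed_dvd (hζ.isIntegral hr0) h1
  rw [← Polynomial.cyclotomic_eq_minpoly hζ hr0] at h2
  obtain ⟨A, hA⟩ := h2
  have h3 : aeval (ζ ^ (a : ZMod r).val) (cyclotomic r ℤ) = 0 := by
    rw [aeval_def, eval₂_eq_eval_map, map_cyclotomic]
    exact (prim_pow hζ a).isRoot_cyclotomic hr0
  have h4 : aeval (ζ ^ (a : ZMod r).val) (P - Q) = 0 := by
    rw [hA, map_mul, h3, zero_mul]
  rw [map_sub] at h4
  exact sub_eq_zero.1 h4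

theorem aeval_conj_ne {r : ℕ} [Fact r.Prime] {ζ : ℂ} (hζ : IsPrimitiveRoot ζ r) {P Q : ℤ[X]}
    (h : aeval ζ P ≠ aeval ζ Q) (a : (ZMod r)ˣ) :
    aeval (ζ ^ (a : ZMod r).val) P ≠ aeval (ζ ^ (a : ZMod r).val) Q := by
  intro h1
  apply h
  have h2 := aeval_conj (prim_pow hζ a) h1 a⁻¹
  rwa [pow_pow_inv hζ a] at h2

private theorem prod_prim {r : ℕ} [Fact r.Prime] {ζ : ℂ} (hζ : IsPrimitiveRoot ζ r) (f : ℂ → ℝ) :
    ∏ a : (ZMod r)ˣ, f (ζ ^ (a : ZMod r).val) = ∏ μ ∈ primitiveRoots r ℂ, f μ := by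
  have hr := (Fact.out : r.Prime)
  have hr0 : 0 < r := hr.pos
  have : NeZero r := ⟨hr0.ne'⟩
  refine Finset.prod_bij (fun a _ => ζ ^ (a : ZMod r).val) ?_ ?_ ?_ ?_
  · intro a _
    rw [mem_primitiveRoots hr0]
    exact prim_pow hζ a
  · intro a _ b _ hab
    have h1 := hζ.pow_inj (ZMod.val_lt _) (ZMod.val_lt _) hab
    exact Units.ext (ZMod.val_injective r h1)
  · intro μ hμ
    rw [mem_primitiveRoots hr0] at hμ
    obtain ⟨i, hi, rfl⟩ := hζ.eq_pow_of_pow_eq_one hμ.pow_eq_one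
    have hc := (hζ.pow_iff_coprime hr0 i).1 hμ
    refine ⟨ZMod.unitOfCoprime i hc, Finset.mem_univ _, ?_⟩
    rw [ZMod.coe_unitOfCoprime, ZMod.val_natCast_of_lt hi]
  · intro a _
    rfl

theorem one_le_prod {r : ℕ} [Fact r.Prime] {ζ : ℂ} (hζ : IsPrimitiveRoot ζ r) {W : ℤ[X]}
    (hW : aeval ζ W ≠ 0) : 1 ≤ ∏ a : (ZMod r)ˣ, ‖aeval (ζ ^ (a : ZMod r).val) W‖ := by
  have hr := (Fact.out : r.Prime)
  have hr0 : 0 < r := hr.pos
  have : NeZero r := ⟨hr0.ne'⟩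
  have : NeZero ((r : ℕ) : ℚ) := ⟨by exact_mod_cast hr0.ne'⟩
  have : IsCyclotomicExtension {r} ℚ (CyclotomicField r ℚ) := CyclotomicField.isCyclotomicExtension r ℚ
  -- all factors are nonzero
  have hpos : 0 < ∏ a : (ZMod r)ˣ, ‖aeval (ζ ^ (a : ZMod r).val) W‖ := by
    refine Finset.prod_pos fun a _ => ?_
    rw [norm_pos_iff]
    have h1 : aeval ζ W ≠ aeval ζ (0 : ℤ[X]) := by rwa [map_zero]
    have h2 := aeval_conj_ne hζ h1 a
    rwa [map_zero] at h2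
  have hθ : IsPrimitiveRoot (IsCyclotomicExtension.zeta r ℚ (CyclotomicField r ℚ)) r :=
    IsCyclotomicExtension.zeta_spec r ℚ (CyclotomicField r ℚ)
  have hirr : Irreducible (cyclotomic r ℚ) := cyclotomic.irreducible_rat hr0
  generalize IsCyclotomicExtension.zeta r ℚ (CyclotomicField r ℚ) = θ at hθ
  have hint : IsIntegral ℤ (aeval θ W) :=
    adjoin_le_integralClosure (hθ.isIntegral hr0) (aeval_mem_adjoin_singleton ℤ θ)
  have hn := Algebra.isIntegral_norm ℚ hint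
  obtain ⟨m, hm⟩ := IsIntegrallyClosed.isIntegral_iff.1 hn
  have hprod := Algebra.norm_eq_prod_embeddings ℚ ℂ (aeval θ W)
  rw [← hm] at hprod
  have hmc : (algebraMap ℚ ℂ) ((algebraMap ℤ ℚ) m) = (m : ℂ) := by simp
  rw [hmc] at hprod
  have h1 : ∀ σ : CyclotomicField r ℚ →ₐ[ℚ] ℂ, σ (aeval θ W) = aeval (σ θ) W := by
    intro σ
    exact (Polynomial.aeval_algHom_apply (σ.restrictScalars ℤ) θ W).symm
  have h2 : ∏ a : (ZMod r)ˣ, ‖aeval (ζ ^ (a : ZMod r).val) W‖ = ‖(m : ℂ)‖ := by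
    rw [prod_prim hζ (fun μ => ‖aeval μ W‖), hprod, norm_prod, ← Finset.prod_coe_sort]
    rw [← Equiv.prod_comp (hθ.embeddingsEquivPrimitiveRoots ℂ hirr)]
    refine Finset.prod_congr rfl fun σ _ => ?_
    rw [h1 σ, IsPrimitiveRoot.embeddingsEquivPrimitiveRoots_apply_coe]
  rw [h2] at hpos ⊢
  have h3 : m ≠ 0 := by
    intro h
    rw [h, Int.cast_zero, norm_zero] at hpos
    exact lt_irrefl _ hpos
  rw [Complex.norm_intCast]
  have h4 : 1 ≤ |m| := Int.one_le_abs h3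
  exact_mod_cast h4

theorem nrm_ge {r p : ℕ} [Fact r.Prime] [Fact p.Prime] {F : Type} [Field F] [CharP F p] {z : F}
    (hz : IsPrimitiveRoot z r) {P : ℤ[X]}
    (hP : ∀ a : (ZMod r)ˣ, aeval (z ^ (a : ZMod r).val) P = 0) {ζ : ℂ} (hζ : IsPrimitiveRoot ζ r)
    (hne : aeval ζ P ≠ 0) :
    (p : ℝ) ^ (r - 1) ≤ ∏ a : (ZMod r)ˣ, ‖aeval (ζ ^ (a : ZMod r).val) P‖ := by
  obtain ⟨B, hB⟩ := red hz P hP
  have hBne : aeval ζ B ≠ 0 := by
    intro h
    apply hne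
    rw [hB ζ hζ, h, mul_zero]
  have h1 := one_le_prod hζ hBne
  have h2 : ∏ a : (ZMod r)ˣ, ‖aeval (ζ ^ (a : ZMod r).val) P‖ =
      (p : ℝ) ^ (r - 1) * ∏ a : (ZMod r)ˣ, ‖aeval (ζ ^ (a : ZMod r).val) B‖ := by
    have h3 : ∀ a : (ZMod r)ˣ, ‖aeval (ζ ^ (a : ZMod r).val) P‖ =
        (p : ℝ) * ‖aeval (ζ ^ (a : ZMod r).val) B‖ := by
      intro a
      rw [hB _ (prim_pow hζ a), norm_mul, Complex.norm_natCast]
    rw [Finset.prod_congr rfl (fun a _ => h3 a), Finset.prod_mul_distrib, Finset.prod_const,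
      Finset.card_univ, ZMod.card_units]
  rw [h2]
  exact le_mul_of_one_le_right (by positivity) h1

end AKW
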