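import Mathlib

/-!
# AKW, module Red: a polynomial which vanishes at all the `z ^ a` in characteristic `p` (helper19)

PROOF.  Let `P' = P` modulo `p`, in `(ZMod p)[X]`.  In `F[X]` the cyclotomic polynomial `Φ_r` is the product of the
`X - z ^ a` (`Polynomial.cyclotomic_eq_prod_X_sub_primitiveRoots`, `isRoot_cyclotomic_iff`; the `z ^ a` are distinct roots),
so `Φ_r ∣ P'` in `F[X]`, hence in `(ZMod p)[X]` (`Polynomial.map_dvd_map'`, `Polynomial.map_cyclotomic`).  Lift the quotient to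
`A : ℤ[X]` (`Polynomial.map_surjective`): `P - Φ_r A` is `0` modulo `p`, so it is `p * B` (`Polynomial.C_dvd_iff_dvd_coeff`,
`ZMod.intCast_zmod_eq_zero_iff_dvd` or the kernel of `Int.castRingHom (ZMod p)`).  Evaluate at `ζ`: `Φ_r (ζ) = 0`.
-/

open Polynomial

namespace AKW

private theorem red_dvd {r : ℕ} [Fact r.Prime] {F : Type} [Field F] {z : F}
    (hz : IsPrimitiveRoot z r) (Q : F[X])
    (hQ : ∀ a : (ZMod r)ˣ, Q.eval (z ^ (a : ZMod r).val) = 0) : cyclotomic r F ∣ Q := by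
  have hr : 0 < r := (Fact.out : r.Prime).pos
  rw [cyclotomic_eq_prod_X_sub_primitiveRoots hz]
  refine Finset.prod_dvd_of_coprime ?_ ?_
  · intro i _ j _ hij
    exact pairwise_coprime_X_sub_C (s := fun x : F => x) Function.injective_id hij
  · intro μ hμ
    rw [mem_primitiveRoots hr] at hμ
    have : NeZero r := ⟨hr.ne'⟩
    obtain ⟨i, hi, hc, hiz⟩ := hz.isPrimitiveRoot_iff.1 hμ
    rw [dvd_iff_isRoot]
    have h1 := hQ (ZMod.unitOfCoprime i hc)
    rw [ZMod.coe_unitOfCoprime, ZMod.val_natCast, Nat.mod_eq_of_lt hi, hiz] at h1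
    exact h1

theorem red {r p : ℕ} [Fact r.Prime] [Fact p.Prime] {F : Type} [Field F] [CharP F p] {z : F}
    (hz : IsPrimitiveRoot z r) (P : ℤ[X])
    (hP : ∀ a : (ZMod r)ˣ, aeval (z ^ (a : ZMod r).val) P = 0) :
    ∃ B : ℤ[X], ∀ ζ : ℂ, IsPrimitiveRoot ζ r → aeval ζ P = (p : ℂ) * aeval ζ B := by
  have hr : 0 < r := (Fact.out : r.Prime).pos
  obtain ⟨f, hf⟩ : ∃ f : ℤ →+* ZMod p, f = Int.castRingHom (ZMod p) := ⟨_, rfl⟩
  obtain ⟨g, hg⟩ : ∃ g : ZMod p →+* F, g = ZMod.castHom (dvd_refl p) F := ⟨_, rfl⟩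
  have hfg : g.comp f = Int.castRingHom F := RingHom.ext_int _ _
  have h1 : cyclotomic r F ∣ P.map (Int.castRingHom F) := by
    refine red_dvd hz _ fun a => ?_
    rw [eval_map]
    have := hP a
    rw [aeval_def] at this
    exact this
  have h2 : cyclotomic r (ZMod p) ∣ P.map f := by
    rw [← map_dvd_map' g, map_cyclotomic, Polynomial.map_map, hfg]
    exact h1
  obtain ⟨q, hq⟩ := h2
  obtain ⟨A, hA⟩ := Polynomial.map_surjective f (by rw [hf]; exact ZMod.intCast_surjective) q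
  have h3 : (C (p : ℤ)) ∣ P - cyclotomic r ℤ * A := by
    rw [C_dvd_iff_dvd_coeff]
    intro i
    have h4 : (P - cyclotomic r ℤ * A).map f = 0 := by
      rw [Polynomial.map_sub, Polynomial.map_mul, map_cyclotomic, hA, hq, sub_self]
    have h5 : f ((P - cyclotomic r ℤ * A).coeff i) = 0 := by
      rw [← coeff_map, h4, coeff_zero]
    rw [hf] at h5
    exact (ZMod.intCast_zmod_eq_zero_iff_dvd _ p).1 h5
  obtain ⟨B, hB⟩ := h3
  refine ⟨B, fun ζ hζ => ?_⟩
  have h4 : P = cyclotomic r ℤ * A + C (p : ℤ) * B := by rw [← hB]; ring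
  have h5 : aeval ζ (cyclotomic r ℤ) = 0 := by
    rw [aeval_def, eval₂_eq_eval_map, map_cyclotomic]
    exact hζ.isRoot_cyclotomic hr
  rw [h4, map_add, map_mul, map_mul, h5, zero_mul, zero_add, aeval_C]
  simp

end AKW
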