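import Mathlib

/-!
# AKW, module Ser: the series of a Dirichlet character at `1` (helper19)

PROOF of `series_ne_zero`.
(1) The partial sums of `χ (n + 1)` are bounded: `χ` is periodic modulo `r` and its sum over a period is `0`
(`MulChar.sum_eq_zero_of_ne_one` for `χ ≠ 1`); so are the partial sums in blocks.
(2) Dirichlet test, `Antitone.cauchySeq_series_mul_of_tendsto_zero_of_bounded` with `f n = 1 / (n + 1)`: the partial sums
`A N = ∑_{n < N} χ (n + 1) / (n + 1)` converge, to `l` say.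
(3) For real `s = 1 + δ > 1`, `L(χ, s) = ∑ χ (n) n ^ (-s) = ∑_n (χ (n+1) / (n+1)) (n+1) ^ (-δ)`; summation by parts:
`= ∑_{N ≥ 1} A N (N ^ (-δ) - (N + 1) ^ (-δ))`; the weights are `≥ 0`, their sum is `1`, and each of them tends to `0` as
`δ → 0`: so `L(χ, 1 + δ) → l` (split at `N₀`: `‖∑ w_N (A N - l)‖ ≤ C ∑_{N < N₀} w_N + ε`).
(4) `DirichletCharacter.LFunction χ` is continuous at `1` (`χ ≠ 1`: `differentiable_LFunction`), agrees with the `LSeries` for
`Re s > 1` (`LFunction_eq_LSeries`), so `l = LFunction χ 1`, which is not `0`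
(`DirichletCharacter.LFunction_apply_one_ne_zero`).
-/

open Filter Topology

namespace AKW

/-- partial sums of the values -/
private noncomputable def pS {r : ℕ} (χ : DirichletCharacter ℂ r) (N : ℕ) : ℂ :=
  ∑ n ∈ Finset.range N, χ ((n + 1 : ℕ) : ZMod r)

private theorem block_sum {r : ℕ} [NeZero r] {χ : DirichletCharacter ℂ r} (hχ : χ ≠ 1) (N : ℕ) :
    ∑ n ∈ Finset.range r, χ ((N + n + 1 : ℕ) : ZMod r) = 0 := by
  have h1 : ∑ n ∈ Finset.range r, χ ((N + n + 1 : ℕ) : ZMod r) =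
      ∑ x : ZMod r, χ (((N + 1 : ℕ) : ZMod r) + x) := by
    refine Finset.sum_nbij (fun n => (n : ZMod r)) (fun _ _ => Finset.mem_univ _) ?_ ?_ ?_
    · intro a ha b hb hab
      have ha' := Finset.mem_range.1 (Finset.mem_coe.1 ha)
      have hb' := Finset.mem_range.1 (Finset.mem_coe.1 hb)
      have h2 := (ZMod.natCast_eq_natCast_iff' a b r).1 hab
      rwa [Nat.mod_eq_of_lt ha', Nat.mod_eq_of_lt hb'] at h2
    · intro x _
      exact ⟨x.val, Finset.mem_coe.2 (Finset.mem_range.2 (ZMod.val_lt x)), ZMod.natCast_zmod_val x⟩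
    · intro n _
      congr 1
      push_cast
      ring
  have h2 : ∑ x : ZMod r, χ (((N + 1 : ℕ) : ZMod r) + x) = ∑ x : ZMod r, χ x :=
    Equiv.sum_comp (Equiv.addLeft ((N + 1 : ℕ) : ZMod r)) (fun x => χ x)
  rw [h1, h2]
  exact MulChar.sum_eq_zero_of_ne_one hχ

private theorem pS_add {r : ℕ} [NeZero r] {χ : DirichletCharacter ℂ r} (hχ : χ ≠ 1) (N : ℕ) :
    pS χ (N + r) = pS χ N := by
  unfold pS
  rw [Finset.sum_range_add, block_sum hχ N, add_zero]

private theorem pS_bound {r : ℕ} [NeZero r] {χ : DirichletCharacter ℂ r} (hχ : χ ≠ 1) (N : ℕ) :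
    ‖pS χ N‖ ≤ r := by
  have hp : Function.Periodic (pS χ) r := fun n => pS_add hχ n
  rw [← hp.map_mod_nat N]
  unfold pS
  refine (norm_sum_le _ _).trans ?_
  have h1 : ∑ n ∈ Finset.range (N % r), ‖χ ((n + 1 : ℕ) : ZMod r)‖ ≤ ∑ n ∈ Finset.range (N % r), (1 : ℝ) :=
    Finset.sum_le_sum fun n _ => DirichletCharacter.norm_le_one χ _
  refine h1.trans ?_
  rw [Finset.sum_const, Finset.card_range, nsmul_eq_mul, mul_one]
  exact_mod_cast (Nat.mod_lt N (NeZero.pos r)).le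

/-- the real weights -/
private noncomputable def gw (s : ℝ) (n : ℕ) : ℝ := ((n : ℝ) + 1) ^ (-s)

private theorem gw_pos (s : ℝ) (n : ℕ) : 0 < gw s n := Real.rpow_pos_of_pos (by positivity) _

private theorem gw_le {s : ℝ} (hs : 1 ≤ s) (n : ℕ) : gw s n ≤ 1 / ((n : ℝ) + 1) := by
  have h1 : (1 : ℝ) ≤ (n : ℝ) + 1 := by
    have : (0 : ℝ) ≤ n := Nat.cast_nonneg n
    linarith
  have h2 := Real.rpow_le_rpow_of_exponent_le h1 (show -s ≤ -1 by linarith)
  rw [Real.rpow_neg_one] at h2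
  rw [one_div]
  exact h2

private theorem gw_sub {s : ℝ} (hs : 1 ≤ s) (hs2 : s ≤ 2) (n : ℕ) :
    |gw s n - gw s (n + 1)| ≤ 2 / ((n : ℝ) + 1) ^ 2 := by
  have hn : (0 : ℝ) < (n : ℝ) + 1 := by positivity
  have hn2 : (0 : ℝ) < (n : ℝ) + 2 := by positivity
  have e1 : gw s (n + 1) = gw s n * (((n : ℝ) + 1) / ((n : ℝ) + 2)) ^ s := by
    unfold gw
    rw [Real.div_rpow hn.le hn2.le, Real.rpow_neg hn.le]
    have e2 : ((n + 1 : ℕ) : ℝ) + 1 = (n : ℝ) + 2 := by push_cast; ring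
    rw [e2, Real.rpow_neg hn2.le]
    have h1 : ((n : ℝ) + 1) ^ s ≠ 0 := (Real.rpow_pos_of_pos hn _).ne'
    have h2 : ((n : ℝ) + 2) ^ s ≠ 0 := (Real.rpow_pos_of_pos hn2 _).ne'
    field_simp
  have e3 : ((n : ℝ) + 1) / ((n : ℝ) + 2) = 1 + (-(1 / ((n : ℝ) + 2))) := by
    field_simp
    ring
  have h1 : (1 : ℝ) / ((n : ℝ) + 2) ≤ 1 := by
    rw [div_le_one hn2]
    have : (0 : ℝ) ≤ n := Nat.cast_nonneg n
    linarith
  have h2 := one_add_mul_self_le_rpow_one_add (s := -(1 / ((n : ℝ) + 2))) (by linarith) hs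
  rw [← e3] at h2
  have h3 : (((n : ℝ) + 1) / ((n : ℝ) + 2)) ^ s ≤ 1 := by
    refine Real.rpow_le_one (by positivity) ?_ (by linarith)
    rw [div_le_one hn2]
    linarith
  have h4 := gw_pos s n
  have h5 := gw_le hs n
  have h6 : 0 ≤ 1 - (((n : ℝ) + 1) / ((n : ℝ) + 2)) ^ s := by linarith
  have h7 : 1 - (((n : ℝ) + 1) / ((n : ℝ) + 2)) ^ s ≤ 2 / ((n : ℝ) + 1) := by
    have h8 : 1 - (((n : ℝ) + 1) / ((n : ℝ) + 2)) ^ s ≤ s * (1 / ((n : ℝ) + 2)) := by linarith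
    have h9 : s * (1 / ((n : ℝ) + 2)) ≤ 2 * (1 / ((n : ℝ) + 1)) := by
      refine mul_le_mul hs2 ?_ (by positivity) (by norm_num)
      exact one_div_le_one_div_of_le hn (by linarith)
    have h10 : 2 * (1 / ((n : ℝ) + 1)) = 2 / ((n : ℝ) + 1) := by ring
    linarith
  rw [e1]
  have e4 : gw s n - gw s n * (((n : ℝ) + 1) / ((n : ℝ) + 2)) ^ s =
      gw s n * (1 - (((n : ℝ) + 1) / ((n : ℝ) + 2)) ^ s) := by ring
  rw [e4, abs_of_nonneg (mul_nonneg h4.le h6)]
  calc gw s n * (1 - (((n : ℝ) + 1) / ((n : ℝ) + 2)) ^ s) ≤ 1 / ((n : ℝ) + 1) * (2 / ((n : ℝ) + 1)) :=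
        mul_le_mul h5 h7 h6 (by positivity)
    _ = 2 / ((n : ℝ) + 1) ^ 2 := by
        field_simp

/-- the terms after summation by parts -/
private noncomputable def hh {r : ℕ} (χ : DirichletCharacter ℂ r) (s : ℝ) (n : ℕ) : ℂ :=
  pS χ (n + 1) * ((gw s n - gw s (n + 1) : ℝ) : ℂ)

private theorem hh_bound {r : ℕ} [NeZero r] {χ : DirichletCharacter ℂ r} (hχ : χ ≠ 1) {s : ℝ} (hs : 1 ≤ s)
    (hs2 : s ≤ 2) (n : ℕ) : ‖hh χ s n‖ ≤ r * (2 / ((n : ℝ) + 1) ^ 2) := by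
  unfold hh
  rw [norm_mul, Complex.norm_real, Real.norm_eq_abs]
  exact mul_le_mul (pS_bound hχ _) (gw_sub hs hs2 n) (abs_nonneg _) (Nat.cast_nonneg _)

private theorem bound_summable (r : ℕ) : Summable fun n : ℕ => (r : ℝ) * (2 / ((n : ℝ) + 1) ^ 2) := by
  refine Summable.mul_left _ ?_
  have h1 : Summable fun n : ℕ => 1 / ((n : ℝ)) ^ 2 := Real.summable_one_div_nat_pow.2 (by norm_num)
  have h2 := ((summable_nat_add_iff 1).2 h1).mul_left 2
  refine h2.congr fun n => ?_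
  push_cast
  ring

private theorem by_parts {r : ℕ} (χ : DirichletCharacter ℂ r) (s : ℝ) (N : ℕ) :
    ∑ n ∈ Finset.range N, χ ((n + 1 : ℕ) : ZMod r) * ((gw s n : ℝ) : ℂ) =
      pS χ N * ((gw s N : ℝ) : ℂ) + ∑ n ∈ Finset.range N, hh χ s n := by
  induction N with
  | zero => simp [pS]
  | succ N ih =>
    have e : pS χ (N + 1) = pS χ N + χ ((N + 1 : ℕ) : ZMod r) := by
      unfold pS
      rw [Finset.sum_range_succ]
    rw [Finset.sum_range_succ, ih, Finset.sum_range_succ]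
    unfold hh
    rw [e]
    push_cast
    ring

private theorem lim_parts {r : ℕ} [NeZero r] {χ : DirichletCharacter ℂ r} (hχ : χ ≠ 1) {s : ℝ} (hs : 1 ≤ s)
    (hs2 : s ≤ 2) : Tendsto (fun N : ℕ => ∑ n ∈ Finset.range N, χ ((n + 1 : ℕ) : ZMod r) * ((gw s n : ℝ) : ℂ))
      atTop (𝓝 (∑' n, hh χ s n)) := by
  have h1 : Summable (hh χ s) := Summable.of_norm_bounded (bound_summable r) (hh_bound hχ hs hs2)
  have h2 := h1.hasSum.tendsto_sum_nat
  have h3 : Tendsto (fun N : ℕ => pS χ N * ((gw s N : ℝ) : ℂ)) atTop (𝓝 0) := by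
    have h4 : Tendsto (fun N : ℕ => (r : ℝ) * (1 / ((N : ℝ) + 1))) atTop (𝓝 0) := by
      have := (tendsto_one_div_add_atTop_nhds_zero_nat (𝕜 := ℝ)).const_mul (r : ℝ)
      rwa [mul_zero] at this
    refine squeeze_zero_norm (fun N => ?_) h4
    rw [norm_mul, Complex.norm_real, Real.norm_eq_abs, abs_of_pos (gw_pos s N)]
    exact mul_le_mul (pS_bound hχ _) (gw_le hs N) (gw_pos s N).le (Nat.cast_nonneg _)
  have h5 := h3.add h2
  rw [zero_add] at h5
  exact h5.congr fun N => (by_parts χ s N).symm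

private theorem hh_cont {r : ℕ} [NeZero r] {χ : DirichletCharacter ℂ r} (hχ : χ ≠ 1) :
    Tendsto (fun s : ℝ => ∑' n, hh χ s n) (𝓝[>] 1) (𝓝 (∑' n, hh χ 1 n)) := by
  refine tendsto_tsum_of_dominated_convergence (bound_summable r) (fun n => ?_) ?_
  · have h1 : Continuous fun s : ℝ => hh χ s n := by
      unfold hh gw
      have hc : ∀ m : ℕ, Continuous fun s : ℝ => ((m : ℝ) + 1) ^ (-s) := by
        intro m
        have hm : (m : ℝ) + 1 ≠ 0 := by positivity
        exact Continuous.rpow continuous_const continuous_neg fun s => Or.inl hm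
      exact continuous_const.mul (Complex.continuous_ofReal.comp ((hc n).sub (hc (n + 1))))
    exact (h1.tendsto 1).mono_left nhdsWithin_le_nhds
  · have h1 : Set.Ioo (1 : ℝ) 2 ∈ 𝓝[>] (1 : ℝ) := Ioo_mem_nhdsGT (by norm_num)
    filter_upwards [h1] with s hs n
    exact hh_bound hχ hs.1.le hs.2.le n

private theorem L_eq {r : ℕ} [NeZero r] {χ : DirichletCharacter ℂ r} (hχ : χ ≠ 1) {s : ℝ} (hs : 1 < s)
    (hs2 : s ≤ 2) : DirichletCharacter.LFunction χ (s : ℂ) = ∑' n, hh χ s n := by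
  have hre : 1 < (s : ℂ).re := by rw [Complex.ofReal_re]; exact hs
  rw [DirichletCharacter.LFunction_eq_LSeries χ hre]
  have h1 : LSeriesSummable (fun n : ℕ => χ (n : ZMod r)) (s : ℂ) :=
    DirichletCharacter.LSeriesSummable_of_one_lt_re χ hre
  have h2 : Tendsto (fun N : ℕ => ∑ n ∈ Finset.range N, LSeries.term (fun n : ℕ => χ (n : ZMod r)) (s : ℂ) n)
      atTop (𝓝 (LSeries (fun n : ℕ => χ (n : ZMod r)) (s : ℂ))) := h1.hasSum.tendsto_sum_nat
  have h3 := h2.comp (tendsto_add_atTop_nat 1)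
  refine tendsto_nhds_unique h3 ((lim_parts hχ hs.le hs2).congr fun N => ?_)
  change _ = ∑ n ∈ Finset.range (N + 1), LSeries.term (fun n : ℕ => χ (n : ZMod r)) (s : ℂ) n
  rw [Finset.sum_range_succ', LSeries.term_zero, add_zero]
  refine Finset.sum_congr rfl fun n _ => ?_
  rw [LSeries.term_of_ne_zero (Nat.succ_ne_zero n), div_eq_mul_inv]
  congr 1
  unfold gw
  have hn : (0 : ℝ) ≤ (n : ℝ) + 1 := by positivity
  rw [Real.rpow_neg hn, Complex.ofReal_inv, Complex.ofReal_cpow hn]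
  push_cast
  rfl

theorem series_ne_zero {r : ℕ} [NeZero r] {χ : DirichletCharacter ℂ r} (hχ : χ ≠ 1) :
    ∃ l : ℂ, l ≠ 0 ∧ Tendsto (fun N : ℕ => ∑ n ∈ Finset.range N,
      χ ((n + 1 : ℕ) : ZMod r) / ((n + 1 : ℕ) : ℂ)) atTop (𝓝 l) := by
  refine ⟨∑' n, hh χ 1 n, ?_, ?_⟩
  · have h1 : Tendsto (fun s : ℝ => DirichletCharacter.LFunction χ (s : ℂ)) (𝓝[>] 1)
        (𝓝 (DirichletCharacter.LFunction χ 1)) := by
      have hc : Continuous (DirichletCharacter.LFunction χ) :=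
        (DirichletCharacter.differentiable_LFunction hχ).continuous
      have h2 := ((hc.comp Complex.continuous_ofReal).tendsto 1).mono_left
        (nhdsWithin_le_nhds (s := Set.Ioi (1 : ℝ)))
      have e : (DirichletCharacter.LFunction χ ∘ Complex.ofReal) 1 = DirichletCharacter.LFunction χ 1 := by
        rw [Function.comp_apply, Complex.ofReal_one]
      rw [e] at h2
      exact h2
    have h3 : Tendsto (fun s : ℝ => DirichletCharacter.LFunction χ (s : ℂ)) (𝓝[>] 1)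
        (𝓝 (∑' n, hh χ 1 n)) := by
      refine (hh_cont hχ).congr' ?_
      have h4 : Set.Ioo (1 : ℝ) 2 ∈ 𝓝[>] (1 : ℝ) := Ioo_mem_nhdsGT (by norm_num)
      filter_upwards [h4] with s hs
      exact (L_eq hχ hs.1 hs.2.le).symm
    rw [← tendsto_nhds_unique h1 h3]
    exact DirichletCharacter.LFunction_apply_one_ne_zero hχ
  · refine (lim_parts hχ le_rfl (by norm_num)).congr fun N => ?_
    refine Finset.sum_congr rfl fun n _ => ?_
    rw [div_eq_mul_inv]
    congr 1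
    unfold gw
    rw [Real.rpow_neg_one]
    push_cast
    rfl

end AKW
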